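import Pool.Agent.Lib.MP_d898c1_an.Fixed

section

/-!
The concentration estimate and the contraction argument, second part.
-/

set_option autoImplicit false
set_option linter.unusedSectionVars false

open MeasureTheory Set Filter Topology Real Module
open scoped InnerProductSpace BoundedContinuousFunction

namespace Pool.Agent.Lib.MP_d898c1_an

variable {E : Type} [NormedAddCommGroup E] [InnerProductSpace ℝ E] [FiniteDimensional ℝ E]
  [MeasurableSpace E] [BorelSpace E] {e₀ e₁ : E} {α β t R : ℝ}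

theorem exists_t {A a b : ℝ} (hA : 0 ≤ A) (ha : 0 < a) (hb : 0 < b) :
    ∃ t : ℝ, 1 ≤ t ∧ A * exp (-(a * t)) ≤ b := by
  refine ⟨A / (a * b) + 1, by have : 0 ≤ A / (a * b) := by positivity
                              linarith, ?_⟩
  rw [exp_neg, ← div_eq_mul_inv, div_le_iff₀ (exp_pos _)]
  have h1 := add_one_le_exp (a * (A / (a * b) + 1))
  have h2 : b * (a * (A / (a * b) + 1)) = A + a * b := by field_simp
  have h3 : 0 < a * b := by positivity
  have h4 : b * (a * (A / (a * b) + 1) + 1) ≤ b * exp (a * (A / (a * b) + 1)) := by gcongr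
  linarith

theorem pp_e₀ (h : ON2 e₀ e₁) : pp e₀ e₁ e₀ = 0 := by
  have h1 : rr e₀ e₁ e₀ ^ 2 = 1 := by
    have i00 : inner ℝ e₀ e₀ = (1 : ℝ) := by rw [real_inner_self_eq_norm_sq, h.n0]; norm_num
    have i10 : inner ℝ e₁ e₀ = (0 : ℝ) := by rw [real_inner_comm]; exact h.orth
    rw [rr_sq, i00, i10]; norm_num
  have h2 := norm_sq_split h e₀
  rw [h.n0, h1] at h2
  unfold pp
  rw [h1]
  linarith

theorem conc (hn : 1 < finrank ℝ E) (h : ON2 e₀ e₁) (hα : 0 < α) (hβ : 0 < β) (R : ℝ) {ε : ℝ}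
    (hε : 0 < ε) :
    ∃ t > 0, ∀ w : E → ℝ, Continuous w → (∀ y, |w y| ≤ R) → ∀ x : E,
      ∫ y, |KK e₀ e₁ x y - KC e₀ e₁ x| * gg α β t e₀ e₁ w y
        ≤ ε * ∫ y, gg α β t e₀ e₁ w y := by
  obtain ⟨δ, hδ0, hδ1, hδ2⟩ : ∃ δ : ℝ, 0 < δ ∧ δ ≤ 1 / 2 ∧ 6 * δ ≤ ε / 2 :=
    ⟨min (1 / 2) (ε / 12), by positivity, min_le_left _ _, by
      have := min_le_right (1 / 2) (ε / 12)
      linarith⟩
  obtain ⟨M, hM0, hM⟩ := BB_bound (E := E) hn hβ
  set S : Set E := {y : E | pp e₀ e₁ y < δ ^ 2 / 4} with hSdef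
  have hS : IsOpen S := isOpen_lt continuous_pp continuous_const
  have hSne : S.Nonempty := ⟨e₀, by
    show pp e₀ e₁ e₀ < δ ^ 2 / 4
    rw [pp_e₀ h]; positivity⟩
  have hSb : ∀ y ∈ S, ‖y‖ ^ 2 ≤ 4 := by
    intro y hy
    have h1 := pp_ge h y
    have h2 : pp e₀ e₁ y < δ ^ 2 / 4 := hy
    nlinarith
  have hSfin : volume S < ⊤ := by
    refine (measure_mono (t := Metric.closedBall 0 2) fun y hy => ?_).trans_lt
      measure_closedBall_lt_top
    rw [mem_closedBall_zero_iff]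
    nlinarith [hSb y hy, norm_nonneg y]
  set s := volume.real S with hs
  have hs0 : 0 < s := ENNReal.toReal_pos (hS.measure_pos volume hSne).ne' hSfin.ne
  have ha0 : 0 < β * δ ^ 2 / 4 := by positivity
  obtain ⟨t, ht1, ht⟩ := exists_t (A := exp (β * R + 2 * β + β * δ ^ 2 / 2) * M)
    (a := β * δ ^ 2 / 4) (b := ε / 2 * s * exp (-(β * R) - 2 * α * β)) (by positivity) ha0
    (by positivity)
  have ht0 : 0 < t := by linarith
  refine ⟨t, ht0, fun w hwc hw x => ?_⟩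
  have hgi := gg_integrable h hα hβ ht0 hwc hw
  set Z := ∫ y, gg α β t e₀ e₁ w y with hZ
  -- lower bound for Z
  have hZl : exp (-(β * R) - 2 * α * β) * exp (-(β * δ ^ 2 / 4 * t)) * s ≤ Z := by
    have h1 : ∫ y in S, exp (-(β * R) - 2 * α * β) * exp (-(β * δ ^ 2 / 4 * t))
        ≤ ∫ y in S, gg α β t e₀ e₁ w y := by
      refine setIntegral_mono_on ?_ hgi.integrableOn hS.measurableSet fun y hy => ?_
      · exact integrableOn_const hSfin.ne
      · refine le_trans ?_ (gg_ge hβ hw y)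
        rw [← exp_add, ← exp_add, ← exp_add]
        apply exp_le_exp.2
        have h2 : pp e₀ e₁ y < δ ^ 2 / 4 := hy
        have h3 := (log_one_add_le (sq_nonneg ‖y‖)).trans (hSb y hy)
        have h4 : (β * t) * pp e₀ e₁ y ≤ (β * t) * (δ ^ 2 / 4) := by gcongr
        have h5 : (β * (α / 2)) * log (1 + ‖y‖ ^ 2) ≤ (β * (α / 2)) * 4 := by gcongr
        linarith
    have h2 : ∫ y in S, gg α β t e₀ e₁ w y ≤ Z :=
      setIntegral_le_integral hgi (Eventually.of_forall fun y => (gg_pos _ _ _ _ _).le)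
    rw [setIntegral_const, smul_eq_mul] at h1
    calc _ = volume.real S * (exp (-(β * R) - 2 * α * β) * exp (-(β * δ ^ 2 / 4 * t))) := by
          rw [hs]; ring
      _ ≤ _ := h1.trans h2
  -- pointwise bound
  set K := exp (β * R) * exp (-(β * (t - 1)) * (δ ^ 2 / 2)) * exp (2 * β) with hK
  have hpt : ∀ᵐ y : E, |KK e₀ e₁ x y - KC e₀ e₁ x| * gg α β t e₀ e₁ w y
      ≤ 6 * δ * gg α β t e₀ e₁ w y + K * (BB x y * Gs β y) := by
    filter_upwards [ae_ne hn x] with y hxy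
    have hg := gg_pos (e₀ := e₀) (e₁ := e₁) α β t w y
    have hB := BB_nonneg x y
    have hG := Gs_pos β y
    have hK0 : 0 < K := by positivity
    rcases lt_or_ge (DC e₀ e₁ y) δ with hy | hy
    · have hr : 1 / 2 ≤ rr e₀ e₁ y := by
        unfold DC at hy
        have h1 := norm_nonneg (qc e₀ e₁ y)
        have h2 := neg_abs_le (rr e₀ e₁ y - 1)
        linarith
      have h1 := KK_near (e₀ := e₀) (e₁ := e₁) x hr
      have h2 : |KK e₀ e₁ x y - KC e₀ e₁ x| ≤ 6 * δ := by linarith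
      have h3 : 0 ≤ K * (BB x y * Gs β y) := by positivity
      calc |KK e₀ e₁ x y - KC e₀ e₁ x| * gg α β t e₀ e₁ w y
          ≤ 6 * δ * gg α β t e₀ e₁ w y := by gcongr
        _ ≤ _ := by linarith
    · have hp := pp_far hδ0.le hy
      have h1 := KK_KC_le_BB h hxy
      have h2 : gg α β t e₀ e₁ w y ≤ K * Gs β y := by
        refine (gg_le_pp hα hβ hw y).trans ?_
        rw [hK]
        unfold Gs
        rw [← exp_add, ← exp_add, ← exp_add, ← exp_add]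
        apply exp_le_exp.2
        have h3 := pp_ge h y
        have h4 : (β * (t - 1)) * (δ ^ 2 / 2) ≤ (β * (t - 1)) * pp e₀ e₁ y := by
          have : 0 ≤ t - 1 := by linarith
          gcongr
        have h5 : β * (‖y‖ ^ 2 - 2) ≤ β * pp e₀ e₁ y := by gcongr
        linarith
      have h6 : 0 ≤ 6 * δ * gg α β t e₀ e₁ w y := by positivity
      calc |KK e₀ e₁ x y - KC e₀ e₁ x| * gg α β t e₀ e₁ w y
          ≤ BB x y * (K * Gs β y) := by gcongr
        _ = K * (BB x y * Gs β y) := by ring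
        _ ≤ _ := by linarith
  have hub : Integrable (fun y => 6 * δ * gg α β t e₀ e₁ w y + K * (BB x y * Gs β y)) :=
    (hgi.const_mul _).add ((hM x).1.const_mul _)
  have hint : ∫ y, |KK e₀ e₁ x y - KC e₀ e₁ x| * gg α β t e₀ e₁ w y
      ≤ ∫ y, (6 * δ * gg α β t e₀ e₁ w y + K * (BB x y * Gs β y)) := by
    refine integral_mono_of_nonneg (Eventually.of_forall fun y => ?_) hub hpt
    exact mul_nonneg (abs_nonneg _) (gg_pos _ _ _ _ _).le
  rw [integral_add (hgi.const_mul _) ((hM x).1.const_mul _), integral_const_mul,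
    integral_const_mul, ← hZ] at hint
  have hZ0 : 0 ≤ Z := integral_nonneg fun y => (gg_pos _ _ _ _ _).le
  have hKM : K * ∫ y, BB x y * Gs β y ≤ ε / 2 * Z := by
    have hK0 : 0 < K := by positivity
    have e1 : K = exp (β * R + 2 * β + β * δ ^ 2 / 2) * exp (-(β * δ ^ 2 / 4 * t))
        * exp (-(β * δ ^ 2 / 4 * t)) := by
      rw [hK, ← exp_add, ← exp_add, ← exp_add, ← exp_add]
      congr 1; ring
    calc K * ∫ y, BB x y * Gs β y ≤ K * M := by gcongr; exact (hM x).2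
      _ = (exp (β * R + 2 * β + β * δ ^ 2 / 2) * M * exp (-(β * δ ^ 2 / 4 * t)))
            * exp (-(β * δ ^ 2 / 4 * t)) := by rw [e1]; ring
      _ ≤ (ε / 2 * s * exp (-(β * R) - 2 * α * β)) * exp (-(β * δ ^ 2 / 4 * t)) := by gcongr
      _ = ε / 2 * (exp (-(β * R) - 2 * α * β) * exp (-(β * δ ^ 2 / 4 * t)) * s) := by ring
      _ ≤ _ := by gcongr
  have h6 : 6 * δ * Z ≤ ε / 2 * Z := by gcongr
  linarith

/-- The kernel differences are integrable against the density. -/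
theorem int_KK_KC (hn : 1 < finrank ℝ E) (h : ON2 e₀ e₁) (hα : 0 < α) (hβ : 0 < β) (ht : 0 < t)
    {w : E → ℝ} (hwc : Continuous w) (hw : ∀ y, |w y| ≤ R) (x : E) :
    Integrable (fun y => (KK e₀ e₁ x y - KC e₀ e₁ x) * gg α β t e₀ e₁ w y) := by
  obtain ⟨M, hM0, hM⟩ := BBgg_bound hn h hα hβ ht hwc hw
  refine (hM x).1.mono' ?_ ?_
  · exact ((measurable_KK x).sub_const _).aestronglyMeasurable.mul
      (gg_continuous α β t hwc).aestronglyMeasurable
  · filter_upwards [ae_ne hn x] with y hxy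
    have hg := gg_pos (e₀ := e₀) (e₁ := e₁) α β t w y
    rw [norm_mul, Real.norm_eq_abs, Real.norm_of_nonneg hg.le]
    gcongr
    exact KK_KC_le_BB h hxy

theorem int_KK (hn : 1 < finrank ℝ E) (h : ON2 e₀ e₁) (hα : 0 < α) (hβ : 0 < β) (ht : 0 < t)
    {w : E → ℝ} (hwc : Continuous w) (hw : ∀ y, |w y| ≤ R) (x : E) :
    Integrable (fun y => KK e₀ e₁ x y * gg α β t e₀ e₁ w y) := by
  have h1 := int_KK_KC hn h hα hβ ht hwc hw x
  have h2 := (gg_integrable h hα hβ ht hwc hw).const_mul (KC e₀ e₁ x)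
  refine (h1.add h2).congr (Eventually.of_forall fun y => ?_)
  simp only [Pi.add_apply]; ring

/-- The map whose fixed points we want. -/
noncomputable def TT (α β t : ℝ) (e₀ e₁ : E) (w : E → ℝ) (x : E) : ℝ :=
  α * ((∫ y, KK e₀ e₁ x y * gg α β t e₀ e₁ w y) / (∫ y, gg α β t e₀ e₁ w y)
    + 1 / 2 * log (1 + ‖x‖ ^ 2))

theorem TT_eq (hn : 1 < finrank ℝ E) (h : ON2 e₀ e₁) (hα : 0 < α) (hβ : 0 < β) (ht : 0 < t)
    {w : E → ℝ} (hwc : Continuous w) (hw : ∀ y, |w y| ≤ R) (x : E) :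
    TT α β t e₀ e₁ w x = α * ((KC e₀ e₁ x + 1 / 2 * log (1 + ‖x‖ ^ 2)) +
      ∫ y, (KK e₀ e₁ x y - KC e₀ e₁ x) *
        (gg α β t e₀ e₁ w y / ∫ y, gg α β t e₀ e₁ w y)) := by
  have hZ := gg_int_pos h hα hβ ht hwc hw
  have hg := gg_integrable h hα hβ ht hwc hw
  have h1 := int_KK hn h hα hβ ht hwc hw x
  set Z := ∫ y, gg α β t e₀ e₁ w y with hZdef
  have e : (fun y => (KK e₀ e₁ x y - KC e₀ e₁ x) * (gg α β t e₀ e₁ w y / Z))
      = fun y => (KK e₀ e₁ x y * gg α β t e₀ e₁ w y - KC e₀ e₁ x * gg α β t e₀ e₁ w y) / Z := by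
    ext y; ring
  rw [e, integral_div, integral_sub h1 (hg.const_mul _), integral_const_mul, ← hZdef]
  unfold TT
  rw [← hZdef]
  field_simp
  ring

theorem TT_continuous (hn : 1 < finrank ℝ E) (h : ON2 e₀ e₁) (hα : 0 < α) (hβ : 0 < β)
    (ht : 0 < t) {w : E → ℝ} (hwc : Continuous w) (hw : ∀ y, |w y| ≤ R) :
    Continuous (TT α β t e₀ e₁ w) := by
  obtain ⟨M, hM0, hM⟩ := BBgg_bound hn h hα hβ ht hwc hw
  have hL : Continuous (fun x : E => log (1 + ‖x‖ ^ 2)) :=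
    Continuous.log (by fun_prop) (fun y => by positivity)
  have hG : Continuous (fun x : E => ∫ y, KK e₀ e₁ x y * gg α β t e₀ e₁ w y) := by
    have : LipschitzWith (Real.toNNReal (4 * M))
        (fun x : E => ∫ y, KK e₀ e₁ x y * gg α β t e₀ e₁ w y) := by
      refine LipschitzWith.of_dist_le_mul fun x x' => ?_
      rw [Real.coe_toNNReal _ (by positivity), Real.dist_eq, dist_eq_norm,
        ← integral_sub (int_KK hn h hα hβ ht hwc hw x) (int_KK hn h hα hβ ht hwc hw x'),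
        ← Real.norm_eq_abs]
      have hb : Integrable (fun y => 2 * ‖x - x'‖ * (BB x y * gg α β t e₀ e₁ w y
          + BB x' y * gg α β t e₀ e₁ w y)) := ((hM x).1.add (hM x').1).const_mul _
      calc _ ≤ ∫ y, 2 * ‖x - x'‖ * (BB x y * gg α β t e₀ e₁ w y
              + BB x' y * gg α β t e₀ e₁ w y) := by
            refine norm_integral_le_of_norm_le hb ?_
            filter_upwards [ae_ne hn x, ae_ne hn x'] with y hxy hxy'
            have hg := gg_pos (e₀ := e₀) (e₁ := e₁) α β t w y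
            rw [← sub_mul, norm_mul, Real.norm_eq_abs, Real.norm_of_nonneg hg.le]
            have h1 := KK_lip h hxy hxy'
            have h2 : ‖x - y‖⁻¹ ≤ BB x y := by
              unfold BB
              nlinarith [sq_nonneg ‖y‖]
            have h3 : ‖x' - y‖⁻¹ ≤ BB x' y := by
              unfold BB
              nlinarith [sq_nonneg ‖y‖]
            calc |KK e₀ e₁ x y - KK e₀ e₁ x' y| * gg α β t e₀ e₁ w y
                ≤ (2 * ‖x - x'‖ * (‖x - y‖⁻¹ + ‖x' - y‖⁻¹)) * gg α β t e₀ e₁ w y := by gcongr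
              _ ≤ (2 * ‖x - x'‖ * (BB x y + BB x' y)) * gg α β t e₀ e₁ w y := by gcongr
              _ = _ := by ring
        _ = 2 * ‖x - x'‖ * ((∫ y, BB x y * gg α β t e₀ e₁ w y)
              + ∫ y, BB x' y * gg α β t e₀ e₁ w y) := by
            rw [integral_const_mul, integral_add (hM x).1 (hM x').1]
        _ ≤ 2 * ‖x - x'‖ * (M + M) := by
            gcongr
            · exact (hM x).2
            · exact (hM x').2
        _ = _ := by ring
    exact this.continuous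
  unfold TT
  exact continuous_const.mul ((hG.div_const _).add (continuous_const.mul hL))

theorem abs_int_bound {κ g : E → ℝ} (hg : ∀ y, 0 < g y) {Z c : ℝ} (hZ : 0 < Z)
    (hc : ∫ y, |κ y| * g y ≤ c * Z) : ‖∫ y, κ y * (g y / Z)‖ ≤ c := by
  calc ‖∫ y, κ y * (g y / Z)‖
      ≤ ∫ y, ‖κ y * (g y / Z)‖ := norm_integral_le_integral_norm _
    _ = (∫ y, |κ y| * g y) / Z := by
        rw [← integral_div]
        congr 1; ext y
        have := hg y
        rw [norm_mul, Real.norm_eq_abs, Real.norm_of_nonneg (by positivity)]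
        ring
    _ ≤ c := by
        rw [div_le_iff₀ hZ]; exact hc

theorem TT_bound (hn : 1 < finrank ℝ E) (h : ON2 e₀ e₁) (hα : 0 < α) (hβ : 0 < β)
    (ht : 0 < t) {w : E → ℝ} (hwc : Continuous w) (hw : ∀ y, |w y| ≤ R) {c : ℝ}
    (hc : ∀ x : E, ∫ y, |KK e₀ e₁ x y - KC e₀ e₁ x| * gg α β t e₀ e₁ w y
        ≤ c * ∫ y, gg α β t e₀ e₁ w y) (x : E) :
    |TT α β t e₀ e₁ w x| ≤ α * (1 + c) := by
  have hZ := gg_int_pos h hα hβ ht hwc hw
  have hb := abs_int_bound (κ := fun y => KK e₀ e₁ x y - KC e₀ e₁ x)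
    (fun y => gg_pos (e₀ := e₀) (e₁ := e₁) α β t w y) hZ (hc x)
  rw [TT_eq hn h hα hβ ht hwc hw x, abs_mul, abs_of_pos hα]
  refine mul_le_mul_of_nonneg_left ?_ hα.le
  exact (abs_add_le _ _).trans (add_le_add (KC_bound h x) hb)

theorem TT_bound' (hn : 1 < finrank ℝ E) (h : ON2 e₀ e₁) (hα : 0 < α) (hβ : 0 < β)
    (ht : 0 < t) {w : E → ℝ} (hwc : Continuous w) (hw : ∀ y, |w y| ≤ R) :
    ∃ C, ∀ x, |TT α β t e₀ e₁ w x| ≤ C := by
  obtain ⟨M, hM0, hM⟩ := BBgg_bound hn h hα hβ ht hwc hw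
  have hZ := gg_int_pos h hα hβ ht hwc hw
  refine ⟨_, TT_bound hn h hα hβ ht hwc hw (c := M / ∫ y, gg α β t e₀ e₁ w y) fun x => ?_⟩
  rw [div_mul_cancel₀ _ hZ.ne']
  refine le_trans ?_ (hM x).2
  refine integral_mono_of_nonneg (Eventually.of_forall fun y => ?_) (hM x).1 ?_
  · exact mul_nonneg (abs_nonneg _) (gg_pos _ _ _ _ _).le
  · filter_upwards [ae_ne hn x] with y hxy
    have hg := gg_pos (e₀ := e₀) (e₁ := e₁) α β t w y
    gcongr
    exact KK_KC_le_BB h hxy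

theorem ratio_bound (hβ : 0 < β) {w₁ w₂ : E → ℝ} {s : ℝ} (hs : ∀ y, |w₁ y - w₂ y| ≤ s) (y : E) :
    gg α β t e₀ e₁ w₁ y ≤ exp (β * s) * gg α β t e₀ e₁ w₂ y := by
  unfold gg
  rw [← exp_add]
  apply exp_le_exp.2
  have h1 := (abs_le.1 (hs y)).2
  have h2 : β * (w₁ y - w₂ y) ≤ β * s := by gcongr
  linarith

theorem exp_sub_one_le (x : ℝ) : exp x - 1 ≤ x * exp x := by
  have h1 := add_one_le_exp (-x)
  have h2 := exp_pos x
  have h3 : exp (-x) * exp x = 1 := by rw [← exp_add]; simp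
  nlinarith

theorem ratio_abs {A B a : ℝ} (hA : 0 < A) (hB : 0 < B) (ha : 1 ≤ a) (u1 : A ≤ a ^ 2 * B)
    (u2 : B ≤ a ^ 2 * A) : |A - B| ≤ (a ^ 2 - 1) * B := by
  have ha0 : 0 < a := by linarith
  have ha2 : 1 ≤ a ^ 2 := one_le_pow₀ ha
  rw [abs_le]
  constructor
  · have h4 : a ^ 2 * (B * (2 - a ^ 2)) ≤ a ^ 2 * A := by
      nlinarith [mul_nonneg hB.le (sq_nonneg (a ^ 2 - 1))]
    have h5 : B * (2 - a ^ 2) ≤ A := le_of_mul_le_mul_left h4 (by positivity)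
    linarith
  · linarith

theorem ratio_abs' {g₁ g₂ Z₁ Z₂ a : ℝ} (hg₁ : 0 < g₁) (hg₂ : 0 < g₂) (hZ₁ : 0 < Z₁)
    (hZ₂ : 0 < Z₂) (ha : 1 ≤ a) (q1 : g₁ ≤ a * g₂) (q2 : g₂ ≤ a * g₁) (hZa : Z₁ ≤ a * Z₂)
    (hZb : Z₂ ≤ a * Z₁) : |g₁ / Z₁ - g₂ / Z₂| ≤ (a ^ 2 - 1) * (g₂ / Z₂) := by
  have ha0 : 0 < a := by linarith
  refine ratio_abs (by positivity) (by positivity) ha ?_ ?_
  · rw [div_le_iff₀ hZ₁]
    have : a ^ 2 * (g₂ / Z₂) * Z₁ = (a * g₂) * (a * Z₁ / Z₂) := by ring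
    rw [this]
    have h3 : 1 ≤ a * Z₁ / Z₂ := by rw [le_div_iff₀ hZ₂]; linarith
    calc g₁ ≤ (a * g₂) * 1 := by linarith
      _ ≤ _ := by gcongr
  · rw [div_le_iff₀ hZ₂]
    have : a ^ 2 * (g₁ / Z₁) * Z₂ = (a * g₁) * (a * Z₂ / Z₁) := by ring
    rw [this]
    have h3 : 1 ≤ a * Z₂ / Z₁ := by rw [le_div_iff₀ hZ₁]; linarith
    calc g₂ ≤ (a * g₁) * 1 := by linarith
      _ ≤ _ := by gcongr

theorem contr_abs {κ g₁ g₂ : E → ℝ} (hg₁ : ∀ y, 0 < g₁ y) (hg₂ : ∀ y, 0 < g₂ y) {Z₁ Z₂ c a : ℝ}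
    (hZ₁ : 0 < Z₁) (hZ₂ : 0 < Z₂) (ha : 1 ≤ a) (q1 : ∀ y, g₁ y ≤ a * g₂ y)
    (q2 : ∀ y, g₂ y ≤ a * g₁ y) (hZa : Z₁ ≤ a * Z₂) (hZb : Z₂ ≤ a * Z₁)
    (hi₁ : Integrable (fun y => κ y * g₁ y)) (hi₂ : Integrable (fun y => κ y * g₂ y))
    (hc : ∫ y, |κ y| * g₂ y ≤ c * Z₂) :
    |(∫ y, κ y * (g₁ y / Z₁)) - ∫ y, κ y * (g₂ y / Z₂)| ≤ (a ^ 2 - 1) * c := by
  have j₁ : Integrable (fun y => κ y * (g₁ y / Z₁)) :=
    (hi₁.div_const Z₁).congr (Eventually.of_forall fun y => by simp only; ring)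
  have j₂ : Integrable (fun y => κ y * (g₂ y / Z₂)) :=
    (hi₂.div_const Z₂).congr (Eventually.of_forall fun y => by simp only; ring)
  have ha2 : 0 ≤ a ^ 2 - 1 := by
    have := one_le_pow₀ (n := 2) ha
    linarith
  rw [← integral_sub j₁ j₂, ← Real.norm_eq_abs]
  calc _ ≤ ∫ y, (a ^ 2 - 1) / Z₂ * (|κ y| * g₂ y) := by
        refine norm_integral_le_of_norm_le ?_ (Eventually.of_forall fun y => ?_)
        · refine Integrable.const_mul ?_ _
          refine hi₂.norm.congr (Eventually.of_forall fun y => ?_)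
          simp only
          rw [norm_mul, Real.norm_eq_abs, Real.norm_of_nonneg (hg₂ y).le]
        · rw [← mul_sub, norm_mul, Real.norm_eq_abs, Real.norm_eq_abs]
          calc |κ y| * |g₁ y / Z₁ - g₂ y / Z₂| ≤ |κ y| * ((a ^ 2 - 1) * (g₂ y / Z₂)) := by
                gcongr
                exact ratio_abs' (hg₁ y) (hg₂ y) hZ₁ hZ₂ ha (q1 y) (q2 y) hZa hZb
            _ = _ := by ring
    _ = (a ^ 2 - 1) / Z₂ * ∫ y, |κ y| * g₂ y := integral_const_mul _ _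
    _ ≤ (a ^ 2 - 1) / Z₂ * (c * Z₂) := by gcongr
    _ = _ := by field_simp

theorem TT_contr (hn : 1 < finrank ℝ E) (h : ON2 e₀ e₁) (hα : 0 < α) (hβ : 0 < β)
    (ht : 0 < t) {w₁ w₂ : E → ℝ} (hwc₁ : Continuous w₁) (hw₁ : ∀ y, |w₁ y| ≤ R)
    (hwc₂ : Continuous w₂) (hw₂ : ∀ y, |w₂ y| ≤ R) {c : ℝ} (hc0 : 0 ≤ c)
    (hc : ∀ x : E, ∫ y, |KK e₀ e₁ x y - KC e₀ e₁ x| * gg α β t e₀ e₁ w₂ y
        ≤ c * ∫ y, gg α β t e₀ e₁ w₂ y) {s : ℝ} (hs0 : 0 ≤ s) (hs2 : s ≤ 2 * R)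
    (hs : ∀ y, |w₁ y - w₂ y| ≤ s) (x : E) :
    |TT α β t e₀ e₁ w₁ x - TT α β t e₀ e₁ w₂ x| ≤ α * (2 * β * exp (4 * β * R)) * c * s := by
  have hZ₁ := gg_int_pos h hα hβ ht hwc₁ hw₁
  have hZ₂ := gg_int_pos h hα hβ ht hwc₂ hw₂
  have hg₁ := gg_integrable h hα hβ ht hwc₁ hw₁
  have hg₂ := gg_integrable h hα hβ ht hwc₂ hw₂
  have hi₁ := int_KK_KC hn h hα hβ ht hwc₁ hw₁ x
  have hi₂ := int_KK_KC hn h hα hβ ht hwc₂ hw₂ x
  have hs' : ∀ y, |w₂ y - w₁ y| ≤ s := fun y => by rw [abs_sub_comm]; exact hs y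
  have hr := ratio_bound (α := α) (t := t) (e₀ := e₀) (e₁ := e₁) hβ hs
  have hr' := ratio_bound (α := α) (t := t) (e₀ := e₀) (e₁ := e₁) hβ hs'
  have ha1 : 1 ≤ exp (β * s) := one_le_exp (by positivity)
  have hZa : ∫ y, gg α β t e₀ e₁ w₁ y ≤ exp (β * s) * ∫ y, gg α β t e₀ e₁ w₂ y := by
    rw [← integral_const_mul]
    exact integral_mono hg₁ (hg₂.const_mul _) hr
  have hZb : ∫ y, gg α β t e₀ e₁ w₂ y ≤ exp (β * s) * ∫ y, gg α β t e₀ e₁ w₁ y := by
    rw [← integral_const_mul]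
    exact integral_mono hg₂ (hg₁.const_mul _) hr'
  have hb := contr_abs (κ := fun y => KK e₀ e₁ x y - KC e₀ e₁ x)
    (fun y => gg_pos (e₀ := e₀) (e₁ := e₁) α β t w₁ y)
    (fun y => gg_pos (e₀ := e₀) (e₁ := e₁) α β t w₂ y) hZ₁ hZ₂ ha1 hr hr' hZa hZb hi₁ hi₂ (hc x)
  rw [TT_eq hn h hα hβ ht hwc₁ hw₁ x, TT_eq hn h hα hβ ht hwc₂ hw₂ x]
  rw [← mul_sub, add_sub_add_left_eq_sub, abs_mul, abs_of_pos hα]
  have ha3 : exp (β * s) ^ 2 - 1 ≤ 2 * β * exp (4 * β * R) * s := by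
    have e2 : exp (β * s) ^ 2 = exp (2 * β * s) := by rw [← exp_nat_mul]; congr 1; push_cast; ring
    rw [e2]
    refine (exp_sub_one_le _).trans ?_
    have e3 : exp (2 * β * s) ≤ exp (4 * β * R) := by
      apply exp_le_exp.2
      have : 2 * β * s ≤ 2 * β * (2 * R) := by gcongr
      linarith
    calc 2 * β * s * exp (2 * β * s) ≤ 2 * β * s * exp (4 * β * R) := by gcongr
      _ = _ := by ring
  calc _ ≤ α * ((exp (β * s) ^ 2 - 1) * c) := mul_le_mul_of_nonneg_left hb hα.le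
    _ ≤ α * ((2 * β * exp (4 * β * R) * s) * c) := by gcongr
    _ = _ := by ring

theorem KK_inv {x x' : E} (h1 : rr e₀ e₁ x = rr e₀ e₁ x') (h2 : qc e₀ e₁ x = qc e₀ e₁ x')
    (y : E) : KK e₀ e₁ x y = KK e₀ e₁ x' y := by
  unfold KK aa bb
  rw [h1, h2]

theorem norm_sq_inv (h : ON2 e₀ e₁) {x x' : E} (h1 : rr e₀ e₁ x = rr e₀ e₁ x')
    (h2 : qc e₀ e₁ x = qc e₀ e₁ x') : ‖x‖ ^ 2 = ‖x'‖ ^ 2 := by
  rw [norm_sq_split h x, norm_sq_split h x', h1, h2]

theorem pp_inv {x x' : E} (h1 : rr e₀ e₁ x = rr e₀ e₁ x')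
    (h2 : qc e₀ e₁ x = qc e₀ e₁ x') : pp e₀ e₁ x = pp e₀ e₁ x' := by
  unfold pp
  rw [h1, h2]

theorem TT_inv (h : ON2 e₀ e₁) (w : E → ℝ) {x x' : E} (h1 : rr e₀ e₁ x = rr e₀ e₁ x')
    (h2 : qc e₀ e₁ x = qc e₀ e₁ x') : TT α β t e₀ e₁ w x = TT α β t e₀ e₁ w x' := by
  unfold TT
  rw [norm_sq_inv h h1 h2]
  simp only [KK_inv h1 h2]

/-- **Existence of a fixed point.** -/
theorem exists_fixed (hn : 1 < finrank ℝ E) (h : ON2 e₀ e₁) (hα : 0 < α) (hβ : 0 < β) :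
    ∃ t > 0, ∃ w : E → ℝ, Continuous w ∧ (∀ x, |w x| ≤ 2 * α) ∧
      ∀ x, w x = TT α β t e₀ e₁ w x := by
  obtain ⟨c, hc0, hc1, hc2⟩ : ∃ c : ℝ, 0 < c ∧ c ≤ 1 ∧
      α * (2 * β * exp (4 * β * (2 * α))) * c ≤ 1 / 2 := by
    have hA : 0 < α * (2 * β * exp (4 * β * (2 * α))) := by positivity
    set A := α * (2 * β * exp (4 * β * (2 * α)))
    refine ⟨min 1 (1 / (2 * A)), by positivity, min_le_left _ _, ?_⟩
    calc A * min 1 (1 / (2 * A)) ≤ A * (1 / (2 * A)) := by gcongr; exact min_le_right _ _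
      _ = _ := by field_simp
  obtain ⟨t, ht, hconc⟩ := conc hn h hα hβ (2 * α) hc0
  refine ⟨t, ht, ?_⟩
  have hex : ∀ w : E →ᵇ ℝ, ∃ v : E →ᵇ ℝ, ∀ x, v x = TT α β t e₀ e₁ w x := by
    intro w
    have hw : ∀ y, |w y| ≤ ‖w‖ := fun y => w.norm_coe_le_norm y
    obtain ⟨C, hC⟩ := TT_bound' hn h hα hβ ht w.continuous hw
    exact ⟨BoundedContinuousFunction.ofNormedAddCommGroup (TT α β t e₀ e₁ w)
      (TT_continuous hn h hα hβ ht w.continuous hw) C hC, fun x => rfl⟩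
  choose F hF using hex
  set s : Set (E →ᵇ ℝ) := Metric.closedBall 0 (2 * α) with hsdef
  have hmem : ∀ w ∈ s, ∀ y, |w y| ≤ 2 * α := by
    intro w hw y
    rw [hsdef, mem_closedBall_zero_iff] at hw
    exact (w.norm_coe_le_norm y).trans hw
  have hsf : MapsTo F s s := by
    intro w hw
    rw [hsdef, mem_closedBall_zero_iff]
    rw [BoundedContinuousFunction.norm_le (by positivity)]
    intro x
    rw [hF, Real.norm_eq_abs]
    refine (TT_bound hn h hα hβ ht w.continuous (hmem w hw)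
      (hconc w w.continuous (hmem w hw)) x).trans ?_
    nlinarith
  have hcontr : ContractingWith (1 / 2) (hsf.restrict F s s) := by
    refine ⟨by
      rw [← NNReal.coe_lt_coe]; norm_num, LipschitzWith.of_dist_le_mul fun w₁ w₂ => ?_⟩
    have h1 : dist (hsf.restrict F s s w₁) (hsf.restrict F s s w₂) = dist (F w₁) (F w₂) := rfl
    have h2 : dist w₁ w₂ = dist (w₁ : E →ᵇ ℝ) (w₂ : E →ᵇ ℝ) := rfl
    rw [h1, h2]
    set d := dist (w₁ : E →ᵇ ℝ) (w₂ : E →ᵇ ℝ) with hd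
    have hd0 : 0 ≤ d := dist_nonneg
    push_cast
    rw [BoundedContinuousFunction.dist_le (by positivity)]
    intro x
    rw [hF, hF, Real.dist_eq]
    have hd2 : d ≤ 2 * (2 * α) := by
      have a1 := mem_closedBall_zero_iff.1 w₁.2
      have a2 := mem_closedBall_zero_iff.1 w₂.2
      calc d ≤ ‖(w₁ : E →ᵇ ℝ)‖ + ‖(w₂ : E →ᵇ ℝ)‖ := by
            rw [hd, dist_eq_norm]; exact norm_sub_le _ _
        _ ≤ _ := by linarith
    have hdd : ∀ y, |(w₁ : E →ᵇ ℝ) y - (w₂ : E →ᵇ ℝ) y| ≤ d := by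
      intro y
      rw [← Real.dist_eq]
      exact BoundedContinuousFunction.dist_coe_le_dist y
    refine (TT_contr hn h hα hβ ht (w₁ : E →ᵇ ℝ).continuous (hmem _ w₁.2)
      (w₂ : E →ᵇ ℝ).continuous (hmem _ w₂.2) hc0.le
      (hconc _ (w₂ : E →ᵇ ℝ).continuous (hmem _ w₂.2)) hd0 hd2 hdd x).trans ?_
    refine mul_le_mul_of_nonneg_right ?_ hd0
    simpa using hc2
  have hcomp : IsComplete s := Metric.isClosed_closedBall.isComplete
  obtain ⟨w, hws, hwf, -⟩ := hcontr.exists_fixedPoint' hcomp hsf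
    (x := 0) (Metric.mem_closedBall_self (by positivity)) (edist_ne_top _ _)
  refine ⟨w, w.continuous, hmem w hws, fun x => ?_⟩
  conv_lhs => rw [← hwf]
  exact hF w x

end Pool.Agent.Lib.MP_d898c1_an
end

section

/-!
Averaging the logarithmic kernel over rotations of a plane.
-/

set_option autoImplicit false
set_option linter.unusedSectionVars false

open MeasureTheory Set Filter Topology Real Module
open scoped InnerProductSpace ComplexConjugate

namespace Pool.Agent.Lib.MP_d898c1_an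

variable {E : Type} [NormedAddCommGroup E] [InnerProductSpace ℝ E] [FiniteDimensional ℝ E]
  [MeasurableSpace E] [BorelSpace E] {e₀ e₁ : E}

/-- The rotation, as a linear map. -/
noncomputable def rotL (e₀ e₁ : E) (θ : ℝ) : E →ₗ[ℝ] E where
  toFun y := y + ((cos θ - 1) * inner ℝ e₀ y + sin θ * inner ℝ e₁ y) • e₀
    + ((cos θ - 1) * inner ℝ e₁ y - sin θ * inner ℝ e₀ y) • e₁
  map_add' x y := by
    simp only [inner_add_right]
    module
  map_smul' c y := by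
    simp only [inner_smul_right, RingHom.id_apply]
    module

theorem rotL_apply (θ : ℝ) (y : E) : rotL e₀ e₁ θ y =
    y + ((cos θ - 1) * inner ℝ e₀ y + sin θ * inner ℝ e₁ y) • e₀
    + ((cos θ - 1) * inner ℝ e₁ y - sin θ * inner ℝ e₀ y) • e₁ := rfl

theorem inner0_rotL (h : ON2 e₀ e₁) (θ : ℝ) (y : E) :
    inner ℝ e₀ (rotL e₀ e₁ θ y) = cos θ * inner ℝ e₀ y + sin θ * inner ℝ e₁ y := by
  have i00 : inner ℝ e₀ e₀ = (1 : ℝ) := by rw [real_inner_self_eq_norm_sq, h.n0]; norm_num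
  rw [rotL_apply, inner_add_right, inner_add_right, inner_smul_right, inner_smul_right, i00,
    h.orth]
  ring

theorem inner1_rotL (h : ON2 e₀ e₁) (θ : ℝ) (y : E) :
    inner ℝ e₁ (rotL e₀ e₁ θ y) = cos θ * inner ℝ e₁ y - sin θ * inner ℝ e₀ y := by
  have i11 : inner ℝ e₁ e₁ = (1 : ℝ) := by rw [real_inner_self_eq_norm_sq, h.n1]; norm_num
  have i10 : inner ℝ e₁ e₀ = (0 : ℝ) := by rw [real_inner_comm]; exact h.orth
  rw [rotL_apply, inner_add_right, inner_add_right, inner_smul_right, inner_smul_right, i11, i10]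
  ring

theorem qc_rotL (h : ON2 e₀ e₁) (θ : ℝ) (y : E) :
    qc e₀ e₁ (rotL e₀ e₁ θ y) = qc e₀ e₁ y := by
  unfold qc
  rw [inner0_rotL h, inner1_rotL h, rotL_apply]
  module

theorem zc_rotL (h : ON2 e₀ e₁) (θ : ℝ) (y : E) :
    zc e₀ e₁ (rotL e₀ e₁ θ y) = Complex.exp (-(θ * Complex.I)) * zc e₀ e₁ y := by
  unfold zc
  rw [inner0_rotL h, inner1_rotL h]
  have e : Complex.exp (-(θ * Complex.I)) = (⟨cos θ, -sin θ⟩ : ℂ) := by
    rw [show -((θ : ℂ) * Complex.I) = ((-θ : ℝ) : ℂ) * Complex.I by push_cast; ring]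
    apply Complex.ext
    · rw [Complex.exp_ofReal_mul_I_re, cos_neg]
    · rw [Complex.exp_ofReal_mul_I_im, sin_neg]
  rw [e]
  apply Complex.ext <;> simp <;> ring

theorem rr_rotL (h : ON2 e₀ e₁) (θ : ℝ) (y : E) :
    rr e₀ e₁ (rotL e₀ e₁ θ y) = rr e₀ e₁ y := by
  unfold rr
  rw [zc_rotL h, norm_mul]
  have : ‖Complex.exp (-(θ * Complex.I))‖ = 1 := by
    rw [show -((θ : ℂ) * Complex.I) = ((-θ : ℝ) : ℂ) * Complex.I by push_cast; ring,
      Complex.norm_exp_ofReal_mul_I]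
  rw [this, one_mul]

theorem norm_rotL (h : ON2 e₀ e₁) (θ : ℝ) (y : E) : ‖rotL e₀ e₁ θ y‖ = ‖y‖ := by
  have := norm_sq_inv h (rr_rotL h θ y) (qc_rotL h θ y)
  exact (pow_left_inj₀ (norm_nonneg _) (norm_nonneg _) two_ne_zero).1 this

/-- The rotation as a linear isometry equivalence. -/
noncomputable def rot (h : ON2 e₀ e₁) (θ : ℝ) : E ≃ₗᵢ[ℝ] E :=
  LinearIsometry.toLinearIsometryEquiv ⟨rotL e₀ e₁ θ, norm_rotL h θ⟩ rfl

theorem rot_apply (h : ON2 e₀ e₁) (θ : ℝ) (y : E) : rot h θ y = rotL e₀ e₁ θ y := rfl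

/-- The distance to the rotated point is the distance to a point on a circle in the plane. -/
theorem norm_sub_rot (h : ON2 e₀ e₁) (x y : E) :
    ∃ a : ℂ, ‖a‖ ≤ (aa e₀ e₁ x y + bb e₀ e₁ x y) / 2 ∧ ∀ θ : ℝ, ‖x - rotL e₀ e₁ θ y‖ =
      ‖circleMap 0 ((aa e₀ e₁ x y + bb e₀ e₁ x y) / 2) θ - a‖ := by
  set P : ℂ := zc e₀ e₁ x * conj (zc e₀ e₁ y) with hP
  obtain ⟨u, hu, hPu⟩ : ∃ u : ℂ, ‖u‖ = 1 ∧ P = ‖P‖ * u := by
    by_cases h0 : P = 0
    · exact ⟨1, by simp, by simp [h0]⟩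
    · have hn : (‖P‖ : ℂ) ≠ 0 := by
        simpa using h0
      refine ⟨P / ‖P‖, ?_, ?_⟩
      · rw [norm_div, Complex.norm_real, norm_norm]
        exact div_self (by simpa using h0)
      · field_simp
  set c := (aa e₀ e₁ x y + bb e₀ e₁ x y) / 2 with hc
  set d := (bb e₀ e₁ x y - aa e₀ e₁ x y) / 2 with hd
  have ha := aa_nonneg (e₀ := e₀) (e₁ := e₁) x y
  have hb := bb_nonneg (e₀ := e₀) (e₁ := e₁) x y
  have hab := aa_le_bb (e₀ := e₀) (e₁ := e₁) x y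
  have hPn : ‖P‖ = rr e₀ e₁ x * rr e₀ e₁ y := by
    rw [hP, norm_mul, RCLike.norm_conj]; rfl
  have ha2 : aa e₀ e₁ x y ^ 2 = (rr e₀ e₁ x - rr e₀ e₁ y) ^ 2 + ‖qc e₀ e₁ x - qc e₀ e₁ y‖ ^ 2 :=
    N2_sq _ _
  have hb2 : bb e₀ e₁ x y ^ 2 = (rr e₀ e₁ x + rr e₀ e₁ y) ^ 2 + ‖qc e₀ e₁ x - qc e₀ e₁ y‖ ^ 2 :=
    N2_sq _ _
  have e1 : c ^ 2 + d ^ 2 = rr e₀ e₁ x ^ 2 + rr e₀ e₁ y ^ 2 + ‖qc e₀ e₁ x - qc e₀ e₁ y‖ ^ 2 := by
    have : c ^ 2 + d ^ 2 = (aa e₀ e₁ x y ^ 2 + bb e₀ e₁ x y ^ 2) / 2 := by rw [hc, hd]; ring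
    rw [this, ha2, hb2]; ring
  have e2 : c * d = rr e₀ e₁ x * rr e₀ e₁ y := by
    have : c * d = (bb e₀ e₁ x y ^ 2 - aa e₀ e₁ x y ^ 2) / 4 := by rw [hc, hd]; ring
    rw [this, ha2, hb2]; ring
  refine ⟨d * conj u, ?_, fun θ => ?_⟩
  · rw [norm_mul, Complex.norm_real, RCLike.norm_conj, hu, mul_one, Real.norm_eq_abs,
      abs_of_nonneg (by rw [hd]; linarith)]
    rw [hc, hd]; linarith
  · apply (pow_left_inj₀ (norm_nonneg _) (norm_nonneg _) two_ne_zero).1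
    rw [norm_sub_sq_split h, qc_rotL h, zc_rotL h]
    rw [Complex.sq_norm (zc e₀ e₁ x - _), Complex.normSq_sub, Complex.sq_norm (circleMap 0 c θ - _),
      Complex.normSq_sub]
    have n1 : Complex.normSq (zc e₀ e₁ x) = rr e₀ e₁ x ^ 2 := by rw [rr, Complex.sq_norm]
    have n2 : Complex.normSq (Complex.exp (-(θ * Complex.I)) * zc e₀ e₁ y) = rr e₀ e₁ y ^ 2 := by
      rw [← zc_rotL h, ← Complex.sq_norm]
      have := rr_rotL h θ y
      unfold rr at this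
      rw [this]; rfl
    have n3 : Complex.normSq (circleMap 0 c θ) = c ^ 2 := by
      rw [← Complex.sq_norm, norm_circleMap_zero, sq_abs]
    have n4 : Complex.normSq (d * conj u) = d ^ 2 := by
      rw [← Complex.sq_norm, norm_mul, Complex.norm_real, RCLike.norm_conj, hu, mul_one,
        Real.norm_eq_abs, sq_abs]
    have cj : conj (Complex.exp (-(θ * Complex.I))) = Complex.exp (θ * Complex.I) := by
      rw [← Complex.exp_conj]
      congr 1
      simp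
    have r1 : (zc e₀ e₁ x * conj (Complex.exp (-(θ * Complex.I)) * zc e₀ e₁ y)).re
        = rr e₀ e₁ x * rr e₀ e₁ y * (Complex.exp (θ * Complex.I) * u).re := by
      have : zc e₀ e₁ x * conj (Complex.exp (-(θ * Complex.I)) * zc e₀ e₁ y)
          = ((rr e₀ e₁ x * rr e₀ e₁ y : ℝ) : ℂ) * (Complex.exp (θ * Complex.I) * u) := by
        rw [map_mul, cj, ← hPn]
        calc _ = Complex.exp (θ * Complex.I) * P := by rw [hP]; ring
          _ = _ := by
            conv_lhs => rw [hPu]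
            ring
      rw [this, Complex.re_ofReal_mul]
    have r2 : (circleMap 0 c θ * conj (d * conj u)).re
        = c * d * (Complex.exp (θ * Complex.I) * u).re := by
      have : circleMap 0 c θ * conj (d * conj u) = ((c * d : ℝ) : ℂ) *
          (Complex.exp (θ * Complex.I) * u) := by
        rw [circleMap_zero, map_mul, Complex.conj_conj, Complex.conj_ofReal]
        push_cast; ring
      rw [this, Complex.re_ofReal_mul]
    rw [n1, n2, n3, n4, r1, r2, e2]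
    linarith

theorem average_Lk (h : ON2 e₀ e₁) (x y : E) :
    (2 * π)⁻¹ * ∫ θ in (0 : ℝ)..2 * π, Lk (x - rotL e₀ e₁ θ y) = KK e₀ e₁ x y := by
  obtain ⟨a, ha, hθ⟩ := norm_sub_rot h x y
  have hc : 0 ≤ (aa e₀ e₁ x y + bb e₀ e₁ x y) / 2 := (norm_nonneg a).trans ha
  have h1 := circleAverage_log_norm_sub_const_of_mem_closedBall (a := a) (c := 0)
    (R := (aa e₀ e₁ x y + bb e₀ e₁ x y) / 2) (by
      rw [mem_closedBall_zero_iff, abs_of_nonneg hc]; exact ha)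
  rw [Real.circleAverage, smul_eq_mul] at h1
  unfold Lk KK
  rw [← h1]
  simp only [hθ]
  rw [intervalIntegral.integral_neg]
  ring

/-- **Averaging.** -/
theorem conv_Lk_avg (h : ON2 e₀ e₁) (hn : 1 < finrank ℝ E) {ρ : E → ℝ} (hρ : Rapid ρ)
    (hρc : Continuous ρ) (hinv : ∀ x x', rr e₀ e₁ x = rr e₀ e₁ x' → qc e₀ e₁ x = qc e₀ e₁ x' →
      ρ x = ρ x') (x : E) : conv Lk ρ x = ∫ y, KK e₀ e₁ x y * ρ y := by
  have i0 : Integrable (fun y => Lk y • ρ (x - y)) :=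
    conv_integrable (tame_Lk hn) hρ hρc.aestronglyMeasurable x
  have i1 : Integrable (fun y => Lk (x - y) * ρ y) := by
    have := i0.comp_sub_left x
    simpa using this
  have c1 : conv Lk ρ x = ∫ y, Lk (x - y) * ρ y := by
    have := integral_sub_left_eq_self (fun y => Lk y * ρ (x - y)) volume x
    simp only [sub_sub_cancel] at this
    rw [this]; rfl
  have hrot : ∀ θ y, ρ (rot h θ y) = ρ y := fun θ y =>
    hinv _ _ (rr_rotL h θ y) (qc_rotL h θ y)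
  have mp : ∀ θ, MeasurePreserving (rot h θ) (volume : Measure E) volume :=
    fun θ => (rot h θ).measurePreserving
  have me : ∀ θ, MeasurableEmbedding (rot h θ) := fun θ =>
    (rot h θ).toHomeomorph.measurableEmbedding
  have iθ : ∀ θ, Integrable (fun y => Lk (x - rotL e₀ e₁ θ y) * ρ y) := by
    intro θ
    have := ((mp θ).integrable_comp_emb (me θ)).2 i1
    refine this.congr (Eventually.of_forall fun y => ?_)
    simp only [Function.comp]
    rw [hrot]; rfl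
  have cθ : ∀ θ, ∫ y, Lk (x - rotL e₀ e₁ θ y) * ρ y = ∫ y, Lk (x - y) * ρ y := by
    intro θ
    rw [← (mp θ).integral_comp (me θ) (fun y => Lk (x - y) * ρ y)]
    congr 1; ext y
    rw [hrot]; rfl
  have cθ' : ∀ θ, ∫ y, ‖Lk (x - rotL e₀ e₁ θ y) * ρ y‖ = ∫ y, ‖Lk (x - y) * ρ y‖ := by
    intro θ
    rw [← (mp θ).integral_comp (me θ) (fun y => ‖Lk (x - y) * ρ y‖)]
    congr 1; ext y
    rw [hrot]; rfl
  set μ : Measure ℝ := volume.restrict (Ioc 0 (2 * π)) with hμ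
  have hμf : IsFiniteMeasure μ := by rw [hμ]; infer_instance
  have hcont : Continuous (fun p : ℝ × E => x - rotL e₀ e₁ p.1 p.2) := by
    simp only [rotL_apply]
    fun_prop
  have hmeas : AEStronglyMeasurable (fun p : ℝ × E => Lk (x - rotL e₀ e₁ p.1 p.2) * ρ p.2)
      (μ.prod volume) := by
    apply AEStronglyMeasurable.mul
    · exact (Lk_measurable.comp hcont.measurable).aestronglyMeasurable
    · exact (hρc.comp continuous_snd).aestronglyMeasurable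
  have hI : Integrable (fun p : ℝ × E => Lk (x - rotL e₀ e₁ p.1 p.2) * ρ p.2)
      (μ.prod volume) := by
    rw [integrable_prod_iff hmeas]
    refine ⟨Eventually.of_forall fun θ => iθ θ, ?_⟩
    simp only [cθ']
    exact integrable_const _
  have hsw := integral_integral_swap (μ := μ) (ν := (volume : Measure E))
    (f := fun θ y => Lk (x - rotL e₀ e₁ θ y) * ρ y) hI
  simp only [cθ] at hsw
  have hpi : (0 : ℝ) < 2 * π := by positivity
  have l1 : ∫ _θ : ℝ, (∫ y, Lk (x - y) * ρ y) ∂μ = (2 * π) * ∫ y, Lk (x - y) * ρ y := by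
    rw [integral_const, smul_eq_mul]
    congr 1
    rw [hμ]
    simp [Measure.real, Real.pi_pos.le]
  rw [l1] at hsw
  have r1 : ∀ y, ∫ θ, Lk (x - rotL e₀ e₁ θ y) * ρ y ∂μ = (2 * π) * (KK e₀ e₁ x y * ρ y) := by
    intro y
    rw [integral_mul_const, ← average_Lk h x y, intervalIntegral.integral_of_le hpi.le, ← hμ]
    field_simp
  simp only [r1] at hsw
  rw [integral_const_mul] at hsw
  rw [c1]
  exact mul_left_cancel₀ hpi.ne' hsw

end Pool.Agent.Lib.MP_d898c1_an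
end

section

/-!
Regularity of the fixed point, the polynomial `pp`, and assembly.
-/

set_option autoImplicit false
set_option linter.unusedSectionVars false

open MeasureTheory Set Filter Topology Real Module
open scoped InnerProductSpace Laplacian ContDiff

namespace Pool.Agent.Lib.MP_d898c1_an

variable {E : Type} [NormedAddCommGroup E] [InnerProductSpace ℝ E] [FiniteDimensional ℝ E]
  [MeasurableSpace E] [BorelSpace E] {e₀ e₁ : E}

theorem SC.norm_sq (k : ℕ) : SC k (fun x : E => ‖x‖ ^ 2) := by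
  have hs : Slow (fun x : E => ‖x‖ ^ 2) := ⟨2, 1, fun x => by
    rw [Real.norm_of_nonneg (by positivity)]
    nlinarith [norm_nonneg x]⟩
  cases k with
  | zero => exact ⟨by fun_prop, hs⟩
  | succ k =>
    refine ⟨fun x => (hasStrictFDerivAt_norm_sq x).hasFDerivAt.differentiableAt, hs, fun v => ?_⟩
    have : (fun x : E => fderiv ℝ (fun x : E => ‖x‖ ^ 2) x v)
        = fun x => 2 * (innerSL ℝ v) x := by
      ext x
      rw [(hasStrictFDerivAt_norm_sq x).hasFDerivAt.fderiv]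
      simp [real_inner_comm]
    rw [this]
    exact (SC.clm k (innerSL ℝ v)).const_mul 2

/-- `pp` as a polynomial. -/
theorem pp_eq (h : ON2 e₀ e₁) (x : E) : pp e₀ e₁ x =
    (inner ℝ e₀ x * inner ℝ e₀ x + inner ℝ e₁ x * inner ℝ e₁ x + (-1)) *
      (inner ℝ e₀ x * inner ℝ e₀ x + inner ℝ e₁ x * inner ℝ e₁ x + (-1))
      + (‖x‖ ^ 2 + (-1) * (inner ℝ e₀ x * inner ℝ e₀ x + inner ℝ e₁ x * inner ℝ e₁ x)) := by
  have h1 := norm_sq_split h x
  have h2 := rr_sq (e₀ := e₀) (e₁ := e₁) x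
  unfold pp
  have h3 : ‖qc e₀ e₁ x‖ ^ 2 = ‖x‖ ^ 2 - rr e₀ e₁ x ^ 2 := by linarith
  rw [h3, h2]
  ring

theorem SC_sq_sum (k : ℕ) : SC k (fun x : E => inner ℝ e₀ x * inner ℝ e₀ x
    + inner ℝ e₁ x * inner ℝ e₁ x) := by
  have l0 : SC k (fun x : E => inner ℝ e₀ x) := SC.clm k (innerSL ℝ e₀)
  have l1 : SC k (fun x : E => inner ℝ e₁ x) := SC.clm k (innerSL ℝ e₁)
  exact (l0.mul l0).add (l1.mul l1)

theorem SC_pp (h : ON2 e₀ e₁) (k : ℕ) : SC k (pp e₀ e₁ : E → ℝ) := by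
  have e : (pp e₀ e₁ : E → ℝ) = fun x => _ := funext fun x => pp_eq h x
  rw [e]
  have s := SC_sq_sum (e₀ := e₀) (e₁ := e₁) k
  have s1 := s.add (SC.const k (-1))
  exact (s1.mul s1).add ((SC.norm_sq k).add (s.const_mul (-1)))

/-! ### Smoothness and linearity of `nl` -/

theorem two_le_infty : (2 : WithTop ℕ∞) ≤ ∞ := WithTop.coe_le_coe.2 le_top

theorem contDiff_dir {f : E → ℝ} (hf : ContDiff ℝ ∞ f) (v : E) :
    ContDiff ℝ ∞ (fun x => fderiv ℝ f x v) :=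
  (hf.fderiv_right (m := ∞) (by simp)).clm_apply contDiff_const

theorem contDiff_nl {f : E → ℝ} (hf : ContDiff ℝ ∞ f) : ContDiff ℝ ∞ (nl f) := by
  have e : nl f = fun x => -∑ i, fderiv ℝ (fun y => fderiv ℝ f y (stdOrthonormalBasis ℝ E i)) x
      (stdOrthonormalBasis ℝ E i) := by
    ext x; exact nl_apply _ (hf.of_le two_le_infty) x
  rw [e]
  refine ContDiff.neg (ContDiff.sum fun i _ => ?_)
  exact contDiff_dir (contDiff_dir hf _) _

theorem nl_add {f g : E → ℝ} (hf : ContDiff ℝ ∞ f) (hg : ContDiff ℝ ∞ g) :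
    nl (fun x => f x + g x) = fun x => nl f x + nl g x := by
  have h2 := two_le_infty
  ext x
  set b := stdOrthonormalBasis ℝ E
  rw [nl_apply b ((hf.add hg).of_le h2), nl_apply b (hf.of_le h2), nl_apply b (hg.of_le h2),
    ← neg_add, ← Finset.sum_add_distrib]
  congr 1
  refine Finset.sum_congr rfl fun i _ => ?_
  have hfd : Differentiable ℝ f := hf.differentiable (by simp)
  have hgd : Differentiable ℝ g := hg.differentiable (by simp)
  have e1 : (fun y => fderiv ℝ (fun x => f x + g x) y (b i))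
      = fun y => fderiv ℝ f y (b i) + fderiv ℝ g y (b i) := by
    ext y
    rw [fderiv_fun_add (hfd y) (hgd y)]; rfl
  rw [e1, fderiv_fun_add ((contDiff_dir hf _).differentiable (by simp) x)
    ((contDiff_dir hg _).differentiable (by simp) x)]
  rfl

theorem nl_const_mul {f : E → ℝ} (c : ℝ) (hf : ContDiff ℝ ∞ f) :
    nl (fun x => c * f x) = fun x => c * nl f x := by
  have h2 := two_le_infty
  ext x
  set b := stdOrthonormalBasis ℝ E
  rw [nl_apply b ((contDiff_const.mul hf).of_le h2), nl_apply b (hf.of_le h2), mul_neg,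
    Finset.mul_sum]
  congr 1
  refine Finset.sum_congr rfl fun i _ => ?_
  have hfd : Differentiable ℝ f := hf.differentiable (by simp)
  have e1 : (fun y => fderiv ℝ (fun x => c * f x) y (b i))
      = fun y => c * fderiv ℝ f y (b i) := by
    ext y
    rw [fderiv_const_mul (hfd y)]; rfl
  rw [e1, fderiv_const_mul ((contDiff_dir hf _).differentiable (by simp) x)]
  rfl

theorem nl_const (c : ℝ) : nl (fun _ : E => c) = fun _ => 0 := by
  ext x
  rw [nl_apply (stdOrthonormalBasis ℝ E) contDiff_const]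
  simp

theorem nl_iter_add (m : ℕ) {f g : E → ℝ} (hf : ContDiff ℝ ∞ f) (hg : ContDiff ℝ ∞ g) :
    nl^[m] (fun x => f x + g x) = fun x => nl^[m] f x + nl^[m] g x := by
  induction m generalizing f g with
  | zero => rfl
  | succ m ih =>
    rw [Function.iterate_succ_apply, nl_add hf hg, ih (contDiff_nl hf) (contDiff_nl hg)]
    rfl

theorem nl_iter_const_mul (m : ℕ) {f : E → ℝ} (c : ℝ) (hf : ContDiff ℝ ∞ f) :
    nl^[m] (fun x => c * f x) = fun x => c * nl^[m] f x := by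
  induction m generalizing f with
  | zero => rfl
  | succ m ih =>
    rw [Function.iterate_succ_apply, nl_const_mul c hf, ih (contDiff_nl hf)]
    rfl

theorem nl_iter_zero (m : ℕ) : nl^[m] (fun _ : E => (0 : ℝ)) = fun _ => 0 := by
  induction m with
  | zero => rfl
  | succ m ih => rw [Function.iterate_succ_apply, nl_const, ih]

theorem nl_iter_const (m : ℕ) (hm : 1 ≤ m) (c : ℝ) : nl^[m] (fun _ : E => c) = fun _ => 0 := by
  obtain ⟨k, rfl⟩ : ∃ k, m = k + 1 := ⟨m - 1, by omega⟩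
  rw [Function.iterate_succ_apply, nl_const, nl_iter_zero]

/-! ### The Laplacians of `pp` -/

/-- The square of the distance to the axis. -/
noncomputable def ss (e₀ e₁ x : E) : ℝ := inner ℝ e₀ x ^ 2 + inner ℝ e₁ x ^ 2

theorem hasFDerivAt_inner (e x : E) : HasFDerivAt (fun y : E => inner ℝ e y) (innerSL ℝ e) x :=
  (innerSL ℝ e).hasFDerivAt

theorem hasFDerivAt_ss (x : E) : HasFDerivAt (ss e₀ e₁)
    ((2 * inner ℝ e₀ x) • innerSL ℝ e₀ + (2 * inner ℝ e₁ x) • innerSL ℝ e₁) x := by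
  have h0 := (hasFDerivAt_inner e₀ x).pow 2
  have h1 := (hasFDerivAt_inner e₁ x).pow 2
  refine (h0.add h1).congr_fderiv ?_
  ext v
  simp

theorem sum_inner_sq {ι : Type*} [Fintype ι] (b : OrthonormalBasis ι ℝ E) (v : E) :
    ∑ i, inner ℝ v (b i) ^ 2 = ‖v‖ ^ 2 := by
  rw [← real_inner_self_eq_norm_sq, ← b.sum_inner_mul_inner v v]
  refine Finset.sum_congr rfl fun i _ => ?_
  rw [real_inner_comm v (b i)]; ring

theorem contDiff_ss : ContDiff ℝ ∞ (ss e₀ e₁ : E → ℝ) :=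
  ((innerSL ℝ e₀).contDiff.pow 2).add ((innerSL ℝ e₁).contDiff.pow 2)

theorem nl_ss (h : ON2 e₀ e₁) : nl (ss e₀ e₁ : E → ℝ) = fun _ => -4 := by
  have h2 := two_le_infty
  ext x
  set b := stdOrthonormalBasis ℝ E
  rw [nl_apply b (contDiff_ss.of_le h2)]
  have e1 : ∀ i, fderiv ℝ (fun y => fderiv ℝ (ss e₀ e₁) y (b i)) x (b i)
      = 2 * inner ℝ e₀ (b i) ^ 2 + 2 * inner ℝ e₁ (b i) ^ 2 := by
    intro i
    have : (fun y => fderiv ℝ (ss e₀ e₁) y (b i)) = fun y => (2 * inner ℝ e₀ (b i)) *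
        inner ℝ e₀ y + (2 * inner ℝ e₁ (b i)) * inner ℝ e₁ y := by
      ext y
      rw [(hasFDerivAt_ss y).fderiv]
      simp; ring
    rw [this]
    have hd := ((hasFDerivAt_inner e₀ x).const_mul (2 * inner ℝ e₀ (b i))).add
      ((hasFDerivAt_inner e₁ x).const_mul (2 * inner ℝ e₁ (b i)))
    refine (congrArg (fun l => l (b i)) hd.fderiv).trans ?_
    simp; ring
  simp only [e1]
  rw [Finset.sum_add_distrib, ← Finset.mul_sum, ← Finset.mul_sum, sum_inner_sq, sum_inner_sq,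
    h.n0, h.n1]
  norm_num

theorem pp_ss (h : ON2 e₀ e₁) (x : E) : pp e₀ e₁ x = (ss e₀ e₁ x - 1) ^ 2 + (‖x‖ ^ 2
    - ss e₀ e₁ x) := by
  rw [pp_eq h]; unfold ss; ring

theorem hasFDerivAt_pp (h : ON2 e₀ e₁) (x : E) : HasFDerivAt (pp e₀ e₁)
    ((2 * (ss e₀ e₁ x - 1) - 1) • ((2 * inner ℝ e₀ x) • innerSL ℝ e₀
      + (2 * inner ℝ e₁ x) • innerSL ℝ e₁) + 2 • innerSL ℝ x) x := by
  have hs := hasFDerivAt_ss (e₀ := e₀) (e₁ := e₁) x
  have h1 := ((hs.sub_const 1).pow 2).add ((hasStrictFDerivAt_norm_sq x).hasFDerivAt.sub hs)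
  have e : (pp e₀ e₁ : E → ℝ) = fun x => (ss e₀ e₁ x - 1) ^ 2 + (‖x‖ ^ 2 - ss e₀ e₁ x) :=
    funext fun x => pp_ss h x
  rw [e]
  refine h1.congr_fderiv ?_
  ext v
  simp
  ring

theorem contDiff_pp (h : ON2 e₀ e₁) : ContDiff ℝ ∞ (pp e₀ e₁ : E → ℝ) := by
  rw [contDiff_infty]
  exact fun n => (SC_pp h n).contDiff

theorem nl_pp (h : ON2 e₀ e₁) : nl (pp e₀ e₁ : E → ℝ)
    = fun x => -16 * ss e₀ e₁ x + (12 - 2 * (finrank ℝ E : ℝ)) := by
  have h2 := two_le_infty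
  ext x
  set b := stdOrthonormalBasis ℝ E with hb
  rw [nl_apply b ((contDiff_pp h).of_le h2)]
  have e1 : ∀ i, fderiv ℝ (fun y => fderiv ℝ (pp e₀ e₁) y (b i)) x (b i)
      = 8 * inner ℝ (inner ℝ e₀ x • e₀ + inner ℝ e₁ x • e₁) (b i) ^ 2
        + (4 * ss e₀ e₁ x - 6) * (inner ℝ e₀ (b i) ^ 2 + inner ℝ e₁ (b i) ^ 2) + 2 := by
    intro i
    have : (fun y => fderiv ℝ (pp e₀ e₁) y (b i)) = fun y =>
        (2 * (ss e₀ e₁ y - 1) - 1) * (2 * inner ℝ e₀ (b i) * inner ℝ e₀ y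
          + 2 * inner ℝ e₁ (b i) * inner ℝ e₁ y) + 2 * inner ℝ (b i) y := by
      ext y
      rw [(hasFDerivAt_pp h y).fderiv]
      simp [real_inner_comm]; ring
    rw [this]
    have hd1 := (((hasFDerivAt_ss (e₀ := e₀) (e₁ := e₁) x).sub_const 1).const_mul 2).sub_const 1
    have hd2 := ((hasFDerivAt_inner e₀ x).const_mul (2 * inner ℝ e₀ (b i))).add
      ((hasFDerivAt_inner e₁ x).const_mul (2 * inner ℝ e₁ (b i)))
    have hd3 := (hasFDerivAt_inner (b i) x).const_mul 2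
    have hd := (hd1.mul hd2).add hd3
    refine (congrArg (fun l => l (b i)) hd.fderiv).trans ?_
    have nb : inner ℝ (b i) (b i) = (1 : ℝ) := by
      rw [real_inner_self_eq_norm_sq, b.norm_eq_one]; norm_num
    simp [inner_add_left, inner_smul_left]
    ring
  simp only [e1]
  rw [Finset.sum_add_distrib, Finset.sum_add_distrib, ← Finset.mul_sum, ← Finset.mul_sum,
    Finset.sum_add_distrib, sum_inner_sq, sum_inner_sq, sum_inner_sq, h.n0, h.n1]
  have hn : ‖inner ℝ e₀ x • e₀ + inner ℝ e₁ x • e₁‖ ^ 2 = ss e₀ e₁ x := by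
    rw [← real_inner_self_eq_norm_sq]
    have i00 : inner ℝ e₀ e₀ = (1 : ℝ) := by rw [real_inner_self_eq_norm_sq, h.n0]; norm_num
    have i11 : inner ℝ e₁ e₁ = (1 : ℝ) := by rw [real_inner_self_eq_norm_sq, h.n1]; norm_num
    have i10 : inner ℝ e₁ e₀ = (0 : ℝ) := by rw [real_inner_comm]; exact h.orth
    simp only [inner_add_left, inner_add_right, inner_smul_left, inner_smul_right, i00, i11, i10,
      h.orth]
    unfold ss
    simp
    ring
  rw [hn]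
  simp
  ring

theorem nl_iter_pp (h : ON2 e₀ e₁) {m : ℕ} (hm : 3 ≤ m) :
    nl^[m] (pp e₀ e₁ : E → ℝ) = fun _ => 0 := by
  obtain ⟨k, rfl⟩ : ∃ k, m = k + 3 := ⟨m - 3, by omega⟩
  rw [Function.iterate_succ_apply, nl_pp h, Function.iterate_succ_apply,
    nl_add (contDiff_const.mul contDiff_ss) contDiff_const, nl_const_mul _ contDiff_ss, nl_ss h,
    nl_const, Function.iterate_succ_apply, nl_const, nl_iter_zero]

/-! ### Main statement in an abstract Euclidean space -/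

theorem arith_s {t α X D : ℝ} (a : ℝ) (ht : 0 < t) (hα : 0 < α) (hX : 0 ≤ X) (hD : 0 ≤ D) :
    ∃ s : ℝ, 0 ≤ s ∧ 2 * |a| ≤ s ∧
      t + t * D + (2 * t + α) * X + 4 * α + (2 * t + α) * s ^ 2 < t * (s ^ 4 / 32) := by
  set P := t + t * D + (2 * t + α) * X + 4 * α with hP
  have hP0 : 0 < P := by positivity
  set Q := P + (2 * t + α) with hQ
  have hQ0 : 0 < Q := by positivity
  have hq : 0 ≤ 32 * Q / t := by positivity
  have ha := abs_nonneg a
  obtain ⟨s, hs⟩ : ∃ s, s = 32 * Q / t + 2 * |a| + 1 := ⟨_, rfl⟩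
  have hs1 : 1 ≤ s := by linarith
  have hs2 : 1 ≤ s ^ 2 := one_le_pow₀ hs1
  have hs3 : s ≤ s ^ 2 := by
    calc s = s * 1 := (mul_one s).symm
      _ ≤ s * s := by gcongr
      _ = s ^ 2 := by ring
  refine ⟨s, by linarith, by linarith, ?_⟩
  have h1 : P ≤ P * s ^ 2 := le_mul_of_one_le_right hP0.le hs2
  have h2 : t * (32 * Q / t + 1) ≤ t * s ^ 2 := by
    gcongr
    linarith
  have h3 : t * (32 * Q / t + 1) = 32 * Q + t := by field_simp
  have h4 : Q * s ^ 2 < (t * s ^ 2 / 32) * s ^ 2 := by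
    apply mul_lt_mul_of_pos_right _ (by linarith)
    linarith
  have h5 : (t * s ^ 2 / 32) * s ^ 2 = t * (s ^ 4 / 32) := by ring
  have h6 : Q * s ^ 2 = P * s ^ 2 + (2 * t + α) * s ^ 2 := by rw [hQ]; ring
  linarith

theorem nonradial {e₀ e₁ e₂ : E}
    (h : ON2 e₀ e₁) (h2 : ‖e₂‖ = 1) (h02 : inner ℝ e₀ e₂ = 0) (h12 : inner ℝ e₁ e₂ = 0)
    {α t c : ℝ} (hα : 0 < α) (ht : 0 < t) {w : E → ℝ} (hwb : ∀ x, |w x| ≤ 2 * α) {u : E → ℝ}
    (hu : ∀ x, u x = (-(α / 2) * log (1 + ‖x‖ ^ 2) + w x) + ((-t) * pp e₀ e₁ x + c)) :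
    ¬ ∃ (x₀ : E) (φ : ℝ → ℝ), ∀ x, u x = φ ‖x - x₀‖ := by
  obtain ⟨v, hv⟩ : ∃ v : E → ℝ, ∀ x, v x = -(α / 2) * log (1 + ‖x‖ ^ 2) + w x :=
    ⟨_, fun _ => rfl⟩
  rintro ⟨x₀, φ, hφ⟩
  have key : ∀ s : ℝ, 0 ≤ s → v (x₀ + s • e₀) + (-t) * pp e₀ e₁ (x₀ + s • e₀)
      = v (x₀ + s • e₂) + (-t) * pp e₀ e₁ (x₀ + s • e₂) := by
    intro s hs
    have a1 := hφ (x₀ + s • e₀)
    have a2 := hφ (x₀ + s • e₂)
    have n1 : ‖x₀ + s • e₀ - x₀‖ = s := by
      rw [add_sub_cancel_left, norm_smul, h.n0, Real.norm_of_nonneg hs, mul_one]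
    have n2 : ‖x₀ + s • e₂ - x₀‖ = s := by
      rw [add_sub_cancel_left, norm_smul, h2, Real.norm_of_nonneg hs, mul_one]
    rw [n1] at a1
    rw [n2] at a2
    have a3 := a1.trans a2.symm
    rw [hu, hu, ← hv, ← hv] at a3
    linarith
  set a := inner ℝ e₀ x₀ with ha
  set D := (rr e₀ e₁ x₀ ^ 2 - 1) ^ 2 with hD
  have hD0 : 0 ≤ D := sq_nonneg _
  obtain ⟨s, hs0, hs2a, hss⟩ := arith_s a ht hα (sq_nonneg ‖x₀‖) hD0
  have k1 := key s hs0
  -- estimate along e₀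
  have r0 : (a + s) ^ 2 ≤ rr e₀ e₁ (x₀ + s • e₀) ^ 2 := by
    rw [rr_sq, inner_add_right, inner_smul_right, real_inner_self_eq_norm_sq, h.n0]
    nlinarith [sq_nonneg (inner ℝ e₁ (x₀ + s • e₀))]
  have r1 : s ^ 4 / 32 - 1 ≤ pp e₀ e₁ (x₀ + s • e₀) := by
    unfold pp
    have hab : s / 2 ≤ a + s := by
      have b1 := neg_abs_le a
      linarith
    have b4 : (s / 2) ^ 2 ≤ (a + s) ^ 2 := by gcongr
    have b5 : (s / 2) ^ 2 ≤ rr e₀ e₁ (x₀ + s • e₀) ^ 2 := b4.trans r0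
    set R := rr e₀ e₁ (x₀ + s • e₀) ^ 2
    have b6 : ((s / 2) ^ 2) ^ 2 ≤ R ^ 2 := by gcongr
    have b7 : R ^ 2 / 2 - 1 ≤ (R - 1) ^ 2 := by nlinarith [sq_nonneg (R - 2)]
    have b8 : 0 ≤ ‖qc e₀ e₁ (x₀ + s • e₀)‖ ^ 2 := by positivity
    nlinarith
  -- estimate along e₂
  have nrm2 : ‖x₀ + s • e₂‖ ^ 2 ≤ 2 * ‖x₀‖ ^ 2 + 2 * s ^ 2 := by
    have c1 : ‖x₀ + s • e₂‖ ≤ ‖x₀‖ + s := by
      refine (norm_add_le _ _).trans ?_
      rw [norm_smul, h2, Real.norm_of_nonneg hs0, mul_one]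
    have c2 : ‖x₀ + s • e₂‖ ^ 2 ≤ (‖x₀‖ + s) ^ 2 := by gcongr
    nlinarith [sq_nonneg (‖x₀‖ - s)]
  have r2 : pp e₀ e₁ (x₀ + s • e₂) ≤ D + (2 * ‖x₀‖ ^ 2 + 2 * s ^ 2) := by
    have c1 : rr e₀ e₁ (x₀ + s • e₂) ^ 2 = rr e₀ e₁ x₀ ^ 2 := by
      rw [rr_sq, rr_sq, inner_add_right, inner_add_right, inner_smul_right,
        inner_smul_right, h02, h12]
      ring
    have c2 := norm_sq_split h (x₀ + s • e₂)
    have c3 := sq_nonneg (rr e₀ e₁ (x₀ + s • e₂))
    unfold pp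
    rw [c1]
    linarith
  have r3 : v (x₀ + s • e₀) ≤ 2 * α := by
    rw [hv]
    have d1 := (abs_le.1 (hwb (x₀ + s • e₀))).2
    have d2 := log_one_add_nonneg (sq_nonneg ‖x₀ + s • e₀‖)
    have d3 : 0 ≤ α / 2 * log (1 + ‖x₀ + s • e₀‖ ^ 2) := by positivity
    linarith
  have r4 : -(α / 2) * (2 * ‖x₀‖ ^ 2 + 2 * s ^ 2) - 2 * α ≤ v (x₀ + s • e₂) := by
    rw [hv]
    have d1 := (abs_le.1 (hwb (x₀ + s • e₂))).1
    have d2 := (log_one_add_le (sq_nonneg ‖x₀ + s • e₂‖)).trans nrm2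
    have d3 : α / 2 * log (1 + ‖x₀ + s • e₂‖ ^ 2) ≤ α / 2 * (2 * ‖x₀‖ ^ 2 + 2 * s ^ 2) := by
      gcongr
    linarith
  have r5 : t * (s ^ 4 / 32 - 1) ≤ t * pp e₀ e₁ (x₀ + s • e₀) := by gcongr
  have r6 : t * pp e₀ e₁ (x₀ + s • e₂) ≤ t * (D + (2 * ‖x₀‖ ^ 2 + 2 * s ^ 2)) := by gcongr
  linarith

theorem main_abstract {m : ℕ} (hm : 3 ≤ m) (hE : finrank ℝ E = 2 * m) {e₀ e₁ e₂ : E}
    (h : ON2 e₀ e₁) (h2 : ‖e₂‖ = 1) (h02 : inner ℝ e₀ e₂ = 0) (h12 : inner ℝ e₁ e₂ = 0)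
    {A V : ℝ} (hA : 0 < A) (hV : 0 < V) :
    ∃ u : E → ℝ, ContDiff ℝ ∞ u ∧
      (∀ x, nl^[m] u x = A * exp (2 * m * u x)) ∧
      Integrable (fun x => exp (2 * m * u x)) ∧ ∫ x, exp (2 * m * u x) = V ∧
      ¬ ∃ (x₀ : E) (φ : ℝ → ℝ), ∀ x, u x = φ ‖x - x₀‖ := by
  obtain ⟨γ, hγ, hγf⟩ := exists_gamma (E := E) (m := m) (by omega) hE
  have hn : 1 < finrank ℝ E := by omega
  have hn3 : 3 ≤ finrank ℝ E := by omega
  set α := A * V / γ with hα'
  have hα : 0 < α := by positivity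
  set β : ℝ := 2 * m with hβ'
  have hβ : 0 < β := by
    have : (3 : ℝ) ≤ m := by exact_mod_cast hm
    rw [hβ']; linarith
  obtain ⟨t, ht, w, hwc, hwb, hwT⟩ := exists_fixed hn h hα hβ
  set g := gg α β t e₀ e₁ w with hg
  have hgr : Rapid g := gg_rapid h hα hβ ht hwb
  have hgc : Continuous g := gg_continuous α β t hwc
  have hgi : Integrable g := gg_integrable h hα hβ ht hwc hwb
  have hZ : 0 < ∫ y, g y := gg_int_pos h hα hβ ht hwc hwb
  set Z := ∫ y, g y with hZdef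
  set v : E → ℝ := fun x => -(α / 2) * log (1 + ‖x‖ ^ 2) + w x with hv
  have hinvw : ∀ x x', rr e₀ e₁ x = rr e₀ e₁ x' → qc e₀ e₁ x = qc e₀ e₁ x' → w x = w x' := by
    intro x x' h1 h2
    rw [hwT x, hwT x', TT_inv h w h1 h2]
  have hinvg : ∀ x x', rr e₀ e₁ x = rr e₀ e₁ x' → qc e₀ e₁ x = qc e₀ e₁ x' → g x = g x' := by
    intro x x' h1 h2
    rw [hg]; unfold gg
    rw [norm_sq_inv h h1 h2, hinvw x x' h1 h2, pp_inv h1 h2]
  have hvg : ∀ x, v x = (α / Z) * conv Lk g x := by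
    intro x
    rw [conv_Lk_avg h hn hgr hgc hinvg x, hv]
    simp only
    rw [hwT x]
    unfold TT
    rw [← hg, ← hZdef]
    ring
  have hgv : g = fun x => exp (β * (v x + (-t) * pp e₀ e₁ x)) := by
    ext x
    rw [hg, hv]; unfold gg
    congr 1; ring
  have hreg : ∀ k, RC k g := by
    intro k
    induction k with
    | zero => exact ⟨hgc, hgr⟩
    | succ k ih =>
      have h1 : SC (k + 1) v := by
        have : v = fun x => (α / Z) * conv Lk g x := funext hvg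
        rw [this]
        exact (conv_Lk_SC hn3 ih).const_mul _
      have h3 : SC (k + 1) (fun x => β * (v x + (-t) * pp e₀ e₁ x)) :=
        (h1.add ((SC_pp h (k + 1)).const_mul (-t))).const_mul β
      have h4 : Rapid (fun x => exp (β * (v x + (-t) * pp e₀ e₁ x))) := by
        rw [← hgv]; exact hgr
      rw [hgv]
      exact RC.exp h3 h4
  have hvs : ContDiff ℝ ∞ (conv Lk g) := by
    rw [contDiff_infty]
    intro n
    exact ((conv_Lk_SC hn3 (hreg n)).pred).contDiff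
  have hpps := contDiff_pp (E := E) h
  set c := 1 / β * log (V / Z) with hc
  refine ⟨fun x => (α / Z) * conv Lk g x + ((-t) * pp e₀ e₁ x + c), ?_, ?_, ?_⟩
  · exact (contDiff_const.mul hvs).add ((contDiff_const.mul hpps).add contDiff_const)
  · intro x
    have hexp : exp (β * ((α / Z) * conv Lk g x + ((-t) * pp e₀ e₁ x + c))) = V / Z * g x := by
      rw [← hvg x, hgv]
      simp only
      have : β * (v x + ((-t) * pp e₀ e₁ x + c)) = log (V / Z)
          + β * (v x + (-t) * pp e₀ e₁ x) := by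
        rw [hc]; field_simp; ring
      rw [this, exp_add, exp_log (by positivity)]
    rw [hexp, nl_iter_add m (contDiff_const.mul hvs)
      ((contDiff_const.mul hpps).add contDiff_const),
      nl_iter_add m (contDiff_const.mul hpps) contDiff_const, nl_iter_const_mul m _ hvs,
      nl_iter_const_mul m _ hpps, nl_iter_pp h hm, nl_iter_const m (by omega), hγf g hreg]
    simp only
    rw [hα']
    field_simp
    ring
  · have hexp : ∀ x, exp (β * ((α / Z) * conv Lk g x + ((-t) * pp e₀ e₁ x + c)))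
        = V / Z * g x := by
      intro x
      rw [← hvg x, hgv]
      simp only
      have : β * (v x + ((-t) * pp e₀ e₁ x + c)) = log (V / Z)
          + β * (v x + (-t) * pp e₀ e₁ x) := by
        rw [hc]; field_simp; ring
      rw [this, exp_add, exp_log (by positivity)]
    refine ⟨?_, ?_, ?_⟩
    · simp only [hexp]
      exact hgi.const_mul _
    · simp only [hexp]
      rw [integral_const_mul, ← hZdef]
      field_simp
    · refine nonradial h h2 h02 h12 hα ht hwb (c := c) fun x => ?_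
      rw [← hvg x]

end Pool.Agent.Lib.MP_d898c1_an
end
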