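import Pool.Agent.Lib.MP_d898c1_an.Gain

section

/-!
Powers of the Laplacian of logarithmic potentials.
-/

set_option autoImplicit false
set_option linter.unusedSectionVars false

open MeasureTheory Set Filter Topology Real Module
open scoped Laplacian InnerProductSpace

namespace Pool.Agent.Lib.MP_d898c1_an

variable {E : Type} [NormedAddCommGroup E] [InnerProductSpace ℝ E] [FiniteDimensional ℝ E]
  [MeasurableSpace E] [BorelSpace E]

theorem lap_eq {ι : Type*} [Fintype ι] (b : OrthonormalBasis ι ℝ E) {f : E → ℝ}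
    (hf : ContDiff ℝ 2 f) (x : E) :
    (Δ f) x = ∑ i, fderiv ℝ (fun y => fderiv ℝ f y (b i)) x (b i) := by
  rw [InnerProductSpace.laplacian_eq_iteratedFDeriv_orthonormalBasis f b]
  refine Finset.sum_congr rfl fun i _ => ?_
  rw [iteratedFDeriv_two_apply]
  have h1 : DifferentiableAt ℝ (fderiv ℝ f) x :=
    (hf.fderiv_right (m := 1) (by norm_num)).differentiable (by norm_num) x
  have h2 : HasFDerivAt (fun y => fderiv ℝ f y (b i))
      ((ContinuousLinearMap.apply ℝ ℝ (b i)).comp (fderiv ℝ (fderiv ℝ f) x)) x :=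
    (ContinuousLinearMap.apply ℝ ℝ (b i)).hasFDerivAt.comp x h1.hasFDerivAt
  rw [h2.fderiv]
  simp

/-- Smooth functions all of whose derivatives decrease rapidly. -/
def RS (f : E → ℝ) : Prop := ∀ k, RC k f

theorem RC.of_le {k l : ℕ} (hkl : k ≤ l) {f : E → ℝ} (hf : RC l f) : RC k f := by
  induction l, hkl using Nat.le_induction with
  | base => exact hf
  | succ l _ ih => exact ih hf.pred

theorem SC.of_le {k l : ℕ} (hkl : k ≤ l) {f : E → ℝ} (hf : SC l f) : SC k f := by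
  induction l, hkl using Nat.le_induction with
  | base => exact hf
  | succ l _ ih => exact ih hf.pred

/-- Minus the Laplacian. -/
noncomputable def nl (f : E → ℝ) : E → ℝ := -(Δ f)

theorem nl_apply {ι : Type*} [Fintype ι] (b : OrthonormalBasis ι ℝ E) {f : E → ℝ}
    (hf : ContDiff ℝ 2 f) (x : E) :
    nl f x = -∑ i, fderiv ℝ (fun y => fderiv ℝ f y (b i)) x (b i) := by
  unfold nl
  rw [Pi.neg_apply, lap_eq b hf]

theorem RC.nl {k : ℕ} {f : E → ℝ} (hf : RC (k + 2) f) : RC k (nl f) := by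
  have hc : ContDiff ℝ 2 f := by
    have := (hf.of_le (k := 2) (by omega)).contDiff
    exact_mod_cast this
  have : MP_d898c1_an.nl f = fun x => (-1 : ℝ) *
      ∑ i, fderiv ℝ (fun y => fderiv ℝ f y (stdOrthonormalBasis ℝ E i)) x
        (stdOrthonormalBasis ℝ E i) := by
    ext x
    rw [nl_apply (stdOrthonormalBasis ℝ E) hc]; ring
  rw [this]
  apply RC.const_mul
  apply RC.sum
  intro i _
  exact (hf.2.2 (stdOrthonormalBasis ℝ E i)).2.2 (stdOrthonormalBasis ℝ E i)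

theorem RS.nl {f : E → ℝ} (hf : RS f) : RS (nl f) := fun k => (hf (k + 2)).nl

theorem conv_sum {ι : Type*} (s : Finset ι) {κ : E → ℝ} (hκ : Tame κ) {f : ι → E → ℝ}
    (hf : ∀ i ∈ s, RC 0 (f i)) (x : E) :
    conv κ (fun y => ∑ i ∈ s, f i y) x = ∑ i ∈ s, conv κ (f i) x := by
  unfold conv
  rw [← integral_finsetSum]
  · apply integral_congr_ae
    refine Eventually.of_forall fun y => ?_
    simp only [smul_eq_mul, Finset.mul_sum]
  · intro i hi
    exact conv_integrable hκ (hf i hi).2 (hf i hi).1.aestronglyMeasurable x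

theorem conv_neg (κ : E → ℝ) (f : E → ℝ) (x : E) :
    conv κ (fun y => -f y) x = -conv κ f x := by
  unfold conv
  rw [← integral_neg]
  simp

theorem conv_const_mul (c : ℝ) (κ : E → ℝ) (f : E → ℝ) (x : E) :
    conv (fun y => c * κ y) f x = c * conv κ f x := by
  unfold conv
  rw [← integral_const_mul]
  apply integral_congr_ae
  refine Eventually.of_forall fun y => ?_
  simp only [smul_eq_mul]; ring

/-- The Laplacian commutes with convolution by a tame kernel. -/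
theorem nl_conv {κ : E → ℝ} (hκ : Tame κ) {f : E → ℝ} (hf : RC 2 f) :
    nl (conv κ f) = conv κ (nl f) := by
  ext x
  set b := stdOrthonormalBasis ℝ E
  have hc : ContDiff ℝ 2 f := by exact_mod_cast hf.contDiff
  have hc2 : ContDiff ℝ 2 (conv κ f) := by exact_mod_cast (conv_SC hκ hf).contDiff
  rw [nl_apply b hc2]
  have e : nl f = fun x => -∑ i, fderiv ℝ (fun y => fderiv ℝ f y (b i)) x (b i) := by
    ext x; exact nl_apply b hc x
  rw [e, conv_neg, conv_sum _ hκ (fun i _ => (hf.2.2 (b i)).2.2 (b i))]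
  congr 1
  refine Finset.sum_congr rfl fun i _ => ?_
  have e1 : (fun y => fderiv ℝ (conv κ f) y (b i)) = conv κ (fun y => fderiv ℝ f y (b i)) := by
    ext y; exact conv_fderiv_apply hκ hf.pred y (b i)
  rw [e1]
  exact conv_fderiv_apply hκ (hf.2.2 (b i)) x (b i)

theorem nl_iterate_conv {κ : E → ℝ} (hκ : Tame κ) {f : E → ℝ} (hf : RS f) (m : ℕ) :
    nl^[m] (conv κ f) = conv κ (nl^[m] f) := by
  induction m generalizing f with
  | zero => rfl
  | succ m ih =>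
    rw [Function.iterate_succ_apply, Function.iterate_succ_apply, nl_conv hκ (hf 2), ih hf.nl]

/-- Moving the Laplacian onto a radial regularised kernel. -/
theorem conv_nl_radial {φ φ' φ'' : ℝ → ℝ} {s M : ℝ} (hs : 0 < s)
    (h1 : ∀ a, s ≤ a → HasDerivAt φ (φ' a) a) (h2 : ∀ a, s ≤ a → HasDerivAt φ' (φ'' a) a)
    (h3 : ContinuousOn φ'' (Ici s)) (hslow : Slow (fun y : E => φ (‖y‖ ^ 2 + s)))
    (b1 : ∀ a, s ≤ a → |φ' a| ≤ M) (b2 : ∀ a, s ≤ a → |φ'' a| ≤ M)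
    {f : E → ℝ} (hf : RC 2 f) (x : E) :
    conv (fun y : E => φ (‖y‖ ^ 2 + s)) (nl f) x
      = conv (fun y : E => -(2 * (finrank ℝ E : ℝ) * φ' (‖y‖ ^ 2 + s)
          + 4 * ‖y‖ ^ 2 * φ'' (‖y‖ ^ 2 + s))) f x := by
  have hM : 0 ≤ M := (abs_nonneg _).trans (b1 s le_rfl)
  have hA : ∀ y : E, s ≤ ‖y‖ ^ 2 + s := fun y => by nlinarith [sq_nonneg ‖y‖]
  have hnsq : ∀ y : E, HasFDerivAt (fun y : E => ‖y‖ ^ 2 + s) (2 • innerSL ℝ y) y := fun y =>
    ((hasStrictFDerivAt_norm_sq y).hasFDerivAt).add_const s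
  have hd1 : ∀ y : E, HasFDerivAt (fun y : E => φ (‖y‖ ^ 2 + s))
      (φ' (‖y‖ ^ 2 + s) • (2 • innerSL ℝ y)) y := fun y =>
    (h1 _ (hA y)).comp_hasFDerivAt y (hnsq y)
  have hd2 : ∀ y : E, HasFDerivAt (fun y : E => φ' (‖y‖ ^ 2 + s))
      (φ'' (‖y‖ ^ 2 + s) • (2 • innerSL ℝ y)) y := fun y =>
    (h2 _ (hA y)).comp_hasFDerivAt y (hnsq y)
  have e1 : ∀ v y : E, fderiv ℝ (fun y : E => φ (‖y‖ ^ 2 + s)) y v
      = 2 * inner ℝ y v * φ' (‖y‖ ^ 2 + s) := by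
    intro v y
    rw [(hd1 y).fderiv]
    simp; ring
  have hd3 : ∀ v y : E, HasFDerivAt (fun y : E => 2 * inner ℝ y v * φ' (‖y‖ ^ 2 + s))
      ((2 * inner ℝ y v) • (φ'' (‖y‖ ^ 2 + s) • (2 • innerSL ℝ y))
        + φ' (‖y‖ ^ 2 + s) • ((2 : ℝ) • innerSL ℝ v)) y := by
    intro v y
    have hl : HasFDerivAt (fun y : E => 2 * inner ℝ y v) ((2 : ℝ) • innerSL ℝ v) y := by
      have h0 : HasFDerivAt (fun y : E => (innerSL ℝ v) y) (innerSL ℝ v) y :=
        (innerSL ℝ v).hasFDerivAt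
      have h5 := h0.const_mul 2
      refine h5.congr_of_eventuallyEq (Eventually.of_forall fun z => ?_)
      simp [real_inner_comm]
    exact hl.mul (hd2 y)
  have e2 : ∀ v y : E, fderiv ℝ (fun y : E => 2 * inner ℝ y v * φ' (‖y‖ ^ 2 + s)) y v
      = 2 * inner ℝ v v * φ' (‖y‖ ^ 2 + s) + 4 * inner ℝ y v ^ 2 * φ'' (‖y‖ ^ 2 + s) := by
    intro v y
    rw [(hd3 v y).fderiv]
    simp; ring
  -- regularity of the kernels
  have c1 : Continuous (fun y : E => φ' (‖y‖ ^ 2 + s)) :=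
    continuous_iff_continuousAt.2 fun y => (hd2 y).continuousAt
  have c2 : Continuous (fun y : E => φ'' (‖y‖ ^ 2 + s)) :=
    h3.comp_continuous (by fun_prop) fun y => hA y
  have cin : ∀ v : E, Continuous (fun y : E => inner ℝ y v) := fun v => by fun_prop
  have cc : ∀ v : E, Continuous (fun y : E => 2 * inner ℝ v v * φ' (‖y‖ ^ 2 + s)
      + 4 * inner ℝ y v ^ 2 * φ'' (‖y‖ ^ 2 + s)) := fun v =>
    (continuous_const.mul c1).add ((continuous_const.mul ((cin v).pow 2)).mul c2)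
  have s1 : ∀ v : E, Slow (fun y : E => 2 * inner ℝ y v * φ' (‖y‖ ^ 2 + s)) := by
    intro v
    refine ⟨1, 2 * ‖v‖ * M, fun y => ?_⟩
    rw [norm_mul, norm_mul, Real.norm_of_nonneg (by norm_num : (0 : ℝ) ≤ 2), pow_one]
    calc 2 * ‖inner ℝ y v‖ * ‖φ' (‖y‖ ^ 2 + s)‖ ≤ 2 * (‖y‖ * ‖v‖) * M := by
          gcongr
          · exact norm_inner_le_norm y v
          · exact b1 _ (hA y)
      _ ≤ 2 * ((1 + ‖y‖) * ‖v‖) * M := by gcongr; linarith
      _ = _ := by ring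
  have s2 : ∀ v : E, Slow (fun y : E => 2 * inner ℝ v v * φ' (‖y‖ ^ 2 + s)
      + 4 * inner ℝ y v ^ 2 * φ'' (‖y‖ ^ 2 + s)) := by
    intro v
    refine ⟨2, 2 * ‖v‖ ^ 2 * M + 4 * ‖v‖ ^ 2 * M, fun y => ?_⟩
    have hb := one_le_base y
    calc ‖2 * inner ℝ v v * φ' (‖y‖ ^ 2 + s) + 4 * inner ℝ y v ^ 2 * φ'' (‖y‖ ^ 2 + s)‖
        ≤ ‖2 * inner ℝ v v * φ' (‖y‖ ^ 2 + s)‖ + ‖4 * inner ℝ y v ^ 2 * φ'' (‖y‖ ^ 2 + s)‖ :=
          norm_add_le _ _
      _ ≤ 2 * ‖v‖ ^ 2 * M + 4 * (‖y‖ * ‖v‖) ^ 2 * M := by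
          rw [norm_mul, norm_mul, norm_mul, norm_mul, norm_pow, real_inner_self_eq_norm_sq,
            Real.norm_of_nonneg (by norm_num : (0 : ℝ) ≤ 2),
            Real.norm_of_nonneg (by norm_num : (0 : ℝ) ≤ 4),
            Real.norm_of_nonneg (by positivity : 0 ≤ ‖v‖ ^ 2)]
          gcongr
          · exact b1 _ (hA y)
          · exact norm_inner_le_norm y v
          · exact b2 _ (hA y)
      _ ≤ 2 * ‖v‖ ^ 2 * M * (1 + ‖y‖) ^ 2 + 4 * ((1 + ‖y‖) * ‖v‖) ^ 2 * M := by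
          have : 1 ≤ (1 + ‖y‖) ^ 2 := one_le_pow₀ hb
          have h7 : 2 * ‖v‖ ^ 2 * M ≤ 2 * ‖v‖ ^ 2 * M * (1 + ‖y‖) ^ 2 :=
            le_mul_of_one_le_right (by positivity) this
          have h8 : 4 * (‖y‖ * ‖v‖) ^ 2 * M ≤ 4 * ((1 + ‖y‖) * ‖v‖) ^ 2 * M := by
            gcongr; linarith
          linarith
      _ = _ := by ring
  set b := stdOrthonormalBasis ℝ E with hb
  have hc : ContDiff ℝ 2 f := by exact_mod_cast hf.contDiff
  have e : nl f = fun x => -∑ i, fderiv ℝ (fun y => fderiv ℝ f y (b i)) x (b i) := by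
    ext x; exact nl_apply b hc x
  have ht0 : Tame (fun y : E => φ (‖y‖ ^ 2 + s)) :=
    hslow.tame (continuous_iff_continuousAt.2 fun y => (hd1 y).continuousAt)
  rw [e, conv_neg, conv_sum _ ht0 (fun i _ => (hf.2.2 (b i)).2.2 (b i))]
  have step : ∀ i, conv (fun y : E => φ (‖y‖ ^ 2 + s))
      (fun x => fderiv ℝ (fun y => fderiv ℝ f y (b i)) x (b i)) x
      = conv (fun y : E => 2 * inner ℝ (b i) (b i) * φ' (‖y‖ ^ 2 + s)
      + 4 * inner ℝ y (b i) ^ 2 * φ'' (‖y‖ ^ 2 + s)) f x := by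
    intro i
    have i1 := conv_ibp (κ := fun y : E => φ (‖y‖ ^ 2 + s))
      (fun y => (hd1 y).differentiableAt) hslow (b i)
      (by simp only [e1]; exact s1 _)
      (by simp only [e1]; exact ((continuous_const.mul (cin _)).mul c1)) (hf.2.2 (b i)) x
    rw [i1]
    simp only [e1]
    have i2 := conv_ibp (κ := fun y : E => 2 * inner ℝ y (b i) * φ' (‖y‖ ^ 2 + s))
      (fun y => (hd3 _ y).differentiableAt) (s1 _) (b i)
      (by simp only [e2]; exact s2 _)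
      (by simp only [e2]; exact cc _) hf.pred x
    rw [i2]
    simp only [e2]
  simp only [step]
  -- sum the kernels
  have ht : ∀ i, Tame (fun y : E => 2 * inner ℝ (b i) (b i) * φ' (‖y‖ ^ 2 + s)
      + 4 * inner ℝ y (b i) ^ 2 * φ'' (‖y‖ ^ 2 + s)) := fun i =>
    (s2 (b i)).tame (cc _)
  unfold conv
  rw [← integral_finsetSum _ (fun i _ => conv_integrable (ht i) hf.rapid
    hf.continuous.aestronglyMeasurable x), ← integral_neg]
  apply integral_congr_ae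
  refine Eventually.of_forall fun y => ?_
  simp only [smul_eq_mul]
  rw [← Finset.sum_mul, Finset.sum_add_distrib, ← neg_mul]
  congr 2
  have f1 : ∑ i, 2 * inner ℝ (b i) (b i) * φ' (‖y‖ ^ 2 + s)
      = 2 * (finrank ℝ E : ℝ) * φ' (‖y‖ ^ 2 + s) := by
    simp [real_inner_self_eq_norm_sq, b.norm_eq_one]
    ring
  have f2 : ∑ i, 4 * inner ℝ y (b i) ^ 2 * φ'' (‖y‖ ^ 2 + s)
      = 4 * ‖y‖ ^ 2 * φ'' (‖y‖ ^ 2 + s) := by
    rw [← Finset.sum_mul, ← Finset.mul_sum]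
    congr 2
    have := b.sum_sq_norm_inner_left y
    simpa using this
  rw [f1, f2]

/-- Passage to the limit in the kernel. -/
theorem conv_tendsto {κj : ℕ → E → ℝ} {κ κb : E → ℝ} (hm : ∀ j, AEStronglyMeasurable (κj j))
    (hb : Tame κb) (hdom : ∀ j, ∀ᵐ y, |κj j y| ≤ κb y)
    (hlim : ∀ᵐ y, Tendsto (fun j => κj j y) atTop (𝓝 (κ y))) {f : E → ℝ} (hf : RC 0 f) (x : E) :
    Tendsto (fun j => conv (κj j) f x) atTop (𝓝 (conv κ f x)) := by
  have hfabs : Rapid (fun y => |f y|) := fun N => by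
    obtain ⟨C, hC⟩ := hf.2 N
    exact ⟨C, fun x => by simpa using hC x⟩
  have hi := conv_integrable hb hfabs hf.1.abs.aestronglyMeasurable x
  unfold conv
  apply tendsto_integral_of_dominated_convergence _ _ hi
  · intro j
    filter_upwards [hdom j] with y hy
    rw [smul_eq_mul, smul_eq_mul, norm_mul]
    exact mul_le_mul_of_nonneg_right hy (abs_nonneg _)
  · filter_upwards [hlim] with y hy
    exact hy.smul_const _
  · intro j
    exact (hm j).smul (hf.1.comp (by fun_prop)).aestronglyMeasurable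

end Pool.Agent.Lib.MP_d898c1_an
end

section

/-!
`(-Δ)^m (-log ‖·‖ * f) = γ f` in dimension `2m`.
-/

set_option autoImplicit false
set_option linter.unusedSectionVars false

open MeasureTheory Set Filter Topology Real Module
open scoped Laplacian InnerProductSpace

namespace Pool.Agent.Lib.MP_d898c1_an

variable {E : Type} [NormedAddCommGroup E] [InnerProductSpace ℝ E] [FiniteDimensional ℝ E]
  [MeasurableSpace E] [BorelSpace E]

/-- Inverse even powers of the norm. -/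
noncomputable def Rk (k : ℕ) (y : E) : ℝ := (‖y‖ ^ (2 * k))⁻¹

theorem tame_Rk {k : ℕ} (h : 2 * k < finrank ℝ E) : Tame (Rk k : E → ℝ) := tame_inv_pow h

theorem ae_ne_zero (h : 0 < finrank ℝ E) : ∀ᵐ y : E, y ≠ 0 := by
  have : Nontrivial E := Module.nontrivial_of_finrank_pos (R := ℝ) h
  rw [ae_iff]; simp

/-- The sequence of regularisation parameters. -/
noncomputable def sj (j : ℕ) : ℝ := (1 / ((j : ℝ) + 1)) ^ 2

theorem sj_pos (j : ℕ) : 0 < sj j := by unfold sj; positivity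

theorem sj_le (j : ℕ) : sj j ≤ 1 := by
  unfold sj
  have h1 : 1 / ((j : ℝ) + 1) ≤ 1 := by
    rw [div_le_one (by positivity)]
    have : (0 : ℝ) ≤ j := Nat.cast_nonneg j
    linarith
  have h0 : 0 ≤ 1 / ((j : ℝ) + 1) := by positivity
  exact pow_le_one₀ h0 h1

theorem sj_lim : Tendsto sj atTop (𝓝 0) := by
  have := (tendsto_one_div_add_atTop_nhds_zero_nat (𝕜 := ℝ)).pow 2
  rw [zero_pow two_ne_zero] at this
  exact this

theorem log_nl (hn : 3 ≤ finrank ℝ E) {f : E → ℝ} (hf : RC 2 f) (x : E) :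
    conv Lk (nl f) x = ((finrank ℝ E : ℝ) - 2) * conv (Rk 1) f x := by
  set n : ℝ := (finrank ℝ E : ℝ) with hnn
  have hn0 : 0 < n := by
    have : (3 : ℝ) ≤ n := by rw [hnn]; exact_mod_cast hn
    linarith
  have hne := ae_ne_zero (E := E) (by omega)
  have hnlf : RC 0 (nl f) := RC.nl hf
  have hf0 : RC 0 f := hf.of_le (by omega)
  -- the left side
  have ht1 : Tame (fun y : E => (‖y‖ ^ 1)⁻¹ + (1 + ‖y‖)) := by
    refine (tame_inv_pow (by omega)).add (Slow.tame ⟨1, 1, fun y => ?_⟩ (by fun_prop))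
    rw [Real.norm_of_nonneg (by positivity)]; simp
  have L1 : Tendsto (fun j => conv (Ls (sj j)) (nl f) x) atTop (𝓝 (conv Lk (nl f) x)) := by
    apply conv_tendsto (fun j => (Ls_measurable _).aestronglyMeasurable) ht1 _ _ hnlf
    · intro j
      filter_upwards [hne] with y hy
      exact abs_Ls_le (sj_pos j) (sj_le j) hy
    · filter_upwards [hne] with y hy
      have hy0 : 0 < ‖y‖ := norm_pos_iff.2 hy
      unfold Ls Lk
      have h1 : Tendsto (fun n => ‖y‖ ^ 2 + sj n) atTop (𝓝 (‖y‖ ^ 2 + 0)) :=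
        sj_lim.const_add _
      rw [add_zero] at h1
      have h2 := (h1.log (by positivity)).const_mul (-(1 / 2))
      convert h2 using 2
      rw [log_pow]; push_cast; ring
  -- the right side
  let κ : ℕ → E → ℝ := fun j y => -(2 * n * (-(1 / 2) * (‖y‖ ^ 2 + sj j)⁻¹)
      + 4 * ‖y‖ ^ 2 * (1 / 2 * ((‖y‖ ^ 2 + sj j) ^ 2)⁻¹))
  have L2 : Tendsto (fun j => conv (κ j) f x) atTop
      (𝓝 (conv (fun y => (n - 2) * Rk 1 y) f x)) := by
    have htb : Tame (fun y : E => (n + 2) * (‖y‖ ^ 2)⁻¹) :=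
      (tame_inv_pow (by omega)).const_mul _
    refine conv_tendsto (κb := fun y : E => (n + 2) * (‖y‖ ^ 2)⁻¹) (fun j => ?_) htb ?_ ?_ hf0 x
    · apply Measurable.aestronglyMeasurable
      simp only [κ]; fun_prop
    · intro j
      filter_upwards [hne] with y hy
      have hy0 : 0 < ‖y‖ := norm_pos_iff.2 hy
      have hs := sj_pos j
      set s := sj j
      set z := ‖y‖
      have hA : 0 < z ^ 2 + s := by positivity
      have hA2 : z ^ 2 ≤ z ^ 2 + s := by linarith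
      have e : -(2 * n * (-(1 / 2) * (z ^ 2 + s)⁻¹) + 4 * z ^ 2 * (1 / 2 * ((z ^ 2 + s) ^ 2)⁻¹))
        = n * (z ^ 2 + s)⁻¹ - 2 * (z ^ 2 / (z ^ 2 + s)) * (z ^ 2 + s)⁻¹ := by
        field_simp
        ring
      have e2 : z ^ 2 / (z ^ 2 + s) ≤ 1 := (div_le_one hA).2 hA2
      have e3 : 0 ≤ z ^ 2 / (z ^ 2 + s) := by positivity
      have e4 : (z ^ 2 + s)⁻¹ ≤ (z ^ 2)⁻¹ := inv_anti₀ (by positivity) hA2
      have e5 : 0 < (z ^ 2 + s)⁻¹ := by positivity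
      change |-(2 * n * (-(1 / 2) * (z ^ 2 + s)⁻¹) + 4 * z ^ 2 * (1 / 2 * ((z ^ 2 + s) ^ 2)⁻¹))|
        ≤ (n + 2) * (z ^ 2)⁻¹
      rw [e]
      calc |n * (z ^ 2 + s)⁻¹ - 2 * (z ^ 2 / (z ^ 2 + s)) * (z ^ 2 + s)⁻¹|
          ≤ |n * (z ^ 2 + s)⁻¹| + |2 * (z ^ 2 / (z ^ 2 + s)) * (z ^ 2 + s)⁻¹| := abs_sub _ _
        _ = n * (z ^ 2 + s)⁻¹ + 2 * (z ^ 2 / (z ^ 2 + s)) * (z ^ 2 + s)⁻¹ := by
            rw [abs_of_nonneg (by positivity), abs_of_nonneg (by positivity)]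
        _ ≤ n * (z ^ 2)⁻¹ + 2 * 1 * (z ^ 2)⁻¹ := by gcongr
        _ = _ := by ring
    · filter_upwards [hne] with y hy
      have hy0 : 0 < ‖y‖ := norm_pos_iff.2 hy
      have h1 : Tendsto (fun j => ‖y‖ ^ 2 + sj j) atTop (𝓝 (‖y‖ ^ 2 + 0)) :=
        sj_lim.const_add _
      rw [add_zero] at h1
      have h2 := (((h1.inv₀ (by positivity)).const_mul (-(1 / 2))).const_mul (2 * n)).add
        ((((h1.pow 2).inv₀ (by positivity)).const_mul (1 / 2)).const_mul (4 * ‖y‖ ^ 2))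
      have h3 := h2.neg
      convert h3 using 2
      unfold Rk
      field_simp
      ring
  have hEq : ∀ j, conv (Ls (sj j)) (nl f) x = conv (κ j) f x := by
    intro j
    have hs := sj_pos j
    have := conv_nl_radial (E := E) (φ := fun a => -(1 / 2) * log a)
      (φ' := fun a => -(1 / 2) * a⁻¹) (φ'' := fun a => 1 / 2 * (a ^ 2)⁻¹) (s := sj j)
      (M := (sj j)⁻¹ + ((sj j) ^ 2)⁻¹) hs ?_ ?_ ?_ ?_ ?_ ?_ hf x
    · exact this
    · intro a ha
      have ha0 : 0 < a := hs.trans_le ha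
      exact (hasDerivAt_log ha0.ne').const_mul _
    · intro a ha
      have ha0 : 0 < a := hs.trans_le ha
      refine ((hasDerivAt_inv ha0.ne').const_mul (-(1 / 2))).congr_deriv ?_
      ring
    · apply ContinuousOn.mul continuousOn_const
      apply ContinuousOn.inv₀ (by fun_prop)
      intro a ha
      have ha0 : 0 < a := hs.trans_le ha
      positivity
    · refine ⟨1, |log (sj j)| + 1, fun y => ?_⟩
      have hA : 0 < ‖y‖ ^ 2 + sj j := by positivity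
      have hb := base_pos y
      have l1 : log (sj j) ≤ log (‖y‖ ^ 2 + sj j) :=
        log_le_log hs (by nlinarith [sq_nonneg ‖y‖])
      have l2 : log (‖y‖ ^ 2 + sj j) ≤ 2 * ‖y‖ := by
        have : log (‖y‖ ^ 2 + sj j) ≤ log ((1 + ‖y‖) ^ 2) := by
          apply log_le_log hA
          nlinarith [sj_le j, norm_nonneg y]
        rw [log_pow] at this
        have h4 : log (1 + ‖y‖) ≤ ‖y‖ := by
          have := log_le_sub_one_of_pos hb
          linarith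
        push_cast at this
        linarith
      have l3 : |log (‖y‖ ^ 2 + sj j)| ≤ |log (sj j)| + 2 * ‖y‖ := by
        rw [abs_le]
        constructor
        · have := neg_abs_le (log (sj j))
          linarith [norm_nonneg y]
        · have := abs_nonneg (log (sj j))
          linarith
      rw [norm_mul, Real.norm_eq_abs, Real.norm_eq_abs, abs_neg,
        abs_of_pos (by norm_num : (0 : ℝ) < 1 / 2), pow_one]
      have h5 := abs_nonneg (log (sj j))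
      nlinarith [norm_nonneg y, mul_nonneg h5 (norm_nonneg y)]
    · intro a ha
      have ha0 : 0 < a := hs.trans_le ha
      have : a⁻¹ ≤ (sj j)⁻¹ := inv_anti₀ hs ha
      have h2 : 0 < a⁻¹ := inv_pos.2 ha0
      have h3 : 0 < ((sj j) ^ 2)⁻¹ := by positivity
      rw [abs_mul, abs_neg, abs_of_pos (by norm_num : (0 : ℝ) < 1 / 2), abs_of_pos h2]
      linarith
    · intro a ha
      have ha0 : 0 < a := hs.trans_le ha
      have : (a ^ 2)⁻¹ ≤ ((sj j) ^ 2)⁻¹ := inv_anti₀ (by positivity) (by gcongr)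
      have h2 : 0 < (a ^ 2)⁻¹ := by positivity
      have h3 : 0 < (sj j)⁻¹ := by positivity
      rw [abs_mul, abs_of_pos (by norm_num : (0 : ℝ) < 1 / 2), abs_of_pos h2]
      linarith
  simp only [hEq] at L1
  have := tendsto_nhds_unique L1 L2
  rw [this, conv_const_mul]

/-- Common part of the computations for inverse powers. -/
theorem pow_nl_reg {k : ℕ} {s : ℝ} (hs : 0 < s) {f : E → ℝ} (hf : RC 2 f) (x : E) :
    conv (fun y : E => ((‖y‖ ^ 2 + s) ^ k)⁻¹) (nl f) x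
      = conv (fun y : E => -(2 * (finrank ℝ E : ℝ) * (-(k : ℝ) * ((‖y‖ ^ 2 + s) ^ (k + 1))⁻¹)
          + 4 * ‖y‖ ^ 2 * ((k : ℝ) * (k + 1) * ((‖y‖ ^ 2 + s) ^ (k + 2))⁻¹))) f x := by
  have hder : ∀ (l : ℕ) (a : ℝ), s ≤ a →
      HasDerivAt (fun a : ℝ => (a ^ l)⁻¹) (-(l : ℝ) * (a ^ (l + 1))⁻¹) a := by
    intro l a ha
    have ha0 : 0 < a := hs.trans_le ha
    have h1 := (hasDerivAt_pow l a).inv (by positivity)
    refine h1.congr_deriv ?_
    rcases l with _ | l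
    · simp
    · simp only [Nat.add_sub_cancel]
      field_simp
      ring
  refine conv_nl_radial (E := E) (φ := fun a => (a ^ k)⁻¹)
    (φ' := fun a => -(k : ℝ) * (a ^ (k + 1))⁻¹)
    (φ'' := fun a => (k : ℝ) * (k + 1) * (a ^ (k + 2))⁻¹) (s := s)
    (M := (k : ℝ) * (s ^ (k + 1))⁻¹ + (k : ℝ) * (k + 1) * (s ^ (k + 2))⁻¹)
    hs (fun a ha => hder k a ha) ?_ ?_ ?_ ?_ ?_ hf x
  · intro a ha
    have h1 := (hder (k + 1) a ha).const_mul (-(k : ℝ))
    refine h1.congr_deriv ?_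
    push_cast
    ring
  · apply ContinuousOn.mul continuousOn_const
    apply ContinuousOn.inv₀ (by fun_prop)
    intro a ha
    have ha0 : 0 < a := hs.trans_le ha
    positivity
  · refine ⟨0, (s ^ k)⁻¹, fun y => ?_⟩
    have hA : 0 < ‖y‖ ^ 2 + s := by positivity
    rw [pow_zero, mul_one, Real.norm_of_nonneg (by positivity)]
    apply inv_anti₀ (by positivity)
    gcongr
    nlinarith [sq_nonneg ‖y‖]
  · intro a ha
    have ha0 : 0 < a := hs.trans_le ha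
    have : (a ^ (k + 1))⁻¹ ≤ (s ^ (k + 1))⁻¹ := inv_anti₀ (by positivity) (by gcongr)
    have h2 : 0 < (a ^ (k + 1))⁻¹ := by positivity
    have h3 : 0 ≤ (k : ℝ) * (k + 1) * (s ^ (k + 2))⁻¹ := by positivity
    rw [abs_mul, abs_neg, abs_of_nonneg (Nat.cast_nonneg k), abs_of_pos h2]
    have : (k : ℝ) * (a ^ (k + 1))⁻¹ ≤ (k : ℝ) * (s ^ (k + 1))⁻¹ := by gcongr
    linarith
  · intro a ha
    have ha0 : 0 < a := hs.trans_le ha
    have : (a ^ (k + 2))⁻¹ ≤ (s ^ (k + 2))⁻¹ := inv_anti₀ (by positivity) (by gcongr)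
    have h2 : 0 < (a ^ (k + 2))⁻¹ := by positivity
    have h3 : 0 ≤ (k : ℝ) * (s ^ (k + 1))⁻¹ := by positivity
    rw [abs_of_nonneg (by positivity)]
    have : (k : ℝ) * (k + 1) * (a ^ (k + 2))⁻¹ ≤ (k : ℝ) * (k + 1) * (s ^ (k + 2))⁻¹ := by gcongr
    linarith

theorem pow_nl_left {k : ℕ} (hk : 2 * k < finrank ℝ E) {f : E → ℝ} (hf : RC 0 f) (x : E) :
    Tendsto (fun j => conv (fun y : E => ((‖y‖ ^ 2 + sj j) ^ k)⁻¹) f x) atTop
      (𝓝 (conv (Rk k) f x)) := by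
  have hne := ae_ne_zero (E := E) (by omega)
  apply conv_tendsto (κb := Rk k) (fun j => ?_) (tame_Rk hk) _ _ hf
  · intro j
    filter_upwards [hne] with y hy
    have hy0 : 0 < ‖y‖ := norm_pos_iff.2 hy
    have hs := sj_pos j
    rw [abs_of_pos (by positivity)]
    unfold Rk
    rw [pow_mul]
    apply inv_anti₀ (by positivity)
    gcongr
    linarith
  · filter_upwards [hne] with y hy
    have hy0 : 0 < ‖y‖ := norm_pos_iff.2 hy
    have h1 : Tendsto (fun j => ‖y‖ ^ 2 + sj j) atTop (𝓝 (‖y‖ ^ 2 + 0)) :=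
      sj_lim.const_add _
    rw [add_zero] at h1
    have h2 := (h1.pow k).inv₀ (by positivity)
    convert h2 using 2
    unfold Rk
    rw [pow_mul]
  · apply Measurable.aestronglyMeasurable; fun_prop

theorem pow_nl {k : ℕ} (hk : 2 * (k + 1) < finrank ℝ E) {f : E → ℝ} (hf : RC 2 f) (x : E) :
    conv (Rk k) (nl f) x
      = (2 * (k : ℝ) * ((finrank ℝ E : ℝ) - 2 * (k + 1))) * conv (Rk (k + 1)) f x := by
  set n : ℝ := (finrank ℝ E : ℝ) with hnn
  have hn0 : 0 ≤ n := by rw [hnn]; positivity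
  have hne := ae_ne_zero (E := E) (by omega)
  have hnlf : RC 0 (nl f) := RC.nl hf
  have hf0 : RC 0 f := hf.of_le (by omega)
  have L1 := pow_nl_left (E := E) (k := k) (by omega) hnlf x
  let κ : ℕ → E → ℝ := fun j y => -(2 * n * (-(k : ℝ) * ((‖y‖ ^ 2 + sj j) ^ (k + 1))⁻¹)
          + 4 * ‖y‖ ^ 2 * ((k : ℝ) * (k + 1) * ((‖y‖ ^ 2 + sj j) ^ (k + 2))⁻¹))
  have L2 : Tendsto (fun j => conv (κ j) f x) atTop
      (𝓝 (conv (fun y => (2 * (k : ℝ) * (n - 2 * (k + 1))) * Rk (k + 1) y) f x)) := by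
    have htb : Tame (fun y : E => (2 * n * k + 4 * (k * (k + 1))) * Rk (k + 1) y) :=
      (tame_Rk hk).const_mul _
    refine conv_tendsto (κb := fun y : E => (2 * n * k + 4 * (k * (k + 1))) * Rk (k + 1) y)
      (fun j => ?_) htb ?_ ?_ hf0 x
    · apply Measurable.aestronglyMeasurable
      simp only [κ]; fun_prop
    · intro j
      filter_upwards [hne] with y hy
      have hy0 : 0 < ‖y‖ := norm_pos_iff.2 hy
      have hs := sj_pos j
      change |-(2 * n * (-(k : ℝ) * ((‖y‖ ^ 2 + sj j) ^ (k + 1))⁻¹)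
          + 4 * ‖y‖ ^ 2 * ((k : ℝ) * (k + 1) * ((‖y‖ ^ 2 + sj j) ^ (k + 2))⁻¹))|
        ≤ (2 * n * k + 4 * (k * (k + 1))) * (‖y‖ ^ (2 * (k + 1)))⁻¹
      rw [pow_mul]
      set s := sj j
      set z := ‖y‖
      have hA : 0 < z ^ 2 + s := by positivity
      have hA2 : z ^ 2 ≤ z ^ 2 + s := by linarith
      have e : -(2 * n * (-(k : ℝ) * ((z ^ 2 + s) ^ (k + 1))⁻¹)
          + 4 * z ^ 2 * ((k : ℝ) * (k + 1) * ((z ^ 2 + s) ^ (k + 2))⁻¹))
        = 2 * n * k * ((z ^ 2 + s) ^ (k + 1))⁻¹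
          - 4 * (k * (k + 1)) * (z ^ 2 / (z ^ 2 + s)) * ((z ^ 2 + s) ^ (k + 1))⁻¹ := by
        field_simp
        ring
      have e2 : z ^ 2 / (z ^ 2 + s) ≤ 1 := (div_le_one hA).2 hA2
      have e3 : 0 ≤ z ^ 2 / (z ^ 2 + s) := by positivity
      have e4 : ((z ^ 2 + s) ^ (k + 1))⁻¹ ≤ ((z ^ 2) ^ (k + 1))⁻¹ :=
        inv_anti₀ (by positivity) (by gcongr)
      have e5 : 0 < ((z ^ 2 + s) ^ (k + 1))⁻¹ := by positivity
      rw [e]
      calc |2 * n * k * ((z ^ 2 + s) ^ (k + 1))⁻¹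
          - 4 * (k * (k + 1)) * (z ^ 2 / (z ^ 2 + s)) * ((z ^ 2 + s) ^ (k + 1))⁻¹|
          ≤ |2 * n * k * ((z ^ 2 + s) ^ (k + 1))⁻¹|
            + |4 * (k * (k + 1)) * (z ^ 2 / (z ^ 2 + s)) * ((z ^ 2 + s) ^ (k + 1))⁻¹| :=
            abs_sub _ _
        _ = 2 * n * k * ((z ^ 2 + s) ^ (k + 1))⁻¹
            + 4 * (k * (k + 1)) * (z ^ 2 / (z ^ 2 + s)) * ((z ^ 2 + s) ^ (k + 1))⁻¹ := by
            rw [abs_of_nonneg (by positivity), abs_of_nonneg (by positivity)]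
        _ ≤ 2 * n * k * ((z ^ 2) ^ (k + 1))⁻¹
            + 4 * (k * (k + 1)) * 1 * ((z ^ 2) ^ (k + 1))⁻¹ := by gcongr
        _ = _ := by ring
    · filter_upwards [hne] with y hy
      have hy0 : 0 < ‖y‖ := norm_pos_iff.2 hy
      have h1 : Tendsto (fun j => ‖y‖ ^ 2 + sj j) atTop (𝓝 (‖y‖ ^ 2 + 0)) :=
        sj_lim.const_add _
      rw [add_zero] at h1
      have h2 := ((((h1.pow (k + 1)).inv₀ (by positivity)).const_mul (-(k : ℝ))).const_mul
        (2 * n)).add ((((h1.pow (k + 2)).inv₀ (by positivity)).const_mul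
          ((k : ℝ) * (k + 1))).const_mul (4 * ‖y‖ ^ 2))
      have h3 := h2.neg
      convert h3 using 2
      unfold Rk
      rw [pow_mul]
      field_simp
      ring
  have hEq : ∀ j, conv (fun y : E => ((‖y‖ ^ 2 + sj j) ^ k)⁻¹) (nl f) x = conv (κ j) f x :=
    fun j => pow_nl_reg (sj_pos j) hf x
  simp only [hEq] at L1
  have := tendsto_nhds_unique L1 L2
  rw [this, conv_const_mul]

/-- The constant in the last step. -/
noncomputable def cE (E : Type) [NormedAddCommGroup E] [InnerProductSpace ℝ E]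
    [FiniteDimensional ℝ E] [MeasurableSpace E] [BorelSpace E] (k : ℕ) : ℝ :=
  ∫ y : E, ((‖y‖ ^ 2 + 1) ^ (k + 2))⁻¹

theorem cE_integrable {k : ℕ} (hk : finrank ℝ E = 2 * (k + 1)) :
    Integrable (fun y : E => ((‖y‖ ^ 2 + 1) ^ (k + 2))⁻¹) := by
  have h := integrable_rpow_neg_one_add_norm_sq (E := E) (μ := volume)
    (r := 2 * ((k : ℝ) + 2)) (by rw [hk]; push_cast; linarith)
  refine h.congr (Eventually.of_forall fun y => ?_)
  simp only
  have : -(2 * ((k : ℝ) + 2)) / 2 = -((k + 2 : ℕ) : ℝ) := by push_cast; ring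
  rw [this, rpow_neg (by positivity), rpow_natCast, add_comm]

theorem cE_pos {k : ℕ} (hk : finrank ℝ E = 2 * (k + 1)) : 0 < cE E k := by
  unfold cE
  have hpos : ∀ y : E, 0 < ((‖y‖ ^ 2 + 1) ^ (k + 2))⁻¹ := fun y => by positivity
  rw [integral_pos_iff_support_of_nonneg (fun y => (hpos y).le) (cE_integrable hk)]
  have : Function.support (fun y : E => ((‖y‖ ^ 2 + 1) ^ (k + 2))⁻¹) = univ := by
    ext y
    simp only [Function.mem_support, mem_univ, iff_true]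
    exact (hpos y).ne'
  rw [this]
  exact isOpen_univ.measure_pos volume univ_nonempty

theorem pow_nl_last {k : ℕ} (hk : finrank ℝ E = 2 * (k + 1)) {f : E → ℝ} (hf : RC 2 f) (x : E) :
    conv (Rk k) (nl f) x = (4 * (k : ℝ) * (k + 1) * cE E k) * f x := by
  have hnlf : RC 0 (nl f) := RC.nl hf
  have hf0 : RC 0 f := hf.of_le (by omega)
  have L1 := pow_nl_left (E := E) (k := k) (by omega) hnlf x
  have hEq : ∀ j, conv (fun y : E => ((‖y‖ ^ 2 + sj j) ^ k)⁻¹) (nl f) x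
      = 4 * (k : ℝ) * (k + 1) * ∫ u : E, ((‖u‖ ^ 2 + 1) ^ (k + 2))⁻¹
          * f (x - (1 / ((j : ℝ) + 1)) • u) := by
    intro j
    rw [pow_nl_reg (sj_pos j) hf x, hk]
    set σ : ℝ := 1 / ((j : ℝ) + 1) with hσ
    have hσ0 : 0 < σ := by positivity
    have hs : sj j = σ ^ 2 := rfl
    rw [hs]
    have e1 : conv (fun y : E => -(2 * ((2 * (k + 1) : ℕ) : ℝ)
          * (-(k : ℝ) * ((‖y‖ ^ 2 + σ ^ 2) ^ (k + 1))⁻¹)
          + 4 * ‖y‖ ^ 2 * ((k : ℝ) * (k + 1) * ((‖y‖ ^ 2 + σ ^ 2) ^ (k + 2))⁻¹))) f x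
        = ∫ y : E, 4 * (k : ℝ) * (k + 1) * (σ ^ 2 * ((‖y‖ ^ 2 + σ ^ 2) ^ (k + 2))⁻¹
            * f (x - y)) := by
      unfold conv
      apply integral_congr_ae
      refine Eventually.of_forall fun y => ?_
      have hA : 0 < ‖y‖ ^ 2 + σ ^ 2 := by positivity
      simp only [smul_eq_mul]
      push_cast
      field_simp
      ring
    rw [e1, integral_const_mul]
    congr 1
    have h2 := Measure.integral_comp_smul (μ := (volume : Measure E))
      (fun y : E => σ ^ 2 * ((‖y‖ ^ 2 + σ ^ 2) ^ (k + 2))⁻¹ * f (x - y)) σ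
    rw [hk] at h2
    have h3 : ∫ y : E, σ ^ 2 * ((‖y‖ ^ 2 + σ ^ 2) ^ (k + 2))⁻¹ * f (x - y)
        = σ ^ (2 * (k + 1)) * ∫ y : E, σ ^ 2 * ((‖σ • y‖ ^ 2 + σ ^ 2) ^ (k + 2))⁻¹
            * f (x - σ • y) := by
      rw [h2, abs_of_pos (by positivity), smul_eq_mul]
      field_simp
    rw [h3, ← integral_const_mul]
    apply integral_congr_ae
    refine Eventually.of_forall fun y => ?_
    simp only
    rw [norm_smul, Real.norm_of_nonneg hσ0.le]
    have e4 : ((σ * ‖y‖) ^ 2 + σ ^ 2) ^ (k + 2) = σ ^ (2 * (k + 1)) * σ ^ 2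
        * (‖y‖ ^ 2 + 1) ^ (k + 2) := by
      have : (σ * ‖y‖) ^ 2 + σ ^ 2 = σ ^ 2 * (‖y‖ ^ 2 + 1) := by ring
      rw [this, mul_pow]
      ring
    rw [e4]
    field_simp
  simp only [hEq] at L1
  -- limit of the right side
  have L2 : Tendsto (fun j : ℕ => 4 * (k : ℝ) * (k + 1) * ∫ u : E, ((‖u‖ ^ 2 + 1) ^ (k + 2))⁻¹
          * f (x - (1 / ((j : ℝ) + 1)) • u)) atTop
      (𝓝 (4 * (k : ℝ) * (k + 1) * ∫ u : E, ((‖u‖ ^ 2 + 1) ^ (k + 2))⁻¹ * f x)) := by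
    apply Tendsto.const_mul
    obtain ⟨C, hC⟩ := hf0.2 0
    have hC' : ∀ y, |f y| ≤ C := fun y => by simpa using hC y
    apply tendsto_integral_of_dominated_convergence
      (fun u : E => ((‖u‖ ^ 2 + 1) ^ (k + 2))⁻¹ * C)
    · intro j
      apply Continuous.aestronglyMeasurable
      have h1 : Continuous (fun u : E => ((‖u‖ ^ 2 + 1) ^ (k + 2))⁻¹) := by
        apply Continuous.inv₀ (by fun_prop)
        intro u
        positivity
      exact h1.mul (hf0.1.comp (by fun_prop))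
    · exact (cE_integrable hk).mul_const C
    · intro j
      refine Eventually.of_forall fun u => ?_
      rw [norm_mul, Real.norm_of_nonneg (by positivity : 0 ≤ ((‖u‖ ^ 2 + 1) ^ (k + 2))⁻¹)]
      gcongr
      exact hC' _
    · refine Eventually.of_forall fun u => ?_
      apply Tendsto.const_mul
      have h1 : Tendsto (fun j : ℕ => x - (1 / ((j : ℝ) + 1)) • u) atTop (𝓝 (x - (0 : ℝ) • u)) :=
        ((tendsto_one_div_add_atTop_nhds_zero_nat (𝕜 := ℝ)).smul_const u).const_sub x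
      rw [zero_smul, sub_zero] at h1
      exact (hf0.1.tendsto x).comp h1
  have := tendsto_nhds_unique L1 L2
  rw [this, integral_mul_const]
  unfold cE
  ring

/-- The fundamental solution identity: in dimension `2m`, `m ≥ 2`, there is `γ > 0` with
`(-Δ)^m (-log ‖·‖ * f) = γ f` for all smooth rapidly decreasing `f`. -/
theorem exists_gamma {m : ℕ} (hm : 2 ≤ m) (hE : finrank ℝ E = 2 * m) :
    ∃ γ : ℝ, 0 < γ ∧ ∀ f : E → ℝ, RS f → nl^[m] (conv Lk f) = fun x => γ * f x := by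
  have step : ∀ k : ℕ, k + 1 < m → ∃ c : ℝ, 0 < c ∧ ∀ f : E → ℝ, RS f → ∀ x,
      conv Lk (nl^[k + 1] f) x = c * conv (Rk (k + 1)) f x := by
    intro k
    induction k with
    | zero =>
      intro hk
      refine ⟨(finrank ℝ E : ℝ) - 2, ?_, fun f hf x => ?_⟩
      · rw [hE]
        have : (2 : ℝ) ≤ m := by exact_mod_cast hm
        push_cast
        linarith
      · exact log_nl (by omega) (hf 2) x
    | succ k ih =>
      intro hk
      obtain ⟨c, hc, h⟩ := ih (by omega)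
      refine ⟨c * (2 * ((k + 1 : ℕ) : ℝ) * ((finrank ℝ E : ℝ) - 2 * (((k + 1 : ℕ) : ℝ) + 1))),
        ?_, fun f hf x => ?_⟩
      · rw [hE]
        have : ((k : ℝ) + 2) < m := by exact_mod_cast hk
        apply mul_pos hc
        push_cast
        apply mul_pos (by positivity)
        linarith
      · rw [Function.iterate_succ_apply, h (nl f) hf.nl x, pow_nl (by omega) (hf 2) x]
        ring
  -- the case m = 2 needs no intermediate step beyond k = 1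
  obtain ⟨k, rfl⟩ : ∃ k, m = k + 2 := ⟨m - 2, by omega⟩
  obtain ⟨c, hc, h⟩ := step k (by omega)
  have hk' : finrank ℝ E = 2 * ((k + 1) + 1) := by rw [hE]
  refine ⟨c * (4 * ((k + 1 : ℕ) : ℝ) * (((k + 1 : ℕ) : ℝ) + 1) * cE E (k + 1)), ?_,
    fun f hf => ?_⟩
  · have := cE_pos hk'
    positivity
  · rw [nl_iterate_conv (tame_Lk (by omega)) hf]
    ext x
    have e : nl^[k + 2] f = nl^[k + 1] (nl f) := Function.iterate_succ_apply _ _ _
    rw [e, h (nl f) hf.nl x, pow_nl_last hk' (hf 2) x]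
    ring

end Pool.Agent.Lib.MP_d898c1_an
end

section

/-!
The averaged logarithmic kernel: elementary estimates.
-/

set_option autoImplicit false
set_option linter.unusedSectionVars false

open MeasureTheory Set Filter Topology Real Module
open scoped InnerProductSpace

namespace Pool.Agent.Lib.MP_d898c1_an

variable {E : Type} [NormedAddCommGroup E] [InnerProductSpace ℝ E]

/-- A pair of orthonormal vectors. -/
structure ON2 (e₀ e₁ : E) : Prop where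
  n0 : ‖e₀‖ = 1
  n1 : ‖e₁‖ = 1
  orth : inner ℝ e₀ e₁ = 0

/-- The component in the plane of `e₀, e₁`, as a complex number. -/
noncomputable def zc (e₀ e₁ x : E) : ℂ := ⟨inner ℝ e₀ x, inner ℝ e₁ x⟩

/-- Distance to the axis. -/
noncomputable def rr (e₀ e₁ x : E) : ℝ := ‖zc e₀ e₁ x‖

/-- The orthogonal component. -/
noncomputable def qc (e₀ e₁ x : E) : E := x - inner ℝ e₀ x • e₀ - inner ℝ e₁ x • e₁

/-- Euclidean combination of a number and a vector. -/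
noncomputable def N2 (s : ℝ) (v : E) : ℝ := √(s ^ 2 + ‖v‖ ^ 2)

variable {e₀ e₁ : E}

theorem rr_sq (x : E) : rr e₀ e₁ x ^ 2 = inner ℝ e₀ x ^ 2 + inner ℝ e₁ x ^ 2 := by
  unfold rr zc
  rw [Complex.sq_norm, Complex.normSq_mk]; ring

theorem rr_nonneg (x : E) : 0 ≤ rr e₀ e₁ x := norm_nonneg _

theorem zc_sub (x y : E) : zc e₀ e₁ (x - y) = zc e₀ e₁ x - zc e₀ e₁ y := by
  unfold zc
  apply Complex.ext <;> simp [inner_sub_right]

theorem qc_sub (x y : E) : qc e₀ e₁ (x - y) = qc e₀ e₁ x - qc e₀ e₁ y := by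
  unfold qc
  simp only [inner_sub_right, sub_smul]
  abel

theorem norm_sq_split (h : ON2 e₀ e₁) (x : E) :
    ‖x‖ ^ 2 = rr e₀ e₁ x ^ 2 + ‖qc e₀ e₁ x‖ ^ 2 := by
  rw [rr_sq]
  unfold qc
  set a := inner ℝ e₀ x with ha
  set b := inner ℝ e₁ x with hb
  rw [← real_inner_self_eq_norm_sq (x - a • e₀ - b • e₁)]
  have i00 : inner ℝ e₀ e₀ = (1 : ℝ) := by rw [real_inner_self_eq_norm_sq, h.n0]; norm_num
  have i11 : inner ℝ e₁ e₁ = (1 : ℝ) := by rw [real_inner_self_eq_norm_sq, h.n1]; norm_num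
  have i10 : inner ℝ e₁ e₀ = (0 : ℝ) := by rw [real_inner_comm]; exact h.orth
  have hxa : inner ℝ x e₀ = a := by rw [real_inner_comm]
  have hxb : inner ℝ x e₁ = b := by rw [real_inner_comm]
  simp only [inner_sub_left, inner_sub_right, inner_smul_left, inner_smul_right, i00, i11, i10,
    h.orth, hxa, hxb, real_inner_self_eq_norm_sq, ← ha, ← hb]
  simp
  ring

theorem norm_sub_sq_split (h : ON2 e₀ e₁) (x y : E) :
    ‖x - y‖ ^ 2 = ‖zc e₀ e₁ x - zc e₀ e₁ y‖ ^ 2 + ‖qc e₀ e₁ x - qc e₀ e₁ y‖ ^ 2 := by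
  rw [norm_sq_split h, qc_sub, rr, zc_sub]

theorem N2_nonneg (s : ℝ) (v : E) : 0 ≤ N2 s v := sqrt_nonneg _

theorem N2_sq (s : ℝ) (v : E) : N2 s v ^ 2 = s ^ 2 + ‖v‖ ^ 2 := by
  unfold N2; rw [sq_sqrt (by positivity)]

theorem N2_eq_norm (s : ℝ) (v : E) : N2 s v = ‖(⟨s, ‖v‖⟩ : ℂ)‖ := by
  unfold N2
  rw [Complex.norm_eq_sqrt_sq_add_sq]

theorem N2_sub_le (s s' : ℝ) (v v' : E) : |N2 s v - N2 s' v'| ≤ N2 (s - s') (v - v') := by
  rw [N2_eq_norm s v, N2_eq_norm s' v']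
  refine (abs_norm_sub_norm_le _ _).trans ?_
  have e : (⟨s, ‖v‖⟩ : ℂ) - ⟨s', ‖v'‖⟩ = ⟨s - s', ‖v‖ - ‖v'‖⟩ := by
    apply Complex.ext <;> simp
  rw [e, Complex.norm_eq_sqrt_sq_add_sq]
  unfold N2
  apply sqrt_le_sqrt
  have h1 := abs_norm_sub_norm_le v v'
  have h2 : (‖v‖ - ‖v'‖) ^ 2 ≤ ‖v - v'‖ ^ 2 := by
    rw [← sq_abs]
    gcongr
  simpa using h2

theorem N2_le (s : ℝ) (v : E) : N2 s v ≤ |s| + ‖v‖ := by
  unfold N2
  rw [sqrt_le_left (by positivity)]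
  nlinarith [sq_abs s, mul_nonneg (abs_nonneg s) (norm_nonneg v)]

theorem abs_le_N2 (s : ℝ) (v : E) : |s| ≤ N2 s v := by
  unfold N2
  apply le_sqrt_of_sq_le
  nlinarith [sq_abs s, sq_nonneg ‖v‖]

/-- Nearest and farthest distances. -/
noncomputable def aa (e₀ e₁ x y : E) : ℝ :=
  N2 (rr e₀ e₁ x - rr e₀ e₁ y) (qc e₀ e₁ x - qc e₀ e₁ y)
noncomputable def bb (e₀ e₁ x y : E) : ℝ :=
  N2 (rr e₀ e₁ x + rr e₀ e₁ y) (qc e₀ e₁ x - qc e₀ e₁ y)

/-- The averaged kernel. -/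
noncomputable def KK (e₀ e₁ x y : E) : ℝ := -log ((aa e₀ e₁ x y + bb e₀ e₁ x y) / 2)

/-- The kernel against the unit circle. -/
noncomputable def AC (e₀ e₁ x : E) : ℝ :=
  N2 (rr e₀ e₁ x - 1) (qc e₀ e₁ x) + N2 (rr e₀ e₁ x + 1) (qc e₀ e₁ x)
noncomputable def KC (e₀ e₁ x : E) : ℝ := -log (AC e₀ e₁ x / 2)

/-- Distance to the unit circle (up to constants). -/
noncomputable def DC (e₀ e₁ y : E) : ℝ := |rr e₀ e₁ y - 1| + ‖qc e₀ e₁ y‖

/-- The potential `p`. -/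
noncomputable def pp (e₀ e₁ x : E) : ℝ := (rr e₀ e₁ x ^ 2 - 1) ^ 2 + ‖qc e₀ e₁ x‖ ^ 2

theorem aa_nonneg (x y : E) : 0 ≤ aa e₀ e₁ x y := N2_nonneg _ _
theorem bb_nonneg (x y : E) : 0 ≤ bb e₀ e₁ x y := N2_nonneg _ _

theorem aa_le_bb (x y : E) : aa e₀ e₁ x y ≤ bb e₀ e₁ x y := by
  unfold aa bb N2
  apply sqrt_le_sqrt
  have h1 := rr_nonneg (e₀ := e₀) (e₁ := e₁) x
  have h2 := rr_nonneg (e₀ := e₀) (e₁ := e₁) y
  nlinarith [mul_nonneg h1 h2]

theorem norm_sub_le_bb (h : ON2 e₀ e₁) (x y : E) : ‖x - y‖ ≤ bb e₀ e₁ x y := by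
  have h3 := norm_sub_sq_split h x y
  have h4 : ‖zc e₀ e₁ x - zc e₀ e₁ y‖ ≤ rr e₀ e₁ x + rr e₀ e₁ y := norm_sub_le _ _
  have h5 := N2_sq (rr e₀ e₁ x + rr e₀ e₁ y) (qc e₀ e₁ x - qc e₀ e₁ y)
  apply le_of_sq_le_sq _ (bb_nonneg x y)
  unfold bb
  rw [h5, h3]
  have : ‖zc e₀ e₁ x - zc e₀ e₁ y‖ ^ 2 ≤ (rr e₀ e₁ x + rr e₀ e₁ y) ^ 2 := by gcongr
  linarith

theorem bb_le (h : ON2 e₀ e₁) (x y : E) : bb e₀ e₁ x y ≤ ‖x‖ + ‖y‖ := by
  have h5 := N2_sq (rr e₀ e₁ x + rr e₀ e₁ y) (qc e₀ e₁ x - qc e₀ e₁ y)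
  apply le_of_sq_le_sq _ (by positivity)
  unfold bb
  rw [h5]
  have hx := norm_sq_split h x
  have hy := norm_sq_split h y
  have q1 : ‖qc e₀ e₁ x - qc e₀ e₁ y‖ ≤ ‖qc e₀ e₁ x‖ + ‖qc e₀ e₁ y‖ := norm_sub_le _ _
  have q2 : ‖qc e₀ e₁ x - qc e₀ e₁ y‖ ^ 2 ≤ (‖qc e₀ e₁ x‖ + ‖qc e₀ e₁ y‖) ^ 2 := by gcongr
  have cs : rr e₀ e₁ x * rr e₀ e₁ y + ‖qc e₀ e₁ x‖ * ‖qc e₀ e₁ y‖ ≤ ‖x‖ * ‖y‖ := by
    apply le_of_sq_le_sq _ (by positivity)
    rw [mul_pow, hx, hy]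
    nlinarith [sq_nonneg (rr e₀ e₁ x * ‖qc e₀ e₁ y‖ - rr e₀ e₁ y * ‖qc e₀ e₁ x‖)]
  nlinarith

theorem log_sub_le {A B : ℝ} (hA : 0 < A) (hB : 0 < B) :
    |log A - log B| ≤ |A - B| * (A⁻¹ + B⁻¹) := by
  have h1 : log A - log B ≤ (A - B) * B⁻¹ := by
    rw [← log_div hA.ne' hB.ne']
    have := log_le_sub_one_of_pos (div_pos hA hB)
    calc log (A / B) ≤ A / B - 1 := this
      _ = _ := by field_simp
  have h2 : log B - log A ≤ (B - A) * A⁻¹ := by
    rw [← log_div hB.ne' hA.ne']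
    have := log_le_sub_one_of_pos (div_pos hB hA)
    calc log (B / A) ≤ B / A - 1 := this
      _ = _ := by field_simp
  have iA : 0 < A⁻¹ := inv_pos.2 hA
  have iB : 0 < B⁻¹ := inv_pos.2 hB
  have h3 : (A - B) * B⁻¹ ≤ |A - B| * B⁻¹ := by gcongr; exact le_abs_self _
  have h4 : (B - A) * A⁻¹ ≤ |A - B| * A⁻¹ := by
    gcongr
    rw [← neg_sub A B]; exact neg_le_abs _
  have h5 : 0 ≤ |A - B| * A⁻¹ := by positivity
  have h6 : 0 ≤ |A - B| * B⁻¹ := by positivity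
  rw [abs_le]
  constructor <;> nlinarith

theorem KK_sub_KK {A A' : ℝ} (hA : 0 < A) (hA' : 0 < A') :
    |-log (A / 2) - -log (A' / 2)| ≤ |A - A'| * (A⁻¹ + A'⁻¹) := by
  have e : -log (A / 2) - -log (A' / 2) = -(log A - log A') := by
    rw [log_div hA.ne' two_ne_zero, log_div hA'.ne' two_ne_zero]; ring
  rw [e, abs_neg]
  exact log_sub_le hA hA'

theorem rr_qc_dist_le (h : ON2 e₀ e₁) (x x' : E) :
    N2 (rr e₀ e₁ x - rr e₀ e₁ x') (qc e₀ e₁ x - qc e₀ e₁ x') ≤ ‖x - x'‖ := by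
  have h5 := N2_sq (rr e₀ e₁ x - rr e₀ e₁ x') (qc e₀ e₁ x - qc e₀ e₁ x')
  apply le_of_sq_le_sq _ (norm_nonneg _)
  rw [h5, norm_sub_sq_split h x x']
  have : |rr e₀ e₁ x - rr e₀ e₁ x'| ≤ ‖zc e₀ e₁ x - zc e₀ e₁ x'‖ := abs_norm_sub_norm_le _ _
  have h2 : (rr e₀ e₁ x - rr e₀ e₁ x') ^ 2 ≤ ‖zc e₀ e₁ x - zc e₀ e₁ x'‖ ^ 2 := by
    rw [← sq_abs]; gcongr
  linarith

/-- Lipschitz estimate in the first variable. -/
theorem KK_lip (h : ON2 e₀ e₁) {x x' y : E} (hx : x ≠ y) (hx' : x' ≠ y) :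
    |KK e₀ e₁ x y - KK e₀ e₁ x' y| ≤ 2 * ‖x - x'‖ * (‖x - y‖⁻¹ + ‖x' - y‖⁻¹) := by
  have p1 : 0 < ‖x - y‖ := norm_pos_iff.2 (sub_ne_zero.2 hx)
  have p2 : 0 < ‖x' - y‖ := norm_pos_iff.2 (sub_ne_zero.2 hx')
  have b1 := norm_sub_le_bb h x y
  have b2 := norm_sub_le_bb h x' y
  have a1 := aa_nonneg (e₀ := e₀) (e₁ := e₁) x y
  have a2 := aa_nonneg (e₀ := e₀) (e₁ := e₁) x' y
  have A1 : ‖x - y‖ ≤ aa e₀ e₁ x y + bb e₀ e₁ x y := by linarith
  have A2 : ‖x' - y‖ ≤ aa e₀ e₁ x' y + bb e₀ e₁ x' y := by linarith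
  have hA : 0 < aa e₀ e₁ x y + bb e₀ e₁ x y := by linarith
  have hA' : 0 < aa e₀ e₁ x' y + bb e₀ e₁ x' y := by linarith
  have d := rr_qc_dist_le h x x'
  have da : |aa e₀ e₁ x y - aa e₀ e₁ x' y| ≤ ‖x - x'‖ := by
    unfold aa
    refine (N2_sub_le _ _ _ _).trans ?_
    have e1 : rr e₀ e₁ x - rr e₀ e₁ y - (rr e₀ e₁ x' - rr e₀ e₁ y)
        = rr e₀ e₁ x - rr e₀ e₁ x' := by ring
    have e2 : qc e₀ e₁ x - qc e₀ e₁ y - (qc e₀ e₁ x' - qc e₀ e₁ y)
        = qc e₀ e₁ x - qc e₀ e₁ x' := by abel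
    rw [e1, e2]; exact d
  have db : |bb e₀ e₁ x y - bb e₀ e₁ x' y| ≤ ‖x - x'‖ := by
    unfold bb
    refine (N2_sub_le _ _ _ _).trans ?_
    have e1 : rr e₀ e₁ x + rr e₀ e₁ y - (rr e₀ e₁ x' + rr e₀ e₁ y)
        = rr e₀ e₁ x - rr e₀ e₁ x' := by ring
    have e2 : qc e₀ e₁ x - qc e₀ e₁ y - (qc e₀ e₁ x' - qc e₀ e₁ y)
        = qc e₀ e₁ x - qc e₀ e₁ x' := by abel
    rw [e1, e2]; exact d
  unfold KK
  refine (KK_sub_KK hA hA').trans ?_
  have dd : |aa e₀ e₁ x y + bb e₀ e₁ x y - (aa e₀ e₁ x' y + bb e₀ e₁ x' y)|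
      ≤ 2 * ‖x - x'‖ := by
    rw [abs_le] at *
    constructor <;> linarith [da.1, da.2, db.1, db.2]
  gcongr

/-- Comparison with the circle. -/
theorem KK_near (x : E) {y : E} (hy : 1 / 2 ≤ rr e₀ e₁ y) :
    |KK e₀ e₁ x y - KC e₀ e₁ x| ≤ 6 * DC e₀ e₁ y := by
  have hrx := rr_nonneg (e₀ := e₀) (e₁ := e₁) x
  have b1 : 1 / 2 ≤ bb e₀ e₁ x y := by
    unfold bb
    refine le_trans ?_ (abs_le_N2 _ _)
    rw [abs_of_nonneg (by linarith)]
    linarith
  have b2 : 1 ≤ N2 (rr e₀ e₁ x + 1) (qc e₀ e₁ x) := by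
    refine le_trans ?_ (abs_le_N2 _ _)
    rw [abs_of_nonneg (by linarith)]
    linarith
  have a1 := aa_nonneg (e₀ := e₀) (e₁ := e₁) x y
  have a2 := N2_nonneg (rr e₀ e₁ x - 1) (qc e₀ e₁ x)
  have A1 : 1 / 2 ≤ aa e₀ e₁ x y + bb e₀ e₁ x y := by linarith
  have A2 : 1 ≤ AC e₀ e₁ x := by unfold AC; linarith
  have hA : 0 < aa e₀ e₁ x y + bb e₀ e₁ x y := by linarith
  have hA' : 0 < AC e₀ e₁ x := by linarith
  have dN : N2 (rr e₀ e₁ y - 1) (qc e₀ e₁ y) ≤ DC e₀ e₁ y := N2_le _ _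
  have da : |aa e₀ e₁ x y - N2 (rr e₀ e₁ x - 1) (qc e₀ e₁ x)| ≤ DC e₀ e₁ y := by
    unfold aa
    refine (N2_sub_le _ _ _ _).trans (le_trans (le_of_eq ?_) dN)
    have e1 : rr e₀ e₁ x - rr e₀ e₁ y - (rr e₀ e₁ x - 1) = -(rr e₀ e₁ y - 1) := by ring
    have e2 : qc e₀ e₁ x - qc e₀ e₁ y - qc e₀ e₁ x = -qc e₀ e₁ y := by abel
    rw [e1, e2]; unfold N2; rw [neg_sq, norm_neg]
  have db : |bb e₀ e₁ x y - N2 (rr e₀ e₁ x + 1) (qc e₀ e₁ x)| ≤ DC e₀ e₁ y := by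
    unfold bb
    refine (N2_sub_le _ _ _ _).trans (le_trans (le_of_eq ?_) dN)
    have e1 : rr e₀ e₁ x + rr e₀ e₁ y - (rr e₀ e₁ x + 1) = (rr e₀ e₁ y - 1) := by ring
    have e2 : qc e₀ e₁ x - qc e₀ e₁ y - qc e₀ e₁ x = -qc e₀ e₁ y := by abel
    rw [e1, e2]; unfold N2; rw [norm_neg]
  unfold KK KC
  refine (KK_sub_KK hA hA').trans ?_
  have dd : |aa e₀ e₁ x y + bb e₀ e₁ x y - AC e₀ e₁ x| ≤ 2 * DC e₀ e₁ y := by
    unfold AC
    rw [abs_le] at *
    constructor <;> linarith [da.1, da.2, db.1, db.2]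
  have hD : 0 ≤ DC e₀ e₁ y := by unfold DC; positivity
  calc |aa e₀ e₁ x y + bb e₀ e₁ x y - AC e₀ e₁ x|
        * ((aa e₀ e₁ x y + bb e₀ e₁ x y)⁻¹ + (AC e₀ e₁ x)⁻¹)
      ≤ (2 * DC e₀ e₁ y) * ((1 / 2)⁻¹ + 1⁻¹) := by gcongr
    _ = _ := by norm_num; ring

theorem log_one_add_le {s : ℝ} (hs : 0 ≤ s) : log (1 + s) ≤ s := by
  have := log_le_sub_one_of_pos (by linarith : 0 < 1 + s)
  linarith

theorem log_one_add_nonneg {s : ℝ} (hs : 0 ≤ s) : 0 ≤ log (1 + s) := log_nonneg (by linarith)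

theorem KC_bound (h : ON2 e₀ e₁) (x : E) :
    |KC e₀ e₁ x + 1 / 2 * log (1 + ‖x‖ ^ 2)| ≤ 1 := by
  have hx := norm_sq_split h x
  have hrx := rr_nonneg (e₀ := e₀) (e₁ := e₁) x
  set b := N2 (rr e₀ e₁ x + 1) (qc e₀ e₁ x) with hb
  have hb2 : b ^ 2 = (rr e₀ e₁ x + 1) ^ 2 + ‖qc e₀ e₁ x‖ ^ 2 := N2_sq _ _
  have hb0 : 0 ≤ b := N2_nonneg _ _
  have l1 : 1 + ‖x‖ ^ 2 ≤ b ^ 2 := by rw [hb2, hx]; nlinarith
  have l2 : b ^ 2 ≤ 2 * (1 + ‖x‖ ^ 2) := by
    rw [hb2, hx]; nlinarith [sq_nonneg (rr e₀ e₁ x - 1), sq_nonneg ‖qc e₀ e₁ x‖]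
  have hbpos : 0 < b := by
    rcases hb0.eq_or_lt with h0 | h0
    · rw [← h0] at l1; nlinarith [sq_nonneg ‖x‖]
    · exact h0
  have a0 := N2_nonneg (rr e₀ e₁ x - 1) (qc e₀ e₁ x)
  have ab : N2 (rr e₀ e₁ x - 1) (qc e₀ e₁ x) ≤ b := by
    rw [hb]; unfold N2
    apply sqrt_le_sqrt
    nlinarith
  have hAC1 : b ≤ AC e₀ e₁ x := by unfold AC; linarith
  have hAC2 : AC e₀ e₁ x ≤ 2 * b := by unfold AC; linarith
  have hACpos : 0 < AC e₀ e₁ x := by linarith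
  have g1 : log (b / 2) ≤ log (AC e₀ e₁ x / 2) := log_le_log (by positivity) (by linarith)
  have g2 : log (AC e₀ e₁ x / 2) ≤ log b := log_le_log (by positivity) (by linarith)
  have g3 : 1 / 2 * log (1 + ‖x‖ ^ 2) ≤ log b := by
    have := log_le_log (by positivity) l1
    rw [log_pow] at this
    push_cast at this
    linarith
  have g4 : log b ≤ 1 / 2 * (log 2 + log (1 + ‖x‖ ^ 2)) := by
    have := log_le_log (by positivity) l2
    rw [log_pow, log_mul two_ne_zero (by positivity)] at this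
    push_cast at this
    linarith
  have g5 : log (b / 2) = log b - log 2 := log_div hbpos.ne' two_ne_zero
  have g6 : log 2 ≤ 1 := by
    have := log_le_sub_one_of_pos (by norm_num : (0 : ℝ) < 2)
    linarith
  unfold KC
  rw [abs_le]
  constructor <;> linarith

/-- Global bound for the normalised kernel. -/
theorem KK_bound (h : ON2 e₀ e₁) {x y : E} (hxy : x ≠ y) :
    |KK e₀ e₁ x y + 1 / 2 * log (1 + ‖x‖ ^ 2)| ≤ 2 + ‖y‖ ^ 2 + ‖x - y‖⁻¹ := by
  have hd : 0 < ‖x - y‖ := norm_pos_iff.2 (sub_ne_zero.2 hxy)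
  set d := ‖x - y‖ with hdd
  have b1 := norm_sub_le_bb h x y
  have b2 := bb_le h x y
  have a1 := aa_nonneg (e₀ := e₀) (e₁ := e₁) x y
  have ab := aa_le_bb (e₀ := e₀) (e₁ := e₁) x y
  set A := (aa e₀ e₁ x y + bb e₀ e₁ x y) / 2 with hA
  have hA1 : d / 2 ≤ A := by rw [hA]; linarith
  have hA2 : A ≤ ‖x‖ + ‖y‖ := by rw [hA]; linarith
  have hA0 : 0 < A := by linarith
  have hx0 := norm_nonneg x
  have hy0 := norm_nonneg y
  -- upper bound
  have u1 : log (d / 2) ≤ log A := log_le_log (by positivity) hA1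
  have u2 : 1 + ‖x‖ ^ 2 ≤ 2 * ((1 + ‖y‖ ^ 2) * (1 + d ^ 2)) := by
    have : ‖x‖ ≤ ‖y‖ + d := by
      calc ‖x‖ = ‖y + (x - y)‖ := by congr 1; abel
        _ ≤ _ := norm_add_le _ _
    have h2 : ‖x‖ ^ 2 ≤ (‖y‖ + d) ^ 2 := by gcongr
    nlinarith [sq_nonneg (‖y‖ - d), mul_nonneg (sq_nonneg ‖y‖) (sq_nonneg d)]
  have u3 : log (1 + ‖x‖ ^ 2) ≤ log 2 + (log (1 + ‖y‖ ^ 2) + log (1 + d ^ 2)) := by
    have := log_le_log (by positivity) u2
    rwa [log_mul two_ne_zero (by positivity), log_mul (by positivity) (by positivity)] at this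
  have u4 : log (1 + d ^ 2) ≤ 2 * log d + 2 * d⁻¹ := by
    have e1 : 1 + d ^ 2 ≤ (d * (1 + d⁻¹)) ^ 2 := by
      have : d * (1 + d⁻¹) = d + 1 := by field_simp
      rw [this]; nlinarith
    have := log_le_log (by positivity) e1
    rw [log_pow, log_mul hd.ne' (by positivity)] at this
    have h3 := log_one_add_le (inv_pos.2 hd).le
    push_cast at this
    linarith
  have u5 := log_one_add_le (sq_nonneg ‖y‖)
  have u5' := log_one_add_nonneg (sq_nonneg ‖y‖)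
  have g5 : log (d / 2) = log d - log 2 := log_div hd.ne' two_ne_zero
  have g6 : log 2 ≤ 1 := by
    have := log_le_sub_one_of_pos (by norm_num : (0 : ℝ) < 2)
    linarith
  -- lower bound
  have l1 : log A ≤ 1 / 2 * (log (1 + ‖x‖ ^ 2) + log (1 + ‖y‖ ^ 2)) := by
    have e1 : A ^ 2 ≤ (1 + ‖x‖ ^ 2) * (1 + ‖y‖ ^ 2) := by
      calc A ^ 2 ≤ (‖x‖ + ‖y‖) ^ 2 := by gcongr
        _ ≤ _ := by nlinarith [sq_nonneg (‖x‖ * ‖y‖ - 1)]
    have := log_le_log (by positivity) e1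
    rw [log_pow, log_mul (by positivity) (by positivity)] at this
    push_cast at this
    linarith
  have di : 0 < d⁻¹ := inv_pos.2 hd
  unfold KK
  rw [abs_le]
  constructor
  · nlinarith [sq_nonneg ‖y‖]
  · nlinarith [sq_nonneg ‖y‖]

theorem pp_ge (h : ON2 e₀ e₁) (x : E) : ‖x‖ ^ 2 - 2 ≤ pp e₀ e₁ x := by
  have hx := norm_sq_split h x
  unfold pp
  rw [hx]
  nlinarith [sq_nonneg (rr e₀ e₁ x ^ 2 - 3 / 2)]

theorem pp_nonneg (x : E) : 0 ≤ pp e₀ e₁ x := by unfold pp; positivity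

theorem pp_far {y : E} {δ : ℝ} (hδ : 0 ≤ δ) (hy : δ ≤ DC e₀ e₁ y) : δ ^ 2 / 2 ≤ pp e₀ e₁ y := by
  unfold DC at hy
  unfold pp
  have hr := rr_nonneg (e₀ := e₀) (e₁ := e₁) y
  set r := rr e₀ e₁ y
  set q := ‖qc e₀ e₁ y‖
  have hq : 0 ≤ q := norm_nonneg _
  have e1 : |r - 1| ^ 2 ≤ (r ^ 2 - 1) ^ 2 := by
    rw [sq_abs]
    have : (r ^ 2 - 1) ^ 2 = (r - 1) ^ 2 * (r + 1) ^ 2 := by ring
    rw [this]
    have h2 : 1 ≤ (r + 1) ^ 2 := by nlinarith
    nlinarith [sq_nonneg (r - 1)]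
  have e2 : δ ^ 2 ≤ (|r - 1| + q) ^ 2 := by gcongr
  nlinarith [sq_nonneg (|r - 1| - q), abs_nonneg (r - 1)]

end Pool.Agent.Lib.MP_d898c1_an
end

section

/-!
The concentration estimate and the contraction argument.
-/

set_option autoImplicit false
set_option linter.unusedSectionVars false

open MeasureTheory Set Filter Topology Real Module
open scoped InnerProductSpace BoundedContinuousFunction

namespace Pool.Agent.Lib.MP_d898c1_an

variable {E : Type} [NormedAddCommGroup E] [InnerProductSpace ℝ E] [FiniteDimensional ℝ E]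
  [MeasurableSpace E] [BorelSpace E] {e₀ e₁ : E}

theorem rr_eq (x : E) : rr e₀ e₁ x = √(inner ℝ e₀ x ^ 2 + inner ℝ e₁ x ^ 2) := by
  rw [← rr_sq, sqrt_sq (rr_nonneg x)]

theorem continuous_rr : Continuous (rr e₀ e₁ : E → ℝ) := by
  have : (rr e₀ e₁ : E → ℝ) = fun x => √(inner ℝ e₀ x ^ 2 + inner ℝ e₁ x ^ 2) := by
    ext x; exact rr_eq x
  rw [this]
  fun_prop

theorem continuous_qc : Continuous (qc e₀ e₁ : E → E) := by
  unfold qc; fun_prop

theorem continuous_pp : Continuous (pp e₀ e₁ : E → ℝ) := by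
  have h1 := continuous_rr (e₀ := e₀) (e₁ := e₁)
  have h2 := continuous_qc (e₀ := e₀) (e₁ := e₁)
  unfold pp
  fun_prop

theorem continuous_DC : Continuous (DC e₀ e₁ : E → ℝ) := by
  have h1 := continuous_rr (e₀ := e₀) (e₁ := e₁)
  have h2 := continuous_qc (e₀ := e₀) (e₁ := e₁)
  unfold DC
  fun_prop

theorem continuous_aabb : Continuous (fun p : E × E => aa e₀ e₁ p.1 p.2 + bb e₀ e₁ p.1 p.2) := by
  have h1 := continuous_rr (e₀ := e₀) (e₁ := e₁)
  have h2 := continuous_qc (e₀ := e₀) (e₁ := e₁)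
  unfold aa bb N2
  fun_prop

theorem measurable_KK (x : E) : Measurable (fun y => KK e₀ e₁ x y) := by
  have h0 := continuous_rr (e₀ := e₀) (e₁ := e₁)
  have h2 := continuous_qc (e₀ := e₀) (e₁ := e₁)
  have h1 : Continuous (fun y : E => aa e₀ e₁ x y + bb e₀ e₁ x y) := by
    unfold aa bb N2
    fun_prop
  unfold KK
  exact (measurable_log.comp (h1.measurable.div_const 2)).neg

/-- Gaussian. -/
noncomputable def Gs (b : ℝ) (y : E) : ℝ := exp (-b * ‖y‖ ^ 2)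

theorem Gs_pos (b : ℝ) (y : E) : 0 < Gs b y := exp_pos _

theorem Gs_continuous (b : ℝ) : Continuous (Gs b : E → ℝ) := by unfold Gs; fun_prop

theorem Gs_rapid {b : ℝ} (hb : 0 < b) : Rapid (Gs b : E → ℝ) := by
  intro N
  refine ⟨N.factorial * exp (1 + 1 / (4 * b)), fun y => ?_⟩
  have h1 := one_le_base y
  have hp : 0 < (1 + ‖y‖) ^ N := by positivity
  unfold Gs
  rw [Real.norm_of_nonneg (exp_pos _).le, le_div_iff₀ hp]
  have h2 : (1 + ‖y‖) ^ N / N.factorial ≤ exp (1 + ‖y‖) :=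
    Real.pow_div_factorial_le_exp _ (by positivity) N
  have h3 : (1 + ‖y‖) ^ N ≤ N.factorial * exp (1 + ‖y‖) := by
    rw [div_le_iff₀ (by positivity)] at h2; linarith
  calc exp (-b * ‖y‖ ^ 2) * (1 + ‖y‖) ^ N
      ≤ exp (-b * ‖y‖ ^ 2) * (N.factorial * exp (1 + ‖y‖)) := by gcongr
    _ = N.factorial * exp (-b * ‖y‖ ^ 2 + (1 + ‖y‖)) := by rw [exp_add (-b * ‖y‖ ^ 2)]; ring
    _ ≤ N.factorial * exp (1 + 1 / (4 * b)) := by
      refine mul_le_mul_of_nonneg_left (exp_le_exp.2 ?_) (by positivity)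
      have e : 1 / (4 * b) - (-b * ‖y‖ ^ 2 + ‖y‖) = b * (‖y‖ - 1 / (2 * b)) ^ 2 := by
        field_simp; ring
      have : 0 ≤ b * (‖y‖ - 1 / (2 * b)) ^ 2 := by positivity
      linarith

theorem Rapid.integrable {G : E → ℝ} (hG : Rapid G) (hGc : Continuous G) : Integrable G := by
  obtain ⟨C, hC⟩ := hG (finrank ℝ E + 1)
  refine ((integrable_base (E := E) (finrank ℝ E + 1) (by omega)).const_mul C).mono'
    hGc.aestronglyMeasurable (Eventually.of_forall fun y => ?_)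
  refine (hC y).trans (le_of_eq ?_)
  ring

theorem newton_bound (hn : 1 < finrank ℝ E) {G : E → ℝ} (hG : Rapid G) (hGc : Continuous G)
    (hG0 : ∀ y, 0 ≤ G y) :
    ∃ M, 0 ≤ M ∧ ∀ x, Integrable (fun y => ‖x - y‖⁻¹ * G y) ∧ ∫ y, ‖x - y‖⁻¹ * G y ≤ M := by
  have ht : Tame (fun y : E => (‖y‖ ^ 1)⁻¹) := tame_inv_pow hn
  obtain ⟨N, hN⟩ := id ht
  obtain ⟨C, hC⟩ := hG 0
  have hC' : ∀ x, G x ≤ C := fun x => by
    have := hC x
    rw [Real.norm_of_nonneg (hG0 x)] at this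
    simpa using this
  have hC0 : 0 ≤ C := (hG0 0).trans (hC' 0)
  have hGi : Integrable G := hG.integrable hGc
  have hNi : 0 ≤ ∫ y : E, (‖y‖ ^ 1)⁻¹ / (1 + ‖y‖) ^ N := integral_nonneg fun y => by positivity
  have hGn : 0 ≤ ∫ y, G y := integral_nonneg hG0
  refine ⟨2 ^ N * C * (∫ y : E, (‖y‖ ^ 1)⁻¹ / (1 + ‖y‖) ^ N) + ∫ y, G y, by positivity,
    fun x => ?_⟩
  have i1 : Integrable (fun z : E => ‖z‖⁻¹ * G (x - z)) := by
    have := conv_integrable ht hG hGc.aestronglyMeasurable x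
    simpa using this
  have i2 : Integrable (fun y : E => ‖x - y‖⁻¹ * G y) := by
    have := i1.comp_sub_left x
    simpa using this
  refine ⟨i2, ?_⟩
  have e1 : ∫ y : E, ‖x - y‖⁻¹ * G y = ∫ z : E, ‖z‖⁻¹ * G (x - z) := by
    have := integral_sub_left_eq_self (fun z : E => ‖z‖⁻¹ * G (x - z)) volume x
    simpa using this
  rw [e1]
  have i3 : Integrable (fun z : E => G (x - z)) := hGi.comp_sub_left x
  have e3 : ∫ z : E, G (x - z) = ∫ z, G z := integral_sub_left_eq_self G volume x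
  rw [← e3, ← integral_const_mul, ← integral_add (hN.const_mul _) i3]
  refine integral_mono i1 ((hN.const_mul _).add i3) fun z => ?_
  simp only
  have hz0 : 0 ≤ ‖z‖⁻¹ := by positivity
  have hg := hG0 (x - z)
  rcases le_or_gt ‖z‖ 1 with hz | hz
  · have h2 : (1 + ‖z‖) ^ N ≤ 2 ^ N := by
      have := norm_nonneg z
      gcongr; linarith
    have h3 : 1 ≤ 2 ^ N / (1 + ‖z‖) ^ N := by
      rw [le_div_iff₀ (by positivity)]; linarith
    calc ‖z‖⁻¹ * G (x - z) ≤ ‖z‖⁻¹ * C := by gcongr; exact hC' _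
      _ = (‖z‖⁻¹ * C) * 1 := by ring
      _ ≤ (‖z‖⁻¹ * C) * (2 ^ N / (1 + ‖z‖) ^ N) := by gcongr
      _ = 2 ^ N * C * ((‖z‖ ^ 1)⁻¹ / (1 + ‖z‖) ^ N) := by rw [pow_one]; ring
      _ ≤ _ := by linarith
  · have h2 : ‖z‖⁻¹ ≤ 1 := inv_le_one_of_one_le₀ hz.le
    calc ‖z‖⁻¹ * G (x - z) ≤ 1 * G (x - z) := by gcongr
      _ = 0 + G (x - z) := by ring
      _ ≤ _ := by gcongr; positivity

/-- Weight bounding the kernels. -/
noncomputable def BB (x y : E) : ℝ := 3 + ‖y‖ ^ 2 + ‖x - y‖⁻¹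

theorem BB_nonneg (x y : E) : 0 ≤ BB x y := by unfold BB; positivity

theorem BB_ge (x y : E) : 3 ≤ BB x y := by
  unfold BB
  have : 0 ≤ ‖x - y‖⁻¹ := by positivity
  nlinarith [sq_nonneg ‖y‖]

theorem BB_measurable (x : E) : Measurable (fun y => BB x y) := by
  unfold BB
  fun_prop

theorem BB_bound (hn : 1 < finrank ℝ E) {b : ℝ} (hb : 0 < b) :
    ∃ M, 0 ≤ M ∧ ∀ x : E, Integrable (fun y => BB x y * Gs b y) ∧ ∫ y, BB x y * Gs b y ≤ M := by
  obtain ⟨M, hM0, hM⟩ := newton_bound hn (Gs_rapid (E := E) hb) (Gs_continuous b)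
    (fun y => (Gs_pos b y).le)
  have hsl : Slow (fun y : E => 3 + ‖y‖ ^ 2) := by
    refine ⟨2, 3, fun y => ?_⟩
    rw [Real.norm_of_nonneg (by positivity)]
    nlinarith [norm_nonneg y]
  have hr : Rapid (fun y : E => Gs b y * (3 + ‖y‖ ^ 2)) := (Gs_rapid hb).mul_slow hsl
  have hi : Integrable (fun y : E => Gs b y * (3 + ‖y‖ ^ 2)) := by
    refine hr.integrable ?_
    have := Gs_continuous (E := E) b
    fun_prop
  have h0 : 0 ≤ ∫ y : E, Gs b y * (3 + ‖y‖ ^ 2) := integral_nonneg fun y => by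
    have := Gs_pos b y
    positivity
  refine ⟨(∫ y : E, Gs b y * (3 + ‖y‖ ^ 2)) + M, by positivity, fun x => ?_⟩
  have e : (fun y => BB x y * Gs b y) = fun y => Gs b y * (3 + ‖y‖ ^ 2) + ‖x - y‖⁻¹ * Gs b y := by
    ext y; unfold BB; ring
  rw [e]
  refine ⟨hi.add (hM x).1, ?_⟩
  rw [integral_add hi (hM x).1]
  linarith [(hM x).2]

/-- The (unnormalised) density. -/
noncomputable def gg (α β t : ℝ) (e₀ e₁ : E) (w : E → ℝ) (y : E) : ℝ :=
  exp (β * (-(α / 2) * log (1 + ‖y‖ ^ 2) + w y - t * pp e₀ e₁ y))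

theorem gg_pos (α β t : ℝ) (w : E → ℝ) (y : E) : 0 < gg α β t e₀ e₁ w y := exp_pos _

theorem gg_continuous (α β t : ℝ) {w : E → ℝ} (hw : Continuous w) :
    Continuous (gg α β t e₀ e₁ w) := by
  have h1 := continuous_pp (e₀ := e₀) (e₁ := e₁)
  have h2 : Continuous (fun y : E => log (1 + ‖y‖ ^ 2)) :=
    Continuous.log (by fun_prop) (fun y => by positivity)
  unfold gg
  fun_prop

variable {α β t R : ℝ}

theorem gg_le_pp (hα : 0 < α) (hβ : 0 < β) {w : E → ℝ} (hw : ∀ y, |w y| ≤ R) (y : E) :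
    gg α β t e₀ e₁ w y ≤ exp (β * R) * exp (-(β * t) * pp e₀ e₁ y) := by
  unfold gg
  rw [← exp_add]
  apply exp_le_exp.2
  have h1 := log_one_add_nonneg (sq_nonneg ‖y‖)
  have h2 := (abs_le.1 (hw y)).2
  have h3 : 0 ≤ β * (α / 2 * log (1 + ‖y‖ ^ 2)) := by positivity
  have h4 : β * w y ≤ β * R := by gcongr
  linarith

theorem gg_le_Gs (h : ON2 e₀ e₁) (hα : 0 < α) (hβ : 0 < β) (ht : 0 < t) {w : E → ℝ}
    (hw : ∀ y, |w y| ≤ R) (y : E) :
    gg α β t e₀ e₁ w y ≤ exp (β * R + 2 * (β * t)) * Gs (β * t) y := by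
  refine (gg_le_pp hα hβ hw y).trans ?_
  unfold Gs
  rw [← exp_add, ← exp_add]
  apply exp_le_exp.2
  have h1 := pp_ge h y
  have h2 : (β * t) * (‖y‖ ^ 2 - 2) ≤ (β * t) * pp e₀ e₁ y := by gcongr
  linarith

theorem gg_ge (hβ : 0 < β) {w : E → ℝ} (hw : ∀ y, |w y| ≤ R) (y : E) :
    exp (-(β * R)) * exp (-(β * t) * pp e₀ e₁ y) * exp (-(β * (α / 2)) * log (1 + ‖y‖ ^ 2))
      ≤ gg α β t e₀ e₁ w y := by
  unfold gg
  rw [← exp_add, ← exp_add]
  apply exp_le_exp.2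
  have h2 := (abs_le.1 (hw y)).1
  have h4 : β * (-R) ≤ β * w y := by gcongr
  linarith

theorem gg_rapid (h : ON2 e₀ e₁) (hα : 0 < α) (hβ : 0 < β) (ht : 0 < t) {w : E → ℝ}
    (hw : ∀ y, |w y| ≤ R) : Rapid (gg α β t e₀ e₁ w) := by
  intro N
  obtain ⟨C, hC⟩ := Gs_rapid (E := E) (mul_pos hβ ht) N
  refine ⟨exp (β * R + 2 * (β * t)) * C, fun y => ?_⟩
  rw [Real.norm_of_nonneg (gg_pos _ _ _ _ _).le]
  refine (gg_le_Gs h hα hβ ht hw y).trans ?_
  have := hC y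
  rw [Real.norm_of_nonneg (Gs_pos _ _).le] at this
  calc _ ≤ exp (β * R + 2 * (β * t)) * (C / (1 + ‖y‖) ^ N) := by gcongr
    _ = _ := by ring

theorem gg_integrable (h : ON2 e₀ e₁) (hα : 0 < α) (hβ : 0 < β) (ht : 0 < t) {w : E → ℝ}
    (hwc : Continuous w) (hw : ∀ y, |w y| ≤ R) : Integrable (gg α β t e₀ e₁ w) :=
  (gg_rapid h hα hβ ht hw).integrable (gg_continuous α β t hwc)

theorem gg_int_pos (h : ON2 e₀ e₁) (hα : 0 < α) (hβ : 0 < β) (ht : 0 < t) {w : E → ℝ}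
    (hwc : Continuous w) (hw : ∀ y, |w y| ≤ R) : 0 < ∫ y, gg α β t e₀ e₁ w y := by
  refine (integral_pos_iff_support_of_nonneg (fun y => (gg_pos _ _ _ _ _).le)
    (gg_integrable h hα hβ ht hwc hw)).2 ?_
  have : Function.support (gg α β t e₀ e₁ w) = univ := by
    ext y; simp [(gg_pos α β t w y).ne']
  rw [this]
  exact isOpen_univ.measure_pos volume univ_nonempty

theorem BBgg_bound (hn : 1 < finrank ℝ E) (h : ON2 e₀ e₁) (hα : 0 < α) (hβ : 0 < β) (ht : 0 < t)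
    {w : E → ℝ} (hwc : Continuous w) (hw : ∀ y, |w y| ≤ R) :
    ∃ M, 0 ≤ M ∧ ∀ x : E, Integrable (fun y => BB x y * gg α β t e₀ e₁ w y) ∧
      ∫ y, BB x y * gg α β t e₀ e₁ w y ≤ M := by
  obtain ⟨M, hM0, hM⟩ := BB_bound (E := E) hn (mul_pos hβ ht)
  refine ⟨exp (β * R + 2 * (β * t)) * M, by positivity, fun x => ?_⟩
  have hle : ∀ y, BB x y * gg α β t e₀ e₁ w y
      ≤ exp (β * R + 2 * (β * t)) * (BB x y * Gs (β * t) y) := fun y => by
    have := gg_le_Gs h hα hβ ht hw y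
    have hB := BB_nonneg x y
    calc _ ≤ BB x y * (exp (β * R + 2 * (β * t)) * Gs (β * t) y) := by gcongr
      _ = _ := by ring
  have hi : Integrable (fun y => BB x y * gg α β t e₀ e₁ w y) := by
    refine ((hM x).1.const_mul (exp (β * R + 2 * (β * t)))).mono' ?_
      (Eventually.of_forall fun y => ?_)
    · exact (BB_measurable x).aestronglyMeasurable.mul
        (gg_continuous α β t hwc).aestronglyMeasurable
    · rw [Real.norm_of_nonneg (mul_nonneg (BB_nonneg x y) (gg_pos _ _ _ _ _).le)]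
      exact hle y
  refine ⟨hi, ?_⟩
  calc ∫ y, BB x y * gg α β t e₀ e₁ w y
      ≤ ∫ y, exp (β * R + 2 * (β * t)) * (BB x y * Gs (β * t) y) :=
        integral_mono hi ((hM x).1.const_mul _) hle
    _ = exp (β * R + 2 * (β * t)) * ∫ y, BB x y * Gs (β * t) y := integral_const_mul _ _
    _ ≤ _ := by gcongr; exact (hM x).2

theorem KK_KC_le_BB (h : ON2 e₀ e₁) {x y : E} (hxy : x ≠ y) :
    |KK e₀ e₁ x y - KC e₀ e₁ x| ≤ BB x y := by
  have h1 := KK_bound h hxy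
  have h2 := KC_bound h x
  unfold BB
  rw [abs_le] at *
  constructor <;> linarith [h1.1, h1.2, h2.1, h2.2]

theorem KK_le_BB (h : ON2 e₀ e₁) {x y : E} (hxy : x ≠ y) :
    |KK e₀ e₁ x y + 1 / 2 * log (1 + ‖x‖ ^ 2)| ≤ BB x y := by
  have h1 := KK_bound h hxy
  unfold BB
  linarith

theorem ae_ne (hn : 1 < finrank ℝ E) (x : E) : ∀ᵐ y : E, x ≠ y := by
  have : Nontrivial E := Module.nontrivial_of_finrank_pos (R := ℝ) (by omega)
  have h := (measure_singleton (μ := (volume : Measure E)) x)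
  rw [ae_iff]
  convert h using 2
  ext y
  simp [eq_comm]

end Pool.Agent.Lib.MP_d898c1_an
end
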