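import Mathlib

section

/-!
Rapidly decreasing and slowly growing functions with finitely many derivatives, tame kernels and
convolutions with them.
-/

set_option autoImplicit false

open MeasureTheory Set Filter Topology Real

namespace Pool.Agent.Lib.MP_d898c1_an

variable {E : Type} [NormedAddCommGroup E] [InnerProductSpace ℝ E] [FiniteDimensional ℝ E]
  [MeasurableSpace E] [BorelSpace E]
  {F : Type} [NormedAddCommGroup F] [NormedSpace ℝ F]

omit [InnerProductSpace ℝ E] [FiniteDimensional ℝ E] [MeasurableSpace E] [BorelSpace E] in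
theorem one_le_base (x : E) : 1 ≤ 1 + ‖x‖ := by linarith [norm_nonneg x]

omit [InnerProductSpace ℝ E] [FiniteDimensional ℝ E] [MeasurableSpace E] [BorelSpace E] in
theorem base_pos (x : E) : 0 < 1 + ‖x‖ := by linarith [norm_nonneg x]

/-- Rapid decrease. -/
def Rapid (f : E → F) : Prop := ∀ N : ℕ, ∃ C : ℝ, ∀ x, ‖f x‖ ≤ C / (1 + ‖x‖) ^ N

/-- Slow (polynomial) growth. -/
def Slow (f : E → F) : Prop := ∃ N : ℕ, ∃ C : ℝ, ∀ x, ‖f x‖ ≤ C * (1 + ‖x‖) ^ N

omit [InnerProductSpace ℝ E] [FiniteDimensional ℝ E] [MeasurableSpace E] [BorelSpace E]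
  [NormedSpace ℝ F] in
theorem Rapid.slow {f : E → F} (hf : Rapid f) : Slow f := by
  obtain ⟨C, hC⟩ := hf 0
  exact ⟨0, C, fun x => by simpa using hC x⟩

omit [InnerProductSpace ℝ E] [FiniteDimensional ℝ E] [MeasurableSpace E] [BorelSpace E]
  [NormedSpace ℝ F] in
theorem Rapid.add {f g : E → F} (hf : Rapid f) (hg : Rapid g) : Rapid (fun x => f x + g x) := by
  intro N
  obtain ⟨C, hC⟩ := hf N
  obtain ⟨C', hC'⟩ := hg N
  refine ⟨C + C', fun x => ?_⟩
  calc ‖f x + g x‖ ≤ ‖f x‖ + ‖g x‖ := norm_add_le _ _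
    _ ≤ C / (1 + ‖x‖) ^ N + C' / (1 + ‖x‖) ^ N := add_le_add (hC x) (hC' x)
    _ = _ := by ring

omit [InnerProductSpace ℝ E] [FiniteDimensional ℝ E] [MeasurableSpace E] [BorelSpace E]
  [NormedSpace ℝ F] in
theorem Slow.add {f g : E → F} (hf : Slow f) (hg : Slow g) : Slow (fun x => f x + g x) := by
  obtain ⟨N, C, hC⟩ := hf
  obtain ⟨N', C', hC'⟩ := hg
  refine ⟨N + N', |C| + |C'|, fun x => ?_⟩
  have h1 := one_le_base x
  have e1 : (1 + ‖x‖) ^ N ≤ (1 + ‖x‖) ^ (N + N') := pow_le_pow_right₀ h1 (by omega)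
  have e2 : (1 + ‖x‖) ^ N' ≤ (1 + ‖x‖) ^ (N + N') := pow_le_pow_right₀ h1 (by omega)
  have p1 : 0 ≤ (1 + ‖x‖) ^ N := by positivity
  have p2 : 0 ≤ (1 + ‖x‖) ^ N' := by positivity
  calc ‖f x + g x‖ ≤ ‖f x‖ + ‖g x‖ := norm_add_le _ _
    _ ≤ C * (1 + ‖x‖) ^ N + C' * (1 + ‖x‖) ^ N' := add_le_add (hC x) (hC' x)
    _ ≤ |C| * (1 + ‖x‖) ^ (N + N') + |C'| * (1 + ‖x‖) ^ (N + N') := by
        gcongr
        · exact le_abs_self C
        · exact le_abs_self C'
    _ = _ := by ring

omit [InnerProductSpace ℝ E] [FiniteDimensional ℝ E] [MeasurableSpace E] [BorelSpace E] in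
theorem Rapid.mul_slow {f g : E → ℝ} (hf : Rapid f) (hg : Slow g) : Rapid (fun x => f x * g x) := by
  obtain ⟨M, C', hC'⟩ := hg
  intro N
  obtain ⟨C, hC⟩ := hf (N + M)
  refine ⟨|C| * |C'|, fun x => ?_⟩
  have h1 := base_pos x
  rw [norm_mul]
  calc ‖f x‖ * ‖g x‖ ≤ (|C| / (1 + ‖x‖) ^ (N + M)) * (|C'| * (1 + ‖x‖) ^ M) := by
        gcongr
        · exact (hC x).trans (by gcongr; exact le_abs_self C)
        · exact (hC' x).trans (by gcongr; exact le_abs_self C')
    _ = _ := by rw [pow_add]; field_simp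

omit [InnerProductSpace ℝ E] [FiniteDimensional ℝ E] [MeasurableSpace E] [BorelSpace E] in
theorem Slow.mul {f g : E → ℝ} (hf : Slow f) (hg : Slow g) : Slow (fun x => f x * g x) := by
  obtain ⟨N, C, hC⟩ := hf
  obtain ⟨M, C', hC'⟩ := hg
  refine ⟨N + M, |C| * |C'|, fun x => ?_⟩
  have h1 := base_pos x
  rw [norm_mul]
  calc ‖f x‖ * ‖g x‖ ≤ (|C| * (1 + ‖x‖) ^ N) * (|C'| * (1 + ‖x‖) ^ M) := by
        gcongr
        · exact (hC x).trans (by gcongr; exact le_abs_self C)
        · exact (hC' x).trans (by gcongr; exact le_abs_self C')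
    _ = _ := by rw [pow_add]; ring

/-- Rapidly decreasing functions with `k` derivatives. -/
def RC : ℕ → (E → ℝ) → Prop
  | 0, f => Continuous f ∧ Rapid f
  | k + 1, f => Differentiable ℝ f ∧ Rapid f ∧ ∀ v : E, RC k (fun x => fderiv ℝ f x v)

/-- Slowly growing functions with `k` derivatives. -/
def SC : ℕ → (E → ℝ) → Prop
  | 0, f => Continuous f ∧ Slow f
  | k + 1, f => Differentiable ℝ f ∧ Slow f ∧ ∀ v : E, SC k (fun x => fderiv ℝ f x v)

omit [FiniteDimensional ℝ E] [MeasurableSpace E] [BorelSpace E] in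
theorem RC.rapid {k : ℕ} {f : E → ℝ} (h : RC k f) : Rapid f := by
  cases k with
  | zero => exact h.2
  | succ k => exact h.2.1

omit [FiniteDimensional ℝ E] [MeasurableSpace E] [BorelSpace E] in
theorem RC.continuous {k : ℕ} {f : E → ℝ} (h : RC k f) : Continuous f := by
  cases k with
  | zero => exact h.1
  | succ k => exact h.1.continuous

omit [FiniteDimensional ℝ E] [MeasurableSpace E] [BorelSpace E] in
theorem SC.slow {k : ℕ} {f : E → ℝ} (h : SC k f) : Slow f := by
  cases k with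
  | zero => exact h.2
  | succ k => exact h.2.1

omit [FiniteDimensional ℝ E] [MeasurableSpace E] [BorelSpace E] in
theorem SC.continuous {k : ℕ} {f : E → ℝ} (h : SC k f) : Continuous f := by
  cases k with
  | zero => exact h.1
  | succ k => exact h.1.continuous

omit [FiniteDimensional ℝ E] [MeasurableSpace E] [BorelSpace E] in
theorem RC.pred {k : ℕ} {f : E → ℝ} (h : RC (k + 1) f) : RC k f := by
  induction k generalizing f with
  | zero => exact ⟨h.1.continuous, h.2.1⟩
  | succ k ih => exact ⟨h.1, h.2.1, fun v => ih (h.2.2 v)⟩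

omit [FiniteDimensional ℝ E] [MeasurableSpace E] [BorelSpace E] in
theorem SC.pred {k : ℕ} {f : E → ℝ} (h : SC (k + 1) f) : SC k f := by
  induction k generalizing f with
  | zero => exact ⟨h.1.continuous, h.2.1⟩
  | succ k ih => exact ⟨h.1, h.2.1, fun v => ih (h.2.2 v)⟩

omit [FiniteDimensional ℝ E] [MeasurableSpace E] [BorelSpace E] in
theorem RC.add {k : ℕ} {f g : E → ℝ} (hf : RC k f) (hg : RC k g) : RC k (fun x => f x + g x) := by
  induction k generalizing f g with
  | zero => exact ⟨hf.1.add hg.1, hf.2.add hg.2⟩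
  | succ k ih =>
    refine ⟨hf.1.add hg.1, hf.2.1.add hg.2.1, fun v => ?_⟩
    have : (fun x => fderiv ℝ (fun x => f x + g x) x v)
        = fun x => fderiv ℝ f x v + fderiv ℝ g x v := by
      ext x
      rw [fderiv_fun_add (hf.1 x) (hg.1 x)]; rfl
    rw [this]
    exact ih (hf.2.2 v) (hg.2.2 v)

omit [FiniteDimensional ℝ E] [MeasurableSpace E] [BorelSpace E] in
theorem SC.add {k : ℕ} {f g : E → ℝ} (hf : SC k f) (hg : SC k g) : SC k (fun x => f x + g x) := by
  induction k generalizing f g with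
  | zero => exact ⟨hf.1.add hg.1, hf.2.add hg.2⟩
  | succ k ih =>
    refine ⟨hf.1.add hg.1, hf.2.1.add hg.2.1, fun v => ?_⟩
    have : (fun x => fderiv ℝ (fun x => f x + g x) x v)
        = fun x => fderiv ℝ f x v + fderiv ℝ g x v := by
      ext x
      rw [fderiv_fun_add (hf.1 x) (hg.1 x)]; rfl
    rw [this]
    exact ih (hf.2.2 v) (hg.2.2 v)

omit [FiniteDimensional ℝ E] [MeasurableSpace E] [BorelSpace E] in
theorem RC.mul_SC {k : ℕ} {f g : E → ℝ} (hf : RC k f) (hg : SC k g) :
    RC k (fun x => f x * g x) := by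
  induction k generalizing f g with
  | zero => exact ⟨hf.1.mul hg.1, hf.2.mul_slow hg.2⟩
  | succ k ih =>
    refine ⟨hf.1.mul hg.1, hf.2.1.mul_slow hg.2.1, fun v => ?_⟩
    have : (fun x => fderiv ℝ (fun x => f x * g x) x v)
        = fun x => f x * fderiv ℝ g x v + fderiv ℝ f x v * g x := by
      ext x
      rw [fderiv_fun_mul (hf.1 x) (hg.1 x)]
      simp; ring
    rw [this]
    exact (ih hf.pred (hg.2.2 v)).add (ih (hf.2.2 v) hg.pred)

omit [FiniteDimensional ℝ E] [MeasurableSpace E] [BorelSpace E] in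
theorem SC.mul {k : ℕ} {f g : E → ℝ} (hf : SC k f) (hg : SC k g) :
    SC k (fun x => f x * g x) := by
  induction k generalizing f g with
  | zero => exact ⟨hf.1.mul hg.1, hf.2.mul hg.2⟩
  | succ k ih =>
    refine ⟨hf.1.mul hg.1, hf.2.1.mul hg.2.1, fun v => ?_⟩
    have : (fun x => fderiv ℝ (fun x => f x * g x) x v)
        = fun x => f x * fderiv ℝ g x v + fderiv ℝ f x v * g x := by
      ext x
      rw [fderiv_fun_mul (hf.1 x) (hg.1 x)]
      simp; ring
    rw [this]
    exact (ih hf.pred (hg.2.2 v)).add (ih (hf.2.2 v) hg.pred)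

omit [FiniteDimensional ℝ E] [MeasurableSpace E] [BorelSpace E] in
theorem SC.const (k : ℕ) (c : ℝ) : SC k (fun _ : E => c) := by
  induction k generalizing c with
  | zero => exact ⟨continuous_const, 0, |c|, fun x => by simp⟩
  | succ k ih =>
    refine ⟨differentiable_const _, ⟨0, |c|, fun x => by simp⟩, fun v => ?_⟩
    simpa using ih 0

omit [FiniteDimensional ℝ E] [MeasurableSpace E] [BorelSpace E] in
theorem SC.const_mul {k : ℕ} {f : E → ℝ} (c : ℝ) (hf : SC k f) : SC k (fun x => c * f x) :=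
  (SC.const k c).mul hf

omit [FiniteDimensional ℝ E] [MeasurableSpace E] [BorelSpace E] in
theorem RC.const_mul {k : ℕ} {f : E → ℝ} (c : ℝ) (hf : RC k f) : RC k (fun x => c * f x) := by
  have := hf.mul_SC (SC.const k c)
  simpa [mul_comm] using this

omit [FiniteDimensional ℝ E] [MeasurableSpace E] [BorelSpace E] in
theorem RC.sum {ι : Type*} (s : Finset ι) {k : ℕ} {f : ι → E → ℝ} (hf : ∀ i ∈ s, RC k (f i)) :
    RC k (fun x => ∑ i ∈ s, f i x) := by
  classical
  induction s using Finset.induction_on with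
  | empty =>
    simp only [Finset.sum_empty]
    have : RC k (fun _ : E => (0 : ℝ)) := by
      induction k with
      | zero => exact ⟨continuous_const, fun N => ⟨0, fun x => by simp⟩⟩
      | succ k ih =>
        refine ⟨differentiable_const _, fun N => ⟨0, fun x => by simp⟩, fun v => ?_⟩
        simpa using ih (fun i hi => by simp at hi)
    exact this
  | insert a s ha ih =>
    simp only [Finset.sum_insert ha]
    exact (hf a (Finset.mem_insert_self _ _)).add
      (ih fun i hi => hf i (Finset.mem_insert_of_mem hi))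

omit [FiniteDimensional ℝ E] [MeasurableSpace E] [BorelSpace E] in
/-- Linear functionals are slowly growing. -/
theorem SC.clm (k : ℕ) (l : E →L[ℝ] ℝ) : SC k (fun x => l x) := by
  have hs : Slow (fun x => l x) := ⟨1, ‖l‖, fun x => by
    rw [pow_one]
    calc ‖l x‖ ≤ ‖l‖ * ‖x‖ := l.le_opNorm x
      _ ≤ ‖l‖ * (1 + ‖x‖) := by gcongr; linarith⟩
  cases k with
  | zero => exact ⟨l.continuous, hs⟩
  | succ k =>
    refine ⟨l.differentiable, hs, fun v => ?_⟩
    have : (fun x => fderiv ℝ (fun x => l x) x v) = fun _ => l v := by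
      ext x; rw [l.fderiv]
    rw [this]
    exact SC.const k _

omit [MeasurableSpace E] [BorelSpace E] in
theorem SC.contDiff {k : ℕ} {f : E → ℝ} (hf : SC k f) : ContDiff ℝ k f := by
  induction k generalizing f with
  | zero => exact contDiff_zero.2 hf.1
  | succ k ih =>
    rw [Nat.cast_succ, contDiff_succ_iff_fderiv_apply]
    refine ⟨hf.1, by simp, fun v => ih (hf.2.2 v)⟩

omit [MeasurableSpace E] [BorelSpace E] in
theorem RC.contDiff {k : ℕ} {f : E → ℝ} (hf : RC k f) : ContDiff ℝ k f := by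
  induction k generalizing f with
  | zero => exact contDiff_zero.2 hf.1
  | succ k ih =>
    rw [Nat.cast_succ, contDiff_succ_iff_fderiv_apply]
    refine ⟨hf.1, by simp, fun v => ih (hf.2.2 v)⟩

omit [FiniteDimensional ℝ E] [MeasurableSpace E] [BorelSpace E] in
/-- The exponential of a slowly growing function is in the class `RC` if it decreases rapidly. -/
theorem RC.exp {k : ℕ} {g : E → ℝ} (hg : SC k g) (hr : Rapid (fun x => Real.exp (g x))) :
    RC k (fun x => Real.exp (g x)) := by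
  induction k with
  | zero => exact ⟨hg.1.rexp, hr⟩
  | succ k ih =>
    refine ⟨hg.1.exp, hr, fun v => ?_⟩
    have : (fun x => fderiv ℝ (fun x => Real.exp (g x)) x v)
        = fun x => Real.exp (g x) * fderiv ℝ g x v := by
      ext x
      rw [fderiv_exp (hg.1 x)]; simp
    rw [this]
    exact (ih hg.pred).mul_SC (hg.2.2 v)

omit [FiniteDimensional ℝ E] [MeasurableSpace E] [BorelSpace E] in
/-- Norm bound for a functional in terms of an orthonormal basis. -/
theorem norm_clm_le_sum {ι : Type*} [Fintype ι] (b : OrthonormalBasis ι ℝ E) (l : E →L[ℝ] F) :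
    ‖l‖ ≤ ∑ i, ‖l (b i)‖ := by
  apply ContinuousLinearMap.opNorm_le_bound _ (Finset.sum_nonneg fun i _ => norm_nonneg _)
  intro x
  have hx : x = ∑ i, inner ℝ (b i) x • b i := (b.sum_repr' x).symm
  calc ‖l x‖ = ‖l (∑ i, inner ℝ (b i) x • b i)‖ := by rw [← hx]
    _ = ‖∑ i, inner ℝ (b i) x • l (b i)‖ := by simp [map_sum]
    _ ≤ ∑ i, ‖inner ℝ (b i) x • l (b i)‖ := norm_sum_le _ _
    _ ≤ ∑ i, ‖l (b i)‖ * ‖x‖ := by
        apply Finset.sum_le_sum
        intro i _
        rw [norm_smul, mul_comm]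
        gcongr
        calc ‖inner ℝ (b i) x‖ ≤ ‖b i‖ * ‖x‖ := norm_inner_le_norm _ _
          _ = ‖x‖ := by rw [b.norm_eq_one]; ring
    _ = _ := by rw [Finset.sum_mul]

omit [MeasurableSpace E] [BorelSpace E] in
theorem RC.rapid_fderiv {k : ℕ} {f : E → ℝ} (hf : RC (k + 1) f) : Rapid (fderiv ℝ f) := by
  intro N
  have h := fun i => (hf.2.2 (stdOrthonormalBasis ℝ E i)).rapid N
  choose C hC using h
  refine ⟨∑ i, C i, fun x => ?_⟩
  calc ‖fderiv ℝ f x‖ ≤ ∑ i, ‖fderiv ℝ f x (stdOrthonormalBasis ℝ E i)‖ :=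
        norm_clm_le_sum _ _
    _ ≤ ∑ i, C i / (1 + ‖x‖) ^ N := Finset.sum_le_sum fun i _ => hC i x
    _ = _ := by rw [Finset.sum_div]

omit [MeasurableSpace E] [BorelSpace E] in
theorem RC.continuous_fderiv {k : ℕ} {f : E → ℝ} (hf : RC (k + 1) f) :
    Continuous (fderiv ℝ f) := by
  rw [continuous_clm_apply]
  exact fun v => (hf.2.2 v).continuous

end Pool.Agent.Lib.MP_d898c1_an
end

section

section

/-!
Convolution of tame kernels with rapidly decreasing functions.
-/

set_option autoImplicit false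
set_option linter.unusedSectionVars false

open MeasureTheory Set Filter Topology Real

namespace Pool.Agent.Lib.MP_d898c1_an

variable {E : Type} [NormedAddCommGroup E] [InnerProductSpace ℝ E] [FiniteDimensional ℝ E]
  [MeasurableSpace E] [BorelSpace E]
  {F : Type} [NormedAddCommGroup F] [NormedSpace ℝ F]

/-- Tame kernels: integrable against some negative power of `1 + ‖y‖`. -/
def Tame (κ : E → ℝ) : Prop := ∃ N : ℕ, Integrable (fun y => κ y / (1 + ‖y‖) ^ N)

/-- Convolution. -/
noncomputable def conv (κ : E → ℝ) (f : E → F) (x : E) : F := ∫ y, κ y • f (x - y)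

theorem Tame.aestronglyMeasurable {κ : E → ℝ} (h : Tame κ) : AEStronglyMeasurable κ := by
  obtain ⟨N, hN⟩ := h
  have h1 : Continuous (fun y : E => (1 + ‖y‖) ^ N) := by fun_prop
  have h2 := hN.aestronglyMeasurable.mul h1.aestronglyMeasurable
  refine h2.congr (Eventually.of_forall fun y => ?_)
  have := base_pos y
  simp only [Pi.mul_apply]
  field_simp

/-- Peetre type inequality. -/
theorem base_le (x y : E) : 1 + ‖y‖ ≤ (1 + ‖x‖) * (1 + ‖x - y‖) := by
  have h1 : ‖y‖ ≤ ‖x‖ + ‖x - y‖ := by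
    calc ‖y‖ = ‖x - (x - y)‖ := by congr 1; abel
      _ ≤ ‖x‖ + ‖x - y‖ := norm_sub_le _ _
  nlinarith [norm_nonneg x, norm_nonneg (x - y), mul_nonneg (norm_nonneg x) (norm_nonneg (x - y))]

theorem rapid_shift {f : E → F} {N : ℕ} {C : ℝ} (hC : ∀ x, ‖f x‖ ≤ C / (1 + ‖x‖) ^ N) (x y : E) :
    ‖f (x - y)‖ ≤ C * (1 + ‖x‖) ^ N / (1 + ‖y‖) ^ N := by
  have hC0 : 0 ≤ C := by
    have := (norm_nonneg _).trans (hC 0)
    simpa using this
  refine (hC (x - y)).trans ?_
  have h1 := base_pos x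
  have h2 := base_pos y
  have h3 := base_pos (x - y)
  rw [div_le_div_iff₀ (by positivity) (by positivity), mul_assoc, ← mul_pow]
  gcongr
  exact base_le x y

theorem conv_integrable {κ : E → ℝ} (hκ : Tame κ) {f : E → F} (hf : Rapid f)
    (hfm : AEStronglyMeasurable f) (x : E) : Integrable (fun y => κ y • f (x - y)) := by
  have hκm := hκ.aestronglyMeasurable
  obtain ⟨N, hN⟩ := hκ
  obtain ⟨C, hC⟩ := hf N
  have hm : AEStronglyMeasurable (fun y => f (x - y)) :=
    hfm.comp_quasiMeasurePreserving (quasiMeasurePreserving_sub_left volume x)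
  refine Integrable.mono' ((hN.norm).const_mul (C * (1 + ‖x‖) ^ N)) (hκm.smul hm)
    (Eventually.of_forall fun y => ?_)
  rw [norm_smul, norm_div, Real.norm_of_nonneg (r := (1 + ‖y‖) ^ N) (by positivity)]
  calc ‖κ y‖ * ‖f (x - y)‖ ≤ ‖κ y‖ * (C * (1 + ‖x‖) ^ N / (1 + ‖y‖) ^ N) := by
        gcongr; exact rapid_shift hC x y
    _ = _ := by ring

theorem conv_bound {κ : E → ℝ} (hκ : Tame κ) {f : E → F} (hf : Rapid f) :
    Slow (conv κ f) := by
  obtain ⟨N, hN⟩ := hκ
  obtain ⟨C, hC⟩ := hf N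
  refine ⟨N, C * ∫ y, ‖κ y / (1 + ‖y‖) ^ N‖, fun x => ?_⟩
  unfold conv
  calc ‖∫ y, κ y • f (x - y)‖ ≤ ∫ y, C * (1 + ‖x‖) ^ N * ‖κ y / (1 + ‖y‖) ^ N‖ := by
        apply norm_integral_le_of_norm_le (hN.norm.const_mul _)
        refine Eventually.of_forall fun y => ?_
        rw [norm_smul, norm_div, Real.norm_of_nonneg (r := (1 + ‖y‖) ^ N) (by positivity)]
        calc ‖κ y‖ * ‖f (x - y)‖ ≤ ‖κ y‖ * (C * (1 + ‖x‖) ^ N / (1 + ‖y‖) ^ N) := by
              gcongr; exact rapid_shift hC x y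
          _ = _ := by ring
    _ = _ := by rw [integral_const_mul]; ring

/-- Local domination used for continuity and differentiability. -/
theorem rapid_shift_local {f : E → F} {N : ℕ} {C : ℝ} (hC : ∀ x, ‖f x‖ ≤ C / (1 + ‖x‖) ^ N)
    {x₀ x : E} (hx : x ∈ Metric.ball x₀ 1) (y : E) :
    ‖f (x - y)‖ ≤ C * (2 + ‖x₀‖) ^ N / (1 + ‖y‖) ^ N := by
  have hC0 : 0 ≤ C := by
    have := (norm_nonneg _).trans (hC 0)
    simpa using this
  refine (rapid_shift hC x y).trans ?_
  have h1 : ‖x‖ ≤ ‖x₀‖ + 1 := by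
    have : ‖x - x₀‖ < 1 := by simpa [dist_eq_norm] using hx
    calc ‖x‖ = ‖x₀ + (x - x₀)‖ := by congr 1; abel
      _ ≤ ‖x₀‖ + ‖x - x₀‖ := norm_add_le _ _
      _ ≤ _ := by linarith
  have h2 := base_pos y
  have h3 : 1 + ‖x‖ ≤ 2 + ‖x₀‖ := by linarith
  gcongr

theorem conv_continuous {κ : E → ℝ} (hκ : Tame κ) {f : E → F} (hf : Rapid f)
    (hfc : Continuous f) : Continuous (conv κ f) := by
  have hκm := hκ.aestronglyMeasurable
  obtain ⟨N, hN⟩ := hκ
  obtain ⟨C, hC⟩ := hf N
  rw [continuous_iff_continuousAt]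
  intro x₀
  unfold conv
  apply continuousAt_of_dominated (bound := fun y => C * (2 + ‖x₀‖) ^ N * ‖κ y / (1 + ‖y‖) ^ N‖)
  · exact Eventually.of_forall fun x => hκm.smul
      (hfc.comp (continuous_const.sub continuous_id)).aestronglyMeasurable
  · filter_upwards [Metric.ball_mem_nhds x₀ one_pos] with x hx
    refine Eventually.of_forall fun y => ?_
    rw [norm_smul, norm_div, Real.norm_of_nonneg (r := (1 + ‖y‖) ^ N) (by positivity)]
    calc ‖κ y‖ * ‖f (x - y)‖ ≤ ‖κ y‖ * (C * (2 + ‖x₀‖) ^ N / (1 + ‖y‖) ^ N) := by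
          gcongr; exact rapid_shift_local hC hx y
      _ = _ := by ring
  · exact hN.norm.const_mul _
  · exact Eventually.of_forall fun y => (continuous_const.smul
      (hfc.comp (continuous_id.sub continuous_const))).continuousAt

theorem conv_hasFDerivAt {κ : E → ℝ} (hκ : Tame κ) {f : E → ℝ} (hf : RC 1 f) (x₀ : E) :
    HasFDerivAt (conv κ f) (conv κ (fderiv ℝ f) x₀) x₀ := by
  have hκm := hκ.aestronglyMeasurable
  have hint := conv_integrable hκ hf.rapid hf.continuous.aestronglyMeasurable x₀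
  obtain ⟨N, hN⟩ := hκ
  obtain ⟨C, hC⟩ := hf.rapid_fderiv N
  unfold conv
  apply hasFDerivAt_integral_of_dominated_of_fderiv_le (𝕜 := ℝ) (μ := volume)
    (F := fun x y => κ y • f (x - y)) (F' := fun x y => κ y • fderiv ℝ f (x - y))
    (bound := fun y => C * (2 + ‖x₀‖) ^ N * ‖κ y / (1 + ‖y‖) ^ N‖)
    (Metric.ball_mem_nhds x₀ one_pos)
  · exact Eventually.of_forall fun x => hκm.smul
      (hf.continuous.comp (continuous_const.sub continuous_id)).aestronglyMeasurable
  · exact hint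
  · exact hκm.smul
      (hf.continuous_fderiv.comp (continuous_const.sub continuous_id)).aestronglyMeasurable
  · refine Eventually.of_forall fun y x hx => ?_
    rw [norm_smul, norm_div, Real.norm_of_nonneg (r := (1 + ‖y‖) ^ N) (by positivity)]
    calc ‖κ y‖ * ‖fderiv ℝ f (x - y)‖ ≤ ‖κ y‖ * (C * (2 + ‖x₀‖) ^ N / (1 + ‖y‖) ^ N) := by
          gcongr; exact rapid_shift_local hC hx y
      _ = _ := by ring
  · exact hN.norm.const_mul _
  · refine Eventually.of_forall fun y x _ => ?_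
    have h1 := (hf.1 (x - y)).hasFDerivAt
    have h2 : HasFDerivAt (fun x => x - y) (ContinuousLinearMap.id ℝ E) x :=
      (hasFDerivAt_id x).sub_const y
    have h3 : HasFDerivAt (fun x => κ y • f (x - y))
        (κ y • (fderiv ℝ f (x - y)).comp (ContinuousLinearMap.id ℝ E)) x :=
      (h1.comp x h2).const_smul (κ y)
    rw [ContinuousLinearMap.comp_id] at h3
    exact h3

theorem conv_fderiv_apply {κ : E → ℝ} (hκ : Tame κ) {f : E → ℝ} (hf : RC 1 f) (x v : E) :
    fderiv ℝ (conv κ f) x v = conv κ (fun y => fderiv ℝ f y v) x := by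
  rw [(conv_hasFDerivAt hκ hf x).fderiv]
  unfold conv
  have hint := conv_integrable hκ hf.rapid_fderiv hf.continuous_fderiv.aestronglyMeasurable x
  have := ((ContinuousLinearMap.apply ℝ ℝ v : (E →L[ℝ] ℝ) →L[ℝ] ℝ)).integral_comp_comm hint
  simpa using this.symm

theorem conv_SC {k : ℕ} {κ : E → ℝ} (hκ : Tame κ) {f : E → ℝ} (hf : RC k f) :
    SC k (conv κ f) := by
  induction k generalizing f with
  | zero => exact ⟨conv_continuous hκ hf.2 hf.1, conv_bound hκ hf.2⟩
  | succ k ih =>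
    have h1 : RC 1 f := by
      clear ih
      induction k with
      | zero => exact hf
      | succ k ih => exact ih hf.pred
    refine ⟨fun x => (conv_hasFDerivAt hκ h1 x).differentiableAt, conv_bound hκ hf.2.1,
      fun v => ?_⟩
    have : (fun x => fderiv ℝ (conv κ f) x v) = conv κ (fun y => fderiv ℝ f y v) := by
      ext x; exact conv_fderiv_apply hκ h1 x v
    rw [this]
    exact ih (hf.2.2 v)

end Pool.Agent.Lib.MP_d898c1_an
end

section

/-!
Tame kernels: inverse powers of the norm and the logarithm; integration by parts.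
-/

set_option autoImplicit false
set_option linter.unusedSectionVars false

open MeasureTheory Set Filter Topology Real Module

namespace Pool.Agent.Lib.MP_d898c1_an

variable {E : Type} [NormedAddCommGroup E] [InnerProductSpace ℝ E] [FiniteDimensional ℝ E]
  [MeasurableSpace E] [BorelSpace E]

/-- Negative powers of `1 + ‖y‖` (natural exponents) are integrable. -/
theorem integrable_base (N : ℕ) (hN : finrank ℝ E < N) :
    Integrable (fun y : E => 1 / (1 + ‖y‖) ^ N) := by
  have h := integrable_one_add_norm (E := E) (μ := volume) (r := (N : ℝ)) (by exact_mod_cast hN)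
  refine h.congr (Eventually.of_forall fun y => ?_)
  simp only
  rw [rpow_neg (base_pos y).le, rpow_natCast, one_div]

/-- Continuous slowly growing kernels are tame. -/
theorem Slow.tame {κ : E → ℝ} (hs : Slow κ) (hc : Continuous κ) : Tame κ := by
  obtain ⟨N, C, hC⟩ := hs
  refine ⟨N + (finrank ℝ E + 1), ?_⟩
  have h1 := (integrable_base (E := E) (finrank ℝ E + 1) (by omega)).const_mul |C|
  refine h1.mono' ?_ (Eventually.of_forall fun y => ?_)
  · apply Continuous.aestronglyMeasurable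
    apply hc.div (by fun_prop)
    intro y
    have := base_pos y
    positivity
  · have hb := base_pos y
    rw [norm_div, Real.norm_of_nonneg (r := (1 + ‖y‖) ^ (N + (finrank ℝ E + 1))) (by positivity)]
    calc ‖κ y‖ / (1 + ‖y‖) ^ (N + (finrank ℝ E + 1))
        ≤ (|C| * (1 + ‖y‖) ^ N) / (1 + ‖y‖) ^ (N + (finrank ℝ E + 1)) := by
          gcongr
          exact (hC y).trans (by gcongr; exact le_abs_self C)
      _ = _ := by rw [pow_add]; field_simp

theorem Tame.mono {κ κ' : E → ℝ} (h : Tame κ) (hm : AEStronglyMeasurable κ')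
    (hle : ∀ y, |κ' y| ≤ |κ y|) : Tame κ' := by
  obtain ⟨N, hN⟩ := h
  refine ⟨N, hN.mono ?_ (Eventually.of_forall fun y => ?_)⟩
  · refine hm.mul (Continuous.aestronglyMeasurable (f := fun y : E => ((1 + ‖y‖) ^ N)⁻¹) ?_)
    apply Continuous.inv₀ (by fun_prop)
    intro y
    have := base_pos y
    positivity
  · have hb := base_pos y
    rw [norm_div, norm_div]
    gcongr
    exact hle y

theorem Tame.mono_ae {κ κ' : E → ℝ} (h : Tame κ) (hm : AEStronglyMeasurable κ')
    (hle : ∀ᵐ y, |κ' y| ≤ |κ y|) : Tame κ' := by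
  obtain ⟨N, hN⟩ := h
  refine ⟨N, hN.mono ?_ ?_⟩
  · refine hm.mul (Continuous.aestronglyMeasurable (f := fun y : E => ((1 + ‖y‖) ^ N)⁻¹) ?_)
    apply Continuous.inv₀ (by fun_prop)
    intro y
    have := base_pos y
    positivity
  · filter_upwards [hle] with y hy
    have hb := base_pos y
    rw [norm_div, norm_div]
    gcongr
    exact hy

theorem Tame.const_mul {κ : E → ℝ} (h : Tame κ) (c : ℝ) : Tame (fun y => c * κ y) := by
  obtain ⟨N, hN⟩ := h
  refine ⟨N, (hN.const_mul c).congr (Eventually.of_forall fun y => ?_)⟩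
  simp only
  ring

theorem Tame.add {κ κ' : E → ℝ} (h : Tame κ) (h' : Tame κ') : Tame (fun y => κ y + κ' y) := by
  have hm := h.aestronglyMeasurable
  have hm' := h'.aestronglyMeasurable
  obtain ⟨N, hN⟩ := h
  obtain ⟨M, hM⟩ := h'
  refine ⟨N + M, ?_⟩
  refine (hN.norm.add hM.norm).mono' ?_ (Eventually.of_forall fun y => ?_)
  · refine (hm.add hm').mul
      (Continuous.aestronglyMeasurable (f := fun y : E => ((1 + ‖y‖) ^ (N + M))⁻¹) ?_)
    apply Continuous.inv₀ (by fun_prop)
    intro y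
    have := base_pos y
    positivity
  · have hb := base_pos y
    have hb1 := one_le_base y
    have e1 : (1 + ‖y‖) ^ N ≤ (1 + ‖y‖) ^ (N + M) := pow_le_pow_right₀ hb1 (by omega)
    have e2 : (1 + ‖y‖) ^ M ≤ (1 + ‖y‖) ^ (N + M) := pow_le_pow_right₀ hb1 (by omega)
    rw [norm_div, Real.norm_of_nonneg (r := (1 + ‖y‖) ^ (N + M)) (by positivity)]
    simp only [Pi.add_apply]
    rw [norm_div, norm_div, Real.norm_of_nonneg (r := (1 + ‖y‖) ^ N) (by positivity),
      Real.norm_of_nonneg (r := (1 + ‖y‖) ^ M) (by positivity)]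
    calc ‖κ y + κ' y‖ / (1 + ‖y‖) ^ (N + M) ≤ (‖κ y‖ + ‖κ' y‖) / (1 + ‖y‖) ^ (N + M) := by
          gcongr; exact norm_add_le _ _
      _ = ‖κ y‖ / (1 + ‖y‖) ^ (N + M) + ‖κ' y‖ / (1 + ‖y‖) ^ (N + M) := by ring
      _ ≤ _ := by gcongr

/-- Inverse powers of the norm of order less than the dimension are tame. -/
theorem tame_inv_pow {j : ℕ} (hj : j < finrank ℝ E) : Tame (fun y : E => (‖y‖ ^ j)⁻¹) := by
  have hpos : 0 < finrank ℝ E := by omega
  have : Nontrivial E := Module.nontrivial_of_finrank_pos hpos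
  set n := finrank ℝ E with hn
  refine ⟨n + 1, ?_⟩
  have key : Integrable (fun y : E => (fun r : ℝ => (r ^ j)⁻¹ / (1 + r) ^ (n + 1)) ‖y‖) := by
    refine (integrable_fun_norm_addHaar (volume : Measure E)
      (f := fun r : ℝ => (r ^ j)⁻¹ / (1 + r) ^ (n + 1))).2 ?_
    have h1 : IntegrableOn (fun r : ℝ => 1 / (1 + ‖r‖) ^ 2) (Ioi 0) :=
      (integrable_base (E := ℝ) 2 (by simp)).integrableOn
    refine h1.mono' ?_ ?_
    · apply Measurable.aestronglyMeasurable
      fun_prop
    · filter_upwards [ae_restrict_mem measurableSet_Ioi] with r hr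
      have hr0 : (0 : ℝ) < r := hr
      rw [← hn, smul_eq_mul, Real.norm_of_nonneg (by positivity), Real.norm_of_nonneg hr0.le]
      have e : n - 1 = (n - 1 - j) + j := by omega
      have e1 : r ^ (n - 1) * ((r ^ j)⁻¹ / (1 + r) ^ (n + 1)) =
          r ^ (n - 1 - j) / (1 + r) ^ (n + 1) := by
        rw [e, pow_add]
        simp only [Nat.add_sub_cancel]
        field_simp
      rw [e1, div_le_div_iff₀ (by positivity) (by positivity), one_mul]
      calc r ^ (n - 1 - j) * (1 + r) ^ 2 ≤ (1 + r) ^ (n - 1 - j) * (1 + r) ^ 2 := by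
            gcongr; linarith
        _ = (1 + r) ^ (n - 1 - j + 2) := by rw [pow_add]
        _ ≤ (1 + r) ^ (n + 1) := pow_le_pow_right₀ (by linarith) (by omega)
  exact key

/-- The logarithmic kernel. -/
noncomputable def Lk (y : E) : ℝ := -log ‖y‖

theorem abs_log_le {t : ℝ} (ht : 0 < t) : |log t| ≤ t⁻¹ + t := by
  rw [abs_le]
  constructor
  · have := log_le_sub_one_of_pos (inv_pos.2 ht)
    rw [log_inv] at this
    linarith
  · have := log_le_sub_one_of_pos ht
    have h2 := inv_pos.2 ht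
    linarith

theorem Lk_measurable : Measurable (Lk : E → ℝ) := by
  unfold Lk; fun_prop

theorem tame_Lk (h : 1 < finrank ℝ E) : Tame (Lk : E → ℝ) := by
  have h1 : Tame (fun y : E => (‖y‖ ^ 1)⁻¹) := tame_inv_pow h
  have h2 : Tame (fun y : E => ‖y‖) :=
    Slow.tame ⟨1, 1, fun y => by simp⟩ continuous_norm
  refine (h1.add h2).mono Lk_measurable.aestronglyMeasurable fun y => ?_
  unfold Lk
  by_cases hy : y = 0
  · simp [hy]
  · have : 0 < ‖y‖ := norm_pos_iff.2 hy
    rw [abs_neg, pow_one, abs_of_pos (by positivity : 0 < ‖y‖⁻¹ + ‖y‖)]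
    exact abs_log_le this

/-- Integration by parts against a smooth slowly growing kernel. -/
theorem conv_ibp {κ : E → ℝ} (hκd : Differentiable ℝ κ) (hκs : Slow κ) (v : E)
    (hκ's : Slow (fun y => fderiv ℝ κ y v)) (hκ'c : Continuous (fun y => fderiv ℝ κ y v))
    {f : E → ℝ} (hf : RC 1 f) (x : E) :
    conv κ (fun y => fderiv ℝ f y v) x = conv (fun y => fderiv ℝ κ y v) f x := by
  have hκt := hκs.tame hκd.continuous
  have hκ't := hκ's.tame hκ'c
  have hg : ∀ y, HasFDerivAt (fun y => f (x - y)) (-(fderiv ℝ f (x - y))) y := by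
    intro y
    have h1 := (hf.1 (x - y)).hasFDerivAt
    have h2 : HasFDerivAt (fun y => x - y) (-ContinuousLinearMap.id ℝ E) y := by
      simpa using (hasFDerivAt_id y).const_sub x
    have h3 := h1.comp y h2
    refine h3.congr_fderiv ?_
    ext w
    simp
  have hgd : ∀ y, fderiv ℝ (fun y => f (x - y)) y v = -(fderiv ℝ f (x - y) v) := by
    intro y
    rw [(hg y).fderiv]; rfl
  have i1 := conv_integrable hκt (hf.2.2 v).rapid (hf.2.2 v).continuous.aestronglyMeasurable x
  have i2 := conv_integrable hκ't hf.rapid hf.continuous.aestronglyMeasurable x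
  have i3 := conv_integrable hκt hf.rapid hf.continuous.aestronglyMeasurable x
  have := integral_mul_fderiv_eq_neg_fderiv_mul_of_integrable (μ := volume) (f := κ)
    (g := fun y => f (x - y)) (v := v) (by simpa using i2)
    (by simp only [hgd]; simpa using i1.neg) (by simpa using i3)
    (fun y _ => hκd y) (fun y _ => (hg y).differentiableAt)
  simp only [hgd, mul_neg, integral_neg, neg_inj] at this
  unfold conv
  simpa using this

end Pool.Agent.Lib.MP_d898c1_an
end

section

/-!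
The logarithmic potential gains one derivative.
-/

set_option autoImplicit false
set_option linter.unusedSectionVars false

open MeasureTheory Set Filter Topology Real Module

namespace Pool.Agent.Lib.MP_d898c1_an

variable {E : Type} [NormedAddCommGroup E] [InnerProductSpace ℝ E] [FiniteDimensional ℝ E]
  [MeasurableSpace E] [BorelSpace E]

/-- The derivative kernel of `-log ‖y‖` in the direction `v`. -/
noncomputable def Kv (v y : E) : ℝ := -(‖y‖ ^ 2)⁻¹ * inner ℝ y v

theorem Kv_measurable (v : E) : Measurable (Kv v) := by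
  unfold Kv; fun_prop

theorem tame_Kv (h : 1 < finrank ℝ E) (v : E) : Tame (Kv v) := by
  have h1 : Tame (fun y : E => (‖y‖ ^ 1)⁻¹) := tame_inv_pow h
  refine (h1.const_mul ‖v‖).mono (Kv_measurable v).aestronglyMeasurable fun y => ?_
  unfold Kv
  by_cases hy : y = 0
  · simp [hy]
  · have : 0 < ‖y‖ := norm_pos_iff.2 hy
    rw [abs_mul, abs_neg, abs_of_pos (by positivity : 0 < (‖y‖ ^ 2)⁻¹), pow_one,
      abs_of_nonneg (by positivity : 0 ≤ ‖v‖ * ‖y‖⁻¹)]
    calc (‖y‖ ^ 2)⁻¹ * |inner ℝ y v| ≤ (‖y‖ ^ 2)⁻¹ * (‖y‖ * ‖v‖) := by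
          gcongr; exact abs_real_inner_le_norm y v
      _ = _ := by field_simp

/-- Regularised kernel. -/
noncomputable def Ls (s : ℝ) (y : E) : ℝ := -(1 / 2) * log (‖y‖ ^ 2 + s)

theorem hasFDerivAt_Ls {s : ℝ} (hs : 0 < s) (y : E) :
    HasFDerivAt (Ls s) ((-(‖y‖ ^ 2 + s)⁻¹) • innerSL ℝ y) y := by
  have h1 : HasFDerivAt (fun y : E => ‖y‖ ^ 2) (2 • innerSL ℝ y) y :=
    (hasStrictFDerivAt_norm_sq y).hasFDerivAt
  have h2 : HasFDerivAt (fun y : E => ‖y‖ ^ 2 + s) (2 • innerSL ℝ y) y := h1.add_const s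
  have hpos : 0 < ‖y‖ ^ 2 + s := by positivity
  have h3 := (h2.log hpos.ne').const_mul (-(1 / 2))
  refine h3.congr_fderiv ?_
  ext w
  simp
  ring

theorem norm_Ls_deriv_le {s : ℝ} (hs : 0 < s) (y : E) :
    ‖(-(‖y‖ ^ 2 + s)⁻¹) • innerSL ℝ y‖ ≤ 1 / (2 * √s) := by
  have hpos : 0 < ‖y‖ ^ 2 + s := by positivity
  have hs2 : 0 < √s := sqrt_pos.2 hs
  rw [norm_smul, norm_neg, innerSL_apply_norm, Real.norm_of_nonneg (by positivity)]
  rw [inv_mul_eq_div, div_le_div_iff₀ hpos (by positivity), one_mul]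
  have := sq_sqrt hs.le
  nlinarith [sq_nonneg (‖y‖ - √s)]

theorem Ls_measurable (s : ℝ) : Measurable (Ls s : E → ℝ) := by
  unfold Ls; fun_prop

theorem Ls_continuous {s : ℝ} (hs : 0 < s) : Continuous (Ls s : E → ℝ) := by
  unfold Ls
  apply Continuous.mul continuous_const
  apply Continuous.log (by fun_prop)
  intro y
  have : 0 < ‖y‖ ^ 2 + s := by positivity
  exact this.ne'

/-- `|L_s| ≤ |L| + 1 + |y|`, for `0 < s ≤ 1` and `y ≠ 0`. -/
theorem abs_Ls_le {s : ℝ} (hs : 0 < s) (hs1 : s ≤ 1) {y : E} (hy : y ≠ 0) :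
    |Ls s y| ≤ (‖y‖ ^ 1)⁻¹ + (1 + ‖y‖) := by
  have hy0 : 0 < ‖y‖ := norm_pos_iff.2 hy
  unfold Ls
  rw [pow_one, abs_mul, abs_neg, abs_of_pos (by norm_num : (0 : ℝ) < 1 / 2)]
  have h1 : 2 * log ‖y‖ ≤ log (‖y‖ ^ 2 + s) := by
    have : 2 * log ‖y‖ = log (‖y‖ ^ 2) := by rw [log_pow]; norm_num
    rw [this]
    exact log_le_log (by positivity) (by linarith)
  have h2 : log (‖y‖ ^ 2 + s) ≤ 2 * log (1 + ‖y‖) := by
    have : 2 * log (1 + ‖y‖) = log ((1 + ‖y‖) ^ 2) := by rw [log_pow]; norm_num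
    rw [this]
    exact log_le_log (by positivity) (by nlinarith)
  have h3 := abs_log_le hy0
  have h4 : log (1 + ‖y‖) ≤ ‖y‖ := by
    have := log_le_sub_one_of_pos (base_pos y)
    linarith
  have h5 : -(‖y‖⁻¹ + ‖y‖) ≤ log ‖y‖ := (abs_le.1 h3).1
  have h6 : 0 < ‖y‖⁻¹ := inv_pos.2 hy0
  have : |log (‖y‖ ^ 2 + s)| ≤ 2 * (‖y‖⁻¹ + ‖y‖) := by
    rw [abs_le]; constructor <;> linarith
  linarith

theorem meas_kernel {f : E → ℝ} (hf : Continuous f) (x : E) : AEStronglyMeasurable
      (fun y => f y • ((-(‖x - y‖ ^ 2)⁻¹) • innerSL ℝ (x - y))) volume := by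
  have h1 : AEStronglyMeasurable (fun y : E => -(‖x - y‖ ^ 2)⁻¹) volume :=
    Measurable.aestronglyMeasurable (by fun_prop)
  have h2 : AEStronglyMeasurable (fun y : E => innerSL ℝ (x - y)) volume :=
    ((innerSL ℝ (E := E)).continuous.comp (by fun_prop)).aestronglyMeasurable
  exact hf.aestronglyMeasurable.smul (h1.smul h2)

theorem norm_kernel (a : ℝ) (z : E) :
    ‖a • ((-(‖z‖ ^ 2)⁻¹) • innerSL ℝ z)‖ ≤ (‖z‖ ^ 1)⁻¹ * |a| := by
  rw [norm_smul, norm_smul, norm_neg, innerSL_apply_norm, Real.norm_eq_abs a, mul_comm,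
    Real.norm_eq_abs, abs_of_nonneg (by positivity : 0 ≤ (‖z‖ ^ 2)⁻¹)]
  apply mul_le_mul_of_nonneg_right _ (abs_nonneg _)
  by_cases h0 : ‖z‖ = 0
  · simp [h0]
  · apply le_of_eq; field_simp

/-- The logarithmic potential of a continuous rapidly decreasing function is differentiable. -/
theorem conv_Lk_hasFDerivAt (hn : 3 ≤ finrank ℝ E) {f : E → ℝ} (hf : RC 0 f) (x₀ : E) :
    HasFDerivAt (conv Lk f)
      (∫ y, f y • ((-(‖x₀ - y‖ ^ 2)⁻¹) • innerSL ℝ (x₀ - y))) x₀ := by
  have hfi : Integrable f := by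
    have := conv_integrable (κ := fun _ : E => (1 : ℝ))
      (Slow.tame ⟨0, 1, fun y => by simp⟩ continuous_const) hf.2 hf.1.aestronglyMeasurable (0 : E)
    have h2 : Integrable (fun y : E => f (0 - y)) := by simpa using this
    have h3 := h2.comp_sub_left 0
    simpa using h3
  let sq : ℕ → ℝ := fun n => 1 / ((n : ℝ) + 1)
  have hsq0 : ∀ n, 0 < sq n := fun n => by simp only [sq]; positivity
  have hsq1 : ∀ n, sq n ≤ 1 := fun n => by
    simp only [sq]
    rw [div_le_one (by positivity)]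
    have : (0 : ℝ) ≤ n := Nat.cast_nonneg n
    linarith
  have hsqlim : Tendsto sq atTop (𝓝 0) := tendsto_one_div_add_atTop_nhds_zero_nat
  -- dominating kernel
  have ht2 : Tame (fun y : E => (‖y‖ ^ 2)⁻¹) := tame_inv_pow (by omega)
  have ht1 : Tame (fun y : E => (‖y‖ ^ 1)⁻¹ + (1 + ‖y‖)) := by
    refine (tame_inv_pow (by omega)).add (Slow.tame ⟨1, 1, fun y => ?_⟩ (by fun_prop))
    rw [Real.norm_of_nonneg (by positivity)]; simp
  have hfabs : Rapid (fun y => |f y|) := fun N => by
    obtain ⟨C, hC⟩ := hf.2 N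
    exact ⟨C, fun x => by simpa using hC x⟩
  obtain ⟨N, C, hC⟩ := conv_bound ht2 hfabs
  have hC0 : 0 ≤ C := by
    have := (norm_nonneg _).trans (hC 0)
    simpa using this
  have hint2 : ∀ x : E, Integrable (fun y => (‖x - y‖ ^ 2)⁻¹ * |f y|) := by
    intro x
    have := conv_integrable ht2 hfabs hf.1.abs.aestronglyMeasurable x
    have h3 := this.comp_sub_left x
    simpa using h3
  have hint2b : ∀ x : E, ∫ y, (‖x - y‖ ^ 2)⁻¹ * |f y| ≤ C * (1 + ‖x‖) ^ N := by
    intro x
    have h1 := hC x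
    have h2 : conv (fun y : E => (‖y‖ ^ 2)⁻¹) (fun y => |f y|) x
        = ∫ y, (‖x - y‖ ^ 2)⁻¹ * |f y| := by
      unfold conv
      rw [← integral_sub_left_eq_self _ volume x]
      simp
    rw [h2] at h1
    exact (le_abs_self _).trans h1
  -- approximations
  let G : ℕ → E → ℝ := fun n x => ∫ y, f y * Ls (sq n) (x - y)
  let G' : ℕ → E → (E →L[ℝ] ℝ) := fun n x =>
    ∫ y, f y • ((-(‖x - y‖ ^ 2 + sq n)⁻¹) • innerSL ℝ (x - y))
  have hcontK : ∀ n (x : E), Continuous
      (fun y => f y • ((-(‖x - y‖ ^ 2 + sq n)⁻¹) • innerSL ℝ (x - y))) := by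
    intro n x
    have h1 : Continuous (fun y : E => (-(‖x - y‖ ^ 2 + sq n)⁻¹)) := by
      apply Continuous.neg
      apply Continuous.inv₀ (by fun_prop)
      intro y
      have := hsq0 n
      positivity
    exact hf.1.smul (h1.smul ((innerSL ℝ (E := E)).continuous.comp (by fun_prop)))
  have hG : ∀ n x, HasFDerivAt (G n) (G' n x) x := by
    intro n x
    have hs := hsq0 n
    refine hasFDerivAt_integral_of_dominated_of_fderiv_le (𝕜 := ℝ) (μ := volume)
      (F := fun x y => f y * Ls (sq n) (x - y))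
      (F' := fun x y => f y • ((-(‖x - y‖ ^ 2 + sq n)⁻¹) • innerSL ℝ (x - y)))
      (bound := fun y => ‖f y‖ * (1 / (2 * √(sq n)))) (Filter.univ_mem) ?_ ?_ ?_ ?_ ?_ ?_
    · refine Eventually.of_forall fun x => ?_
      exact (hf.1.mul ((Ls_continuous hs).comp (by fun_prop))).aestronglyMeasurable
    · have ht : Tame (Ls (sq n) : E → ℝ) := by
        refine ht1.mono_ae (Ls_measurable _).aestronglyMeasurable ?_
        have hne : ∀ᵐ y : E, y ≠ 0 := by
          have : Nontrivial E := Module.nontrivial_of_finrank_pos (R := ℝ) (by omega)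
          rw [ae_iff]; simp
        filter_upwards [hne] with y hy
        exact (abs_Ls_le hs (hsq1 n) hy).trans (le_abs_self _)
      have := conv_integrable ht hf.2 hf.1.aestronglyMeasurable x
      have h3 := this.comp_sub_left x
      refine h3.congr (Eventually.of_forall fun y => ?_)
      simp only [smul_eq_mul, sub_sub_cancel]
      ring
    · exact (hcontK n x).aestronglyMeasurable
    · refine Eventually.of_forall fun y x _ => ?_
      rw [norm_smul]
      gcongr
      exact norm_Ls_deriv_le hs _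
    · exact hfi.norm.mul_const _
    · refine Eventually.of_forall fun y x _ => ?_
      have h1 := hasFDerivAt_Ls hs (x - y)
      have h2 : HasFDerivAt (fun x => x - y) (ContinuousLinearMap.id ℝ E) x :=
        (hasFDerivAt_id x).sub_const y
      have h3 : HasFDerivAt (fun x => f y * Ls (sq n) (x - y))
        (f y • ((-(‖x - y‖ ^ 2 + sq n)⁻¹) • innerSL ℝ (x - y)).comp
          (ContinuousLinearMap.id ℝ E)) x := (h1.comp x h2).const_mul (f y)
      rw [ContinuousLinearMap.comp_id] at h3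
      exact h3
  have hmeasK : ∀ x : E, AEStronglyMeasurable
      (fun y => f y • ((-(‖x - y‖ ^ 2)⁻¹) • innerSL ℝ (x - y))) volume :=
    fun x => meas_kernel hf.1 x
  have hintK : ∀ x : E, Integrable
      (fun y => f y • ((-(‖x - y‖ ^ 2)⁻¹) • innerSL ℝ (x - y))) := by
    intro x
    have ht1' : Tame (fun y : E => (‖y‖ ^ 1)⁻¹) := tame_inv_pow (by omega)
    have h1 := conv_integrable ht1' hfabs hf.1.abs.aestronglyMeasurable x
    have h3 : Integrable (fun y => (‖x - y‖ ^ 1)⁻¹ * |f y|) := by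
      have := h1.comp_sub_left x
      simpa using this
    exact h3.mono' (hmeasK x) (Eventually.of_forall fun y => norm_kernel _ _)
  have hintKn : ∀ n (x : E), Integrable
      (fun y => f y • ((-(‖x - y‖ ^ 2 + sq n)⁻¹) • innerSL ℝ (x - y))) := by
    intro n x
    refine (hfi.norm.mul_const (1 / (2 * √(sq n)))).mono' (hcontK n x).aestronglyMeasurable
      (Eventually.of_forall fun y => ?_)
    rw [norm_smul]
    gcongr
    exact norm_Ls_deriv_le (hsq0 n) _
  -- pointwise convergence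
  have hlim : ∀ x : E, Tendsto (fun n => G n x) atTop (𝓝 (conv Lk f x)) := by
    intro x
    have e : conv Lk f x = ∫ y, f y * Lk (x - y) := by
      unfold conv
      rw [← integral_sub_left_eq_self _ volume x]
      apply integral_congr_ae
      refine Eventually.of_forall fun y => ?_
      simp only [smul_eq_mul, sub_sub_cancel]
      ring
    rw [e]
    have hne : ∀ᵐ y : E, x - y ≠ 0 := by
      have : Nontrivial E := Module.nontrivial_of_finrank_pos (R := ℝ) (by omega)
      have h0 : ∀ᵐ y : E, y ≠ x := by rw [ae_iff]; simp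
      filter_upwards [h0] with y hy
      exact sub_ne_zero.2 (Ne.symm hy)
    have hb : Integrable (fun y => ((‖x - y‖ ^ 1)⁻¹ + (1 + ‖x - y‖)) * |f y|) := by
      have := (conv_integrable ht1 hfabs hf.1.abs.aestronglyMeasurable x).comp_sub_left x
      simpa using this
    apply tendsto_integral_of_dominated_convergence _ _ hb
    · intro n
      filter_upwards [hne] with y hy
      rw [norm_mul, mul_comm, Real.norm_eq_abs, Real.norm_eq_abs]
      gcongr
      exact abs_Ls_le (hsq0 n) (hsq1 n) hy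
    · filter_upwards [hne] with y hy
      have hy0 : 0 < ‖x - y‖ := norm_pos_iff.2 hy
      apply Tendsto.const_mul
      unfold Ls Lk
      have h1 : Tendsto (fun n => ‖x - y‖ ^ 2 + sq n) atTop (𝓝 (‖x - y‖ ^ 2 + 0)) :=
        hsqlim.const_add _
      rw [add_zero] at h1
      have h2 := (h1.log (by positivity)).const_mul (-(1 / 2))
      convert h2 using 2
      rw [log_pow]; push_cast; ring
    · intro n
      exact (hf.1.mul ((Ls_continuous (hsq0 n)).comp (by fun_prop))).aestronglyMeasurable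
  -- uniform convergence of the derivatives
  have hunif : TendstoUniformlyOn G'
      (fun x => ∫ y, f y • ((-(‖x - y‖ ^ 2)⁻¹) • innerSL ℝ (x - y))) atTop
      (Metric.ball x₀ 1) := by
    rw [Metric.tendstoUniformlyOn_iff]
    intro ε hε
    have hlim2 : Tendsto (fun n => √(sq n) / 2 * (C * (2 + ‖x₀‖) ^ N)) atTop
        (𝓝 (√0 / 2 * (C * (2 + ‖x₀‖) ^ N))) :=
      ((hsqlim.sqrt).div_const 2).mul_const _
    rw [sqrt_zero, zero_div, zero_mul] at hlim2
    filter_upwards [hlim2.eventually (gt_mem_nhds hε)] with n hn' x hx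
    refine lt_of_le_of_lt ?_ hn'
    rw [dist_eq_norm]
    simp only [G']
    rw [← integral_sub (hintK x) (hintKn n x)]
    have hx1 : ‖x‖ ≤ ‖x₀‖ + 1 := by
      have : ‖x - x₀‖ < 1 := by simpa [dist_eq_norm] using hx
      calc ‖x‖ = ‖x₀ + (x - x₀)‖ := by congr 1; abel
        _ ≤ ‖x₀‖ + ‖x - x₀‖ := norm_add_le _ _
        _ ≤ _ := by linarith
    calc ‖∫ y, (f y • ((-(‖x - y‖ ^ 2)⁻¹) • innerSL ℝ (x - y))
          - f y • ((-(‖x - y‖ ^ 2 + sq n)⁻¹) • innerSL ℝ (x - y)))‖
        ≤ ∫ y, √(sq n) / 2 * ((‖x - y‖ ^ 2)⁻¹ * |f y|) := by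
          apply norm_integral_le_of_norm_le ((hint2 x).const_mul _)
          refine Eventually.of_forall fun y => ?_
          rw [← smul_sub, ← sub_smul, norm_smul, norm_smul, innerSL_apply_norm, Real.norm_eq_abs,
            Real.norm_eq_abs]
          have hs := hsq0 n
          set s := sq n
          set z := ‖x - y‖ with hz
          have hz0 : 0 ≤ z := norm_nonneg _
          rcases hz0.eq_or_lt with h0 | h0
          · rw [← h0]; simp
          · have hs2 : 0 < √s := sqrt_pos.2 hs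
            have hss := sq_sqrt hs.le
            have e : -(z ^ 2)⁻¹ - -(z ^ 2 + s)⁻¹ = -(s / (z ^ 2 * (z ^ 2 + s))) := by
              have : 0 < z ^ 2 + s := by positivity
              field_simp
              ring
            rw [e, abs_neg, abs_of_pos (by positivity : 0 < s / (z ^ 2 * (z ^ 2 + s)))]
            have e2 : s / (z ^ 2 * (z ^ 2 + s)) * z ≤ √s / 2 * (z ^ 2)⁻¹ := by
              rw [div_mul_eq_mul_div, ← div_eq_mul_inv, div_div, div_le_div_iff₀ (by positivity)
                (by positivity)]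
              have : s * z * (2 * z ^ 2) ≤ √s * (z ^ 2 * (z ^ 2 + s)) := by
                have h7 : s * z * 2 ≤ √s * (z ^ 2 + s) := by
                  have : 0 ≤ √s * (z - √s) ^ 2 := by positivity
                  nlinarith
                nlinarith [sq_nonneg z]
              exact this
            calc |f y| * (s / (z ^ 2 * (z ^ 2 + s)) * z) ≤ |f y| * (√s / 2 * (z ^ 2)⁻¹) := by
                  gcongr
              _ = √s / 2 * ((z ^ 2)⁻¹ * |f y|) := by ring
      _ = √(sq n) / 2 * ∫ y, ((‖x - y‖ ^ 2)⁻¹ * |f y|) := by rw [integral_const_mul]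
      _ ≤ √(sq n) / 2 * (C * (1 + ‖x‖) ^ N) := by
          gcongr; exact hint2b x
      _ ≤ √(sq n) / 2 * (C * (2 + ‖x₀‖) ^ N) := by
          have : 1 + ‖x‖ ≤ 2 + ‖x₀‖ := by linarith
          gcongr
  exact hasFDerivAt_of_tendstoUniformlyOn Metric.isOpen_ball hunif (fun n x _ => hG n x)
    (fun x _ => hlim x) (Metric.mem_ball_self one_pos)

theorem conv_Lk_fderiv_apply (hn : 3 ≤ finrank ℝ E) {f : E → ℝ} (hf : RC 0 f) (x v : E) :
    fderiv ℝ (conv Lk f) x v = conv (Kv v) f x := by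
  rw [(conv_Lk_hasFDerivAt hn hf x).fderiv]
  have hfabs : Rapid (fun y => |f y|) := fun N => by
    obtain ⟨C, hC⟩ := hf.2 N
    exact ⟨C, fun x => by simpa using hC x⟩
  have hint : Integrable
      (fun y => f y • ((-(‖x - y‖ ^ 2)⁻¹) • innerSL ℝ (x - y))) := by
    have ht1' : Tame (fun y : E => (‖y‖ ^ 1)⁻¹) := tame_inv_pow (by omega)
    have h1 := conv_integrable ht1' hfabs hf.1.abs.aestronglyMeasurable x
    have h3 : Integrable (fun y => (‖x - y‖ ^ 1)⁻¹ * |f y|) := by
      have := h1.comp_sub_left x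
      simpa using this
    exact h3.mono' (meas_kernel hf.1 x) (Eventually.of_forall fun y => norm_kernel _ _)
  have := ((ContinuousLinearMap.apply ℝ ℝ v : (E →L[ℝ] ℝ) →L[ℝ] ℝ)).integral_comp_comm hint
  have e : (∫ y, f y • ((-(‖x - y‖ ^ 2)⁻¹) • innerSL ℝ (x - y))) v
      = ∫ y, f y * Kv v (x - y) := by
    have h2 : (∫ y, f y • ((-(‖x - y‖ ^ 2)⁻¹) • innerSL ℝ (x - y))) v
      = ContinuousLinearMap.apply ℝ ℝ v
        (∫ y, f y • ((-(‖x - y‖ ^ 2)⁻¹) • innerSL ℝ (x - y))) := rfl
    rw [h2, ← this]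
    apply integral_congr_ae
    refine Eventually.of_forall fun y => ?_
    simp [Kv, inner_sub_left]
  rw [e]
  unfold conv
  rw [← integral_sub_left_eq_self _ volume x]
  apply integral_congr_ae
  refine Eventually.of_forall fun y => ?_
  simp only [smul_eq_mul, sub_sub_cancel]
  ring

/-- The logarithmic potential gains one derivative. -/
theorem conv_Lk_SC (hn : 3 ≤ finrank ℝ E) {k : ℕ} {f : E → ℝ} (hf : RC k f) :
    SC (k + 1) (conv Lk f) := by
  have h0 : RC 0 f := ⟨hf.continuous, hf.rapid⟩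
  refine ⟨fun x => (conv_Lk_hasFDerivAt hn h0 x).differentiableAt,
    conv_bound (tame_Lk (by omega)) hf.rapid, fun v => ?_⟩
  have : (fun x => fderiv ℝ (conv Lk f) x v) = conv (Kv v) f := by
    ext x; exact conv_Lk_fderiv_apply hn h0 x v
  rw [this]
  exact conv_SC (tame_Kv (by omega) v) hf

end Pool.Agent.Lib.MP_d898c1_an
end
end
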